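import Mathlib

open MeasureTheory Set Filter Topology
open scoped ENNReal NNReal ContDiff

noncomputable section

namespace Pool.Agent.Helper10.Dupin

/-! ### Riemannian metrics on a vector space -/

section metric

/-- A smooth Riemannian metric `g` on the (finite-dimensional) real vector space `E`. -/
structure RiemMetric (E : Type) [NormedAddCommGroup E] [NormedSpace ℝ E] where
  /-- the inner product `g z X Y` of the tangent vectors `X`, `Y` at the point `z` -/
  g : E → E → E → ℝ
  add_left : ∀ z X Y Z, g z (X + Y) Z = g z X Z + g z Y Z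
  smul_left : ∀ z (a : ℝ) X Y, g z (a • X) Y = a * g z X Y
  symm : ∀ z X Y, g z X Y = g z Y X
  pos : ∀ z X, X ≠ 0 → 0 < g z X X
  smooth : ∀ X Y, ContDiff ℝ ∞ fun z => g z X Y

variable {E : Type} [NormedAddCommGroup E] [NormedSpace ℝ E]

/-- Christoffel symbol of the first kind:
`[X Y, Z] = (D_X g(Y,Z) + D_Y g(X,Z) - D_Z g(X,Y)) / 2` at the point `z`. -/
def christoffel₁ (G : RiemMetric E) (z X Y Z : E) : ℝ :=
  (fderiv ℝ (fun w => G.g w Y Z) z X + fderiv ℝ (fun w => G.g w X Z) z Y
    - fderiv ℝ (fun w => G.g w X Y) z Z) / 2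

/-- Christoffel symbol of the second kind: the vector `Γ` with `g_z(Γ, Z) = [X Y, Z]` for all `Z`
(it exists and is unique as `g_z` is positive definite). -/
def christoffel (G : RiemMetric E) (z X Y : E) : E :=
  Classical.epsilon fun W => ∀ Z, G.g z W Z = christoffel₁ G z X Y Z

/-- The covariant derivative, at time `t`, of the vector field `V` along the curve `c`, for the
Levi-Civita connection. -/
def covDeriv (G : RiemMetric E) (c V : ℝ → E) (t : ℝ) : E :=
  deriv V t + christoffel G (c t) (deriv c t) (V t)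

/-- Geodesics. -/
def IsGeodesic (G : RiemMetric E) (c : ℝ → E) : Prop :=
  ContDiff ℝ ∞ c ∧ ∀ t, covDeriv G c (deriv c) t = 0

/-- The metric is complete: all geodesics are defined for all times. -/
def IsCompleteMetric (G : RiemMetric E) : Prop :=
  ∀ x v, ∃ c, IsGeodesic G c ∧ c 0 = x ∧ deriv c 0 = v

/-- The curvature tensor `R(X,Y)Z = ∇_X ∇_Y Z - ∇_Y ∇_X Z` at `z` (`X`, `Y`, `Z` constant vector
fields). -/
def curvature (G : RiemMetric E) (z X Y Z : E) : E :=
  fderiv ℝ (fun w => christoffel G w Y Z) z X - fderiv ℝ (fun w => christoffel G w X Z) z Y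
    + christoffel G z X (christoffel G z Y Z) - christoffel G z Y (christoffel G z X Z)

/-- Nonnegative sectional curvature: `g(R(X,Y)Y, X) ≥ 0`. -/
def NonnegCurved (G : RiemMetric E) : Prop :=
  ∀ z X Y, 0 ≤ G.g z (curvature G z X Y Y) X

/-- The length of the curve `c` on `[0,1]`. -/
def length (G : RiemMetric E) (c : ℝ → E) : ℝ :=
  ∫ t in (0 : ℝ)..1, √(G.g (c t) (deriv c t) (deriv c t))

/-- The Riemannian distance. -/
def riemDist (G : RiemMetric E) (x y : E) : ℝ :=
  sInf {l | ∃ c : ℝ → E, ContDiff ℝ 1 c ∧ c 0 = x ∧ c 1 = y ∧ length G c = l}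

/-- The exponential map: `expo G (x, v)` is the point reached at time `1` by the
geodesic which starts at `x` with velocity `v`. -/
def expo (G : RiemMetric E) (z : E × E) : E :=
  Classical.epsilon fun p => ∃ c, IsGeodesic G c ∧ c 0 = z.1 ∧ deriv c 0 = z.2 ∧ c 1 = p

end metric

/-! ### Submanifolds, normal bundle, focal points -/

section submanifolds

variable {E : Type} [NormedAddCommGroup E] [NormedSpace ℝ E]

/-- `M` is an embedded smooth submanifold of `E` of dimension `d`: near each of its points it is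
the zero set of a smooth map to `ℝ^m`, `m + d = dim E`, whose derivative is surjective. -/
def IsSubmanifold (M : Set E) (d : ℕ) : Prop :=
  ∀ x ∈ M, ∃ (m : ℕ) (U : Set E) (f : E → EuclideanSpace ℝ (Fin m)), m + d = Module.finrank ℝ E ∧
    IsOpen U ∧ x ∈ U ∧ ContDiffOn ℝ ∞ f U ∧ (∀ y ∈ U, y ∈ M ↔ f y = 0) ∧
    ∀ y ∈ U, Function.Surjective (fderiv ℝ f y)

/-- The tangent space of `M` at `x`: velocities of curves in `M` through `x`. -/
def tangent (M : Set E) (x : E) : Set E :=
  {v | ∃ c : ℝ → E, (∀ s, c s ∈ M) ∧ c 0 = x ∧ HasDerivAt c v 0}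

/-- The normal bundle of `M`, as a set of pairs (foot point, normal vector). -/
def normalBundle (G : RiemMetric E) (M : Set E) : Set (E × E) :=
  {z | z.1 ∈ M ∧ ∀ u ∈ tangent M z.1, G.g z.1 z.2 u = 0}

/-- The kernel of the differential at `z` of the normal exponential map `exp : ν(M) → N`:
velocities `w` at `z` of curves `c` in the normal bundle along which `exp` has derivative zero. -/
def focalKernel (G : RiemMetric E) (M : Set E) (z : E × E) : Set (E × E) :=
  {w | ∃ c : ℝ → E × E, (∀ s, c s ∈ normalBundle G M) ∧ c 0 = z ∧ HasDerivAt c w 0 ∧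
    HasDerivAt (fun s => expo G (c s)) 0 0}

/-- The multiplicity of the normal vector `z`: the dimension of the kernel of the differential of
the normal exponential map at `z`. -/
def multiplicity (G : RiemMetric E) (M : Set E) (z : E × E) : ℕ :=
  Module.finrank ℝ (Submodule.span ℝ (focalKernel G M z))

/-- The set `𝒱` of focal normals of `M`. -/
def focalNormals (G : RiemMetric E) (M : Set E) : Set (E × E) :=
  {z ∈ normalBundle G M | 0 < multiplicity G M z}

/-- `p` is a focal point of `M`. -/
def IsFocalPoint (G : RiemMetric E) (M : Set E) (p : E) : Prop :=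
  ∃ z ∈ focalNormals G M, expo G z = p

/-- The index of the geodesic `t ↦ exp (t v)`, `0 ≤ t ≤ 1`, normal to `M` at `x`, `z = (x, v)`:
the number of focal points `exp (t v)`, `0 < t < 1`, of `M` along it, counted with multiplicity. -/
def index (G : RiemMetric E) (M : Set E) (z : E × E) : ℕ :=
  ∑ᶠ t ∈ Set.Ioo (0 : ℝ) 1, multiplicity G M (z.1, t • z.2)

end submanifolds

/-! ### The path space -/

/-- The space of square integrable `E`-valued functions on `[0,1]`. -/
abbrev L2 (E : Type) [NormedAddCommGroup E] : Type := Lp E 2 (volume : Measure unitInterval)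

/-- The `H¹` path `γ : [0,1] → E` with derivative `f` which ends at `p`, that is,
`γ t = p - ∫ τ in t..1, f τ`. -/
def path {E : Type} [NormedAddCommGroup E] [NormedSpace ℝ E] (p : E) (f : L2 E)
    (t : unitInterval) : E := p - ∫ τ in Ioc t 1, f τ

/-- The space `P(E, M × p)` of `H¹` paths in the manifold `E` from `M` to `p`, each path
represented by its derivative; it carries the topology of `L²` (that is, the `H¹` topology). -/
def pathSpace {E : Type} [NormedAddCommGroup E] [NormedSpace ℝ E] (M : Set E) (p : E) :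
    Set (L2 E) :=
  {f | path p f 0 ∈ M}

/-! ### Betti numbers -/

section homology

/-- Singular `n`-simplices of `X`. -/
abbrev Simplex (X : Type) [TopologicalSpace X] (n : ℕ) : Type := C(stdSimplex ℝ (Fin (n + 1)), X)

/-- The `i`-th face of a singular simplex. -/
def face {X : Type} [TopologicalSpace X] (n : ℕ) (i : Fin (n + 2)) (σ : Simplex X (n + 1)) :
    Simplex X n :=
  σ.comp ⟨stdSimplex.map i.succAbove, stdSimplex.continuous_map _⟩

/-- The boundary `∂ : C_{n+1}(X; F) → C_n(X; F)` of singular chains with coefficients in `F`,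
`∂ σ = ∑ i, (-1)^i (i-th face of σ)`. -/
def boundary (F : Type) [Field F] (X : Type) [TopologicalSpace X] (n : ℕ) :
    (Simplex X (n + 1) →₀ F) →ₗ[F] (Simplex X n →₀ F) :=
  ∑ i : Fin (n + 2), ((-1 : F) ^ (i : ℕ)) • Finsupp.lmapDomain F F (face n i)

/-- Singular cycles: all chains in degree `0`, the kernel of `∂` in positive degree. -/
def cycles (F : Type) [Field F] (X : Type) [TopologicalSpace X] :
    ∀ n : ℕ, Submodule F (Simplex X n →₀ F)
  | 0 => ⊤
  | (n + 1) => LinearMap.ker (boundary F X n)

/-- Singular boundaries: the range of `∂`. -/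
def boundaries (F : Type) [Field F] (X : Type) [TopologicalSpace X] (n : ℕ) :
    Submodule F (Simplex X n →₀ F) := LinearMap.range (boundary F X n)

/-- The singular homology `H_n(X; F)`, cycles modulo boundaries, as a subspace of the space of
chains modulo boundaries. -/
def homology (F : Type) [Field F] (X : Type) [TopologicalSpace X] (n : ℕ) :
    Submodule F ((Simplex X n →₀ F) ⧸ boundaries F X n) :=
  (cycles F X n).map (boundaries F X n).mkQ

/-- The `n`-th Betti number of `X` with coefficients in the field `F`: the dimension of the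
singular homology `H_n(X; F)`. -/
def betti (F : Type) [Field F] (X : Type) [TopologicalSpace X] (n : ℕ) : ℕ∞ :=
  Cardinal.toENat (Module.rank F (homology F X n))

end homology

/-! ### Taut and Dupin submanifolds -/

section tautDupin

variable {E : Type} [NormedAddCommGroup E] [NormedSpace ℝ E]

/-- `M` is taut in the Riemannian manifold `(E, G)`: there is a field `F` such that for every `p`
which is not a focal point of `M` the energy `E_p` on `P(E, M × p)` is perfect over `F`. Its
critical points are the geodesics `t ↦ exp (t v)`, `(x, v)` in the normal bundle, with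
`exp (x, v) = p`; for every `k` the number of those of index `k` is the `k`-th Betti number. -/
def IsTaut (G : RiemMetric E) (M : Set E) : Prop :=
  ∃ (F : Type) (_ : Field F), ∀ p, ¬ IsFocalPoint G M p → ∀ k : ℕ,
    {z ∈ normalBundle G M | expo G z = p ∧ index G M z = k}.encard = betti F (pathSpace M p) k

/-- The normal field `v` of `M` along `S ⊆ M` is smooth and parallel for the normal connection:
along every smooth curve in `S` it is smooth and its covariant derivative is tangent to `M`. -/
def IsParallel (G : RiemMetric E) (M S : Set E) (v : E → E) : Prop :=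
  ∀ c : ℝ → E, ContDiff ℝ ∞ c → (∀ t, c t ∈ S) → ContDiff ℝ ∞ (fun t => v (c t)) ∧
    ∀ t n, (c t, n) ∈ normalBundle G M → G.g (c t) (covDeriv G c (fun s => v (c s)) t) n = 0

/-- `S` is a focal leaf of `M` at `z₀.1` for the focal normal `z₀ = (x₀, v₀)` of multiplicity
`k`: a `k`-dimensional submanifold `S ⊆ M` through `x₀` with a parallel normal field `v` of `M`
along `S` such that `v x₀ = v₀`, `exp (v x) = exp v₀` and `v x` is a focal normal of multiplicity
`k` for all `x ∈ S`. -/
def IsFocalLeaf (G : RiemMetric E) (M S : Set E) (z₀ : E × E) : Prop :=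
  S ⊆ M ∧ z₀.1 ∈ S ∧ IsSubmanifold S (multiplicity G M z₀) ∧
    ∃ v : E → E, (∀ x ∈ S, (x, v x) ∈ normalBundle G M) ∧ IsParallel G M S v ∧ v z₀.1 = z₀.2 ∧
      ∀ x ∈ S, expo G (x, v x) = expo G z₀ ∧
        (x, v x) ∈ focalNormals G M ∧ multiplicity G M (x, v x) = multiplicity G M z₀

/-- The subset `S` of `E` is diffeomorphic to the sphere `S^k`. -/
def IsDiffeoSphere (S : Set E) (k : ℕ) : Prop :=
  ∃ (f : EuclideanSpace ℝ (Fin (k + 1)) → E) (h : E → EuclideanSpace ℝ (Fin (k + 1))),
    ContDiff ℝ ∞ f ∧ ContDiff ℝ ∞ h ∧ Set.BijOn f (Metric.sphere 0 1) S ∧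
    ∀ x ∈ Metric.sphere (0 : EuclideanSpace ℝ (Fin (k + 1))) 1, h (f x) = x

/-- `M` is Dupin: some open dense subset `V₀` of the set of focal normals is such that for every
`z₀ = (x₀, v₀)` in `V₀`, of multiplicity `k`, there is a focal leaf `S` through `x₀` which lies in
the distance sphere of radius `‖v₀‖` about `exp v₀` and is diffeomorphic to `S^k`. -/
def IsDupin (G : RiemMetric E) (M : Set E) : Prop :=
  ∃ V₀ ⊆ focalNormals G M, (∃ U, IsOpen U ∧ V₀ = focalNormals G M ∩ U) ∧
    focalNormals G M ⊆ closure V₀ ∧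
    ∀ z₀ ∈ V₀, ∃ S, IsFocalLeaf G M S z₀ ∧
      (∀ x ∈ S, riemDist G (expo G z₀) x = √(G.g z₀.1 z₀.2 z₀.2)) ∧
      IsDiffeoSphere S (multiplicity G M z₀)

end tautDupin

/-! ### The example -/

/-- The real vector space `ℂ²`. -/
abbrev V := ℂ × ℂ

/-- The standard inner product of `ℂ²`. -/
def ip (X Y : V) : ℝ :=
  X.1.re * Y.1.re + X.1.im * Y.1.im + (X.2.re * Y.2.re + X.2.im * Y.2.im)

/-- Multiplication by `i`. -/
def J (X : V) : V := (Complex.I * X.1, Complex.I * X.2)

/-- The function `1 + |z|²`. -/
def rho (z : V) : ℝ := 1 + ip z z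

/-- The form `X ↦ ⟨X, i z⟩`. -/
def om (z X : V) : ℝ := ip X (J z)

/-- The unit circle in the first axis of `ℂ²`. -/
def circle : Set V := {z | ‖z.1‖ = 1 ∧ z.2 = 0}

theorem cheeger_add_left (z X Y Z : V) : ip (X + Y) Z - om z (X + Y) * om z Z / rho z =
    ip X Z - om z X * om z Z / rho z + (ip Y Z - om z Y * om z Z / rho z) := by
  simp only [ip, om, J, Prod.fst_add, Prod.snd_add, Complex.add_re, Complex.add_im]
  ring

theorem cheeger_smul_left (z : V) (a : ℝ) (X Y : V) : ip (a • X) Y - om z (a • X) * om z Y / rho z =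
    a * (ip X Y - om z X * om z Y / rho z) := by
  simp only [ip, om, J, Prod.smul_fst, Prod.smul_snd, Complex.real_smul, Complex.mul_re,
    Complex.mul_im, Complex.ofReal_re, Complex.ofReal_im, zero_mul, sub_zero, add_zero]
  ring

theorem cheeger_symm (z X Y : V) : ip X Y - om z X * om z Y / rho z =
    ip Y X - om z Y * om z X / rho z := by
  simp only [ip]
  ring

theorem rho_pos (z : V) : 0 < rho z := by
  unfold rho ip
  nlinarith [sq_nonneg z.1.re, sq_nonneg z.1.im, sq_nonneg z.2.re, sq_nonneg z.2.im]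

theorem cheeger_pos (z X : V) (hX : X ≠ 0) : 0 < ip X X - om z X * om z X / rho z := by
  have h1 : 0 < ip X X := by
    rcases eq_or_ne X.1 0 with h | h
    · have h2 : X.2 ≠ 0 := fun h' => hX (Prod.ext h h')
      have := Complex.normSq_pos.mpr h2
      rw [Complex.normSq_apply] at this
      unfold ip
      nlinarith [sq_nonneg X.1.re, sq_nonneg X.1.im]
    · have := Complex.normSq_pos.mpr h
      rw [Complex.normSq_apply] at this
      unfold ip
      nlinarith [sq_nonneg X.2.re, sq_nonneg X.2.im]
  have h3 : om z X * om z X ≤ ip X X * ip z z := by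
    have : ip X X * ip z z - om z X * om z X = (X.1.re * z.1.re + X.1.im * z.1.im + X.2.re * z.2.re + X.2.im * z.2.im)^2 + (X.1.re * z.2.re - X.1.im * z.2.im - X.2.re * z.1.re + X.2.im * z.1.im)^2 + (X.1.re * z.2.im + X.1.im * z.2.re - X.2.re * z.1.im - X.2.im * z.1.re)^2 := by
      simp only [om, ip, J, Complex.mul_re, Complex.mul_im, Complex.I_re, Complex.I_im]
      ring
    nlinarith [sq_nonneg (X.1.re * z.1.re + X.1.im * z.1.im + X.2.re * z.2.re + X.2.im * z.2.im), sq_nonneg (X.1.re * z.2.re - X.1.im * z.2.im - X.2.re * z.1.re + X.2.im * z.1.im), sq_nonneg (X.1.re * z.2.im + X.1.im * z.2.re - X.2.re * z.1.im - X.2.im * z.1.re)]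
  have hr := rho_pos z
  rw [sub_pos, div_lt_iff₀ hr]
  unfold rho
  nlinarith

theorem contDiff_ip {f h : V → V} (hf : ContDiff ℝ ∞ f) (hh : ContDiff ℝ ∞ h) :
    ContDiff ℝ ∞ fun z => ip (f z) (h z) := by
  have hre : ∀ {k : V → ℂ}, ContDiff ℝ ∞ k → ContDiff ℝ ∞ fun z => (k z).re := fun hk =>
    Complex.reCLM.contDiff.comp hk
  have him : ∀ {k : V → ℂ}, ContDiff ℝ ∞ k → ContDiff ℝ ∞ fun z => (k z).im := fun hk =>
    Complex.imCLM.contDiff.comp hk
  unfold ip
  exact (((hre hf.fst).mul (hre hh.fst)).add ((him hf.fst).mul (him hh.fst))).add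
    (((hre hf.snd).mul (hre hh.snd)).add ((him hf.snd).mul (him hh.snd)))

theorem contDiff_J : ContDiff ℝ ∞ J := by
  unfold J
  exact (contDiff_const.mul contDiff_fst).prodMk (contDiff_const.mul contDiff_snd)

theorem cheeger_smooth (X Y : V) :
    ContDiff ℝ ∞ fun z => ip X Y - om z X * om z Y / rho z := by
  have h1 : ∀ X : V, ContDiff ℝ ∞ fun z => om z X := fun X => contDiff_ip contDiff_const contDiff_J
  have h2 : ContDiff ℝ ∞ rho := contDiff_const.add (contDiff_ip contDiff_id contDiff_id)
  exact contDiff_const.sub (((h1 X).mul (h1 Y)).div h2 fun z => (rho_pos z).ne')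

/-- The Cheeger deformation of the flat metric of `ℂ²` along the Hopf circles,
`g_z(X, Y) = ⟨X, Y⟩ - ⟨X, i z⟩ ⟨Y, i z⟩ / (1 + |z|²)`. -/
def cheeger : RiemMetric V where
  g z X Y := ip X Y - om z X * om z Y / rho z
  add_left := cheeger_add_left
  smul_left := cheeger_smul_left
  symm := cheeger_symm
  pos := cheeger_pos
  smooth := cheeger_smooth

end Pool.Agent.Helper10.Dupin
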