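import Mathlib
import Pool.Agent.Helper10.Dupin.Defs
import Pool.Agent.Helper922.HB.MV

open MeasureTheory Set Filter Topology
open scoped ENNReal NNReal ContDiff

open Pool.Agent.Helper922.HB

noncomputable section

namespace Pool.Agent.Helper10.Dupin

/-- The Christoffel symbols of `cheeger`. -/
def Gam (z X Y : V) : V :=
  -((om z Y / rho z) • J X) - (om z X / rho z) • J Y - (om z X * om z Y / rho z ^ 2) • z

/-- The geodesic of `cheeger` with initial position `x` and initial velocity `v`. -/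
def geo (x v : V) (t : ℝ) : V :=
  Complex.exp (t * (om x v / rho x : ℝ) * Complex.I) • (x + (t : ℂ) • (v - ((om x v / rho x : ℝ) : ℂ) • J x))

/-- `H_n(X; ℤ)` is infinite cyclic. -/
def OneGen (X : Type) [TopologicalSpace X] (n : ℕ) : Prop :=
  ∃ c ∈ Cyc X n, (∀ z ∈ Cyc X n, ∃ k : ℤ, z - k • c ∈ Bdy X n) ∧ ∀ k : ℤ, k • c ∈ Bdy X n → k = 0

/-- the identity of `X` is homotopic to a constant map -/
def Contr (X : Type) [TopologicalSpace X] : Prop :=
  ∃ (x₀ : X) (H : C(X × unitInterval, X)), (∀ x, H (x, 0) = x) ∧ ∀ x, H (x, 1) = x₀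

/-- The unit circle. -/
abbrev S1 : Type := {z : ℂ // ‖z‖ = 1}

end Pool.Agent.Helper10.Dupin
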