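import Mathlib
import Pool.Agent.Helper10.Dupin.Base

open MeasureTheory Set Filter Topology
open scoped ENNReal NNReal ContDiff

open Pool.Agent.Helper922.HB

noncomputable section

namespace Pool.Agent.Helper10.Dupin

namespace J_HE_one



-- TARGET: prove this (put auxiliary lemmas between the ASSUMED END line and the theorem)

theorem HE_one {X Y : Type} [TopologicalSpace X] [TopologicalSpace Y] {f : C(X, Y)} (hf : HE f)
    (n : ℕ) : (OneGen Y n → OneGen X n) ∧ (Cyc Y n ≤ Bdy Y n → Cyc X n ≤ Bdy X n) := by
  obtain ⟨h1, h2⟩ := hf n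
  constructor
  · rintro ⟨c, hc, hgen, hinj⟩
    obtain ⟨c', hc', hcc⟩ := h2 c hc
    refine ⟨c', hc', ?_, ?_⟩
    · intro z hz
      obtain ⟨k, hk⟩ := hgen (push f n z) (push_mem_Cyc f n z hz)
      refine ⟨k, ?_⟩
      apply h1 _ ((Cyc X n).sub_mem hz ((Cyc X n).smul_mem k hc'))
      have e : push f n (z - k • c') = (push f n z - k • c) + k • (c - push f n c') := by
        rw [map_sub, map_zsmul, smul_sub]
        abel
      rw [e]
      exact (Bdy Y n).add_mem hk ((Bdy Y n).smul_mem k hcc)
    · intro k hk
      apply hinj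
      have h3 := push_mem_Bdy f n _ hk
      have e : k • c = push f n (k • c') + k • (c - push f n c') := by
        rw [map_zsmul, smul_sub]
        abel
      rw [e]
      exact (Bdy Y n).add_mem h3 ((Bdy Y n).smul_mem k hcc)
  · intro h z hz
    exact h1 z hz (h (push_mem_Cyc f n z hz))


end J_HE_one

alias HE_one := J_HE_one.HE_one

end Pool.Agent.Helper10.Dupin
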