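import Mathlib
import Pool.Agent.Helper10.Dupin.Base

open MeasureTheory Set Filter Topology
open scoped ENNReal NNReal ContDiff

open Pool.Agent.Helper922.HB

noncomputable section

namespace Pool.Agent.Helper10.Dupin

namespace J_betti_of_int


-- TARGET: prove this (put auxiliary lemmas between the ASSUMED END line and the theorem)

/-- rationalisation of chains -/
def biR (X : Type) [TopologicalSpace X] (n : ℕ) : (Sing X n →₀ ℤ) →+ (Simplex X n →₀ ℚ) :=
  Finsupp.mapRange.addMonoidHom (Int.castAddHom ℚ)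

theorem biR_single {X : Type} [TopologicalSpace X] (n : ℕ) (σ : Sing X n) (c : ℤ) :
    biR X n (Finsupp.single σ c) = Finsupp.single σ (c : ℚ) := by
  unfold biR
  rw [Finsupp.mapRange.addMonoidHom_apply, Finsupp.mapRange_single]
  rfl

theorem biR_apply {X : Type} [TopologicalSpace X] (n : ℕ) (z : Sing X n →₀ ℤ) (σ : Sing X n) :
    biR X n z σ = (z σ : ℚ) := by
  unfold biR
  rw [Finsupp.mapRange.addMonoidHom_apply, Finsupp.mapRange_apply]
  rfl

theorem biR_inj {X : Type} [TopologicalSpace X] (n : ℕ) (z : Sing X n →₀ ℤ) (h : biR X n z = 0) :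
    z = 0 := by
  ext σ
  have := DFunLike.congr_fun h σ
  rw [biR_apply] at this
  simpa using this

theorem biR_smul {X : Type} [TopologicalSpace X] (n : ℕ) (m : ℤ) (z : Sing X n →₀ ℤ) :
    biR X n (m • z) = (m : ℚ) • biR X n z := by
  rw [map_zsmul, Int.cast_smul_eq_zsmul]

theorem biR_bdry {X : Type} [TopologicalSpace X] (n : ℕ) (z : Sing X (n + 1) →₀ ℤ) :
    boundary ℚ X n (biR X (n + 1) z) = biR X n (bdry X n z) := by
  induction z using Finsupp.induction_linear with
  | zero => simp
  | add f g hf hg => rw [map_add, map_add, map_add, map_add, hf, hg]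
  | single σ c =>
    rw [biR_single]
    unfold boundary bdry
    rw [LinearMap.sum_apply, LinearMap.sum_apply, map_sum]
    apply Finset.sum_congr rfl
    intro i _
    rw [LinearMap.smul_apply, LinearMap.smul_apply, biR_smul, Finsupp.lmapDomain_apply,
      Finsupp.lmapDomain_apply, Finsupp.mapDomain_single, Finsupp.mapDomain_single, biR_single]
    push_cast
    rfl

theorem biR_den {X : Type} [TopologicalSpace X] (n : ℕ) (w : Simplex X n →₀ ℚ) :
    ∃ m : ℤ, m ≠ 0 ∧ ∃ w' : Sing X n →₀ ℤ, (m : ℚ) • w = biR X n w' := by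
  induction w using Finsupp.induction_linear with
  | zero => exact ⟨1, one_ne_zero, 0, by simp⟩
  | add f g hf hg =>
    obtain ⟨m1, h1, w1, e1⟩ := hf
    obtain ⟨m2, h2, w2, e2⟩ := hg
    refine ⟨m1 * m2, mul_ne_zero h1 h2, m2 • w1 + m1 • w2, ?_⟩
    rw [map_add, biR_smul, biR_smul, ← e1, ← e2, smul_smul, smul_smul, smul_add]
    push_cast
    rw [mul_comm (m2 : ℚ) m1]
  | single σ c =>
    refine ⟨c.den, by exact_mod_cast c.den_ne_zero, Finsupp.single σ c.num, ?_⟩
    rw [biR_single, Finsupp.smul_single, smul_eq_mul]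
    congr 1
    have := Rat.mul_den_eq_num c
    push_cast
    linarith

theorem biR_cyc {X : Type} [TopologicalSpace X] (n : ℕ) (w : Simplex X n →₀ ℚ) (m : ℤ)
    (w' : Sing X n →₀ ℤ) (h : (m : ℚ) • w = biR X n w') (hw : w ∈ cycles ℚ X n) : w' ∈ Cyc X n := by
  cases n with
  | zero => exact Submodule.mem_top
  | succ n =>
    have h1 : boundary ℚ X n w = 0 := hw
    show bdry X n w' = 0
    apply biR_inj
    rw [← biR_bdry, ← h, map_smul, h1, smul_zero]

theorem biR_cyc' {X : Type} [TopologicalSpace X] (n : ℕ) (c : Sing X n →₀ ℤ) (hc : c ∈ Cyc X n) :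
    biR X n c ∈ cycles ℚ X n := by
  cases n with
  | zero => exact Submodule.mem_top
  | succ n =>
    have h1 : bdry X n c = 0 := hc
    show boundary ℚ X n (biR X (n + 1) c) = 0
    rw [biR_bdry, h1, map_zero]

theorem betti_of_int {X : Type} [TopologicalSpace X] (n : ℕ) :
    (Cyc X n ≤ Bdy X n → betti ℚ X n = 0) ∧ (OneGen X n → betti ℚ X n = 1) := by
  constructor
  · intro h
    have hle : cycles ℚ X n ≤ boundaries ℚ X n := by
      intro w hw
      obtain ⟨m, hm, w', e⟩ := biR_den n w
      obtain ⟨e', he'⟩ := h (biR_cyc n w m w' e hw)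
      have hm' : (m : ℚ) ≠ 0 := by exact_mod_cast hm
      refine ⟨(m : ℚ)⁻¹ • biR X (n + 1) e', ?_⟩
      rw [map_smul, biR_bdry, he', ← e, smul_smul, inv_mul_cancel₀ hm', one_smul]
    have hbot : homology ℚ X n = ⊥ := by
      unfold homology
      rw [← LinearMap.le_ker_iff_map, Submodule.ker_mkQ]
      exact hle
    unfold betti
    rw [hbot, rank_bot]
    exact map_zero _
  · rintro ⟨c, hc, h1, h2⟩
    have hne : (boundaries ℚ X n).mkQ (biR X n c) ≠ 0 := by
      intro h0
      rw [Submodule.mkQ_apply, Submodule.Quotient.mk_eq_zero] at h0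
      obtain ⟨w, hw⟩ := h0
      obtain ⟨m, hm, w', e⟩ := biR_den (n + 1) w
      apply hm
      apply h2 m
      refine ⟨w', ?_⟩
      have h3 : biR X n (bdry X n w' - m • c) = 0 := by
        rw [map_sub, biR_smul, ← biR_bdry, ← e, map_smul, hw, sub_self]
      exact sub_eq_zero.1 (biR_inj n _ h3)
    have hspan : homology ℚ X n = Submodule.span ℚ {(boundaries ℚ X n).mkQ (biR X n c)} := by
      apply le_antisymm
      · unfold homology
        rw [Submodule.map_le_iff_le_comap]
        intro w hw
        obtain ⟨m, hm, w', e⟩ := biR_den n w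
        obtain ⟨k, hk⟩ := h1 w' (biR_cyc n w m w' e hw)
        obtain ⟨e', he'⟩ := hk
        have hm' : (m : ℚ) ≠ 0 := by exact_mod_cast hm
        rw [Submodule.mem_comap, Submodule.mem_span_singleton]
        refine ⟨(m : ℚ)⁻¹ * k, ?_⟩
        rw [← map_smul, ← sub_eq_zero, ← map_sub, Submodule.mkQ_apply, Submodule.Quotient.mk_eq_zero]
        refine ⟨-((m : ℚ)⁻¹ • biR X (n + 1) e'), ?_⟩
        rw [map_neg, map_smul, biR_bdry, he', map_sub, biR_smul, ← e, smul_sub, smul_smul, smul_smul,
          inv_mul_cancel₀ hm', one_smul]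
        abel
      · rw [Submodule.span_le, Set.singleton_subset_iff]
        exact Submodule.mem_map_of_mem (biR_cyc' n c hc)
    unfold betti
    rw [hspan]
    have h3 := finrank_span_singleton (K := ℚ) hne
    rw [← Module.finrank_eq_rank, h3]
    simp



end J_betti_of_int

alias betti_of_int := J_betti_of_int.betti_of_int

end Pool.Agent.Helper10.Dupin
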