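import Mathlib
import Pool.Agent.Helper10.Dupin.Base

open MeasureTheory Set Filter Topology
open scoped ENNReal NNReal ContDiff

noncomputable section

namespace Pool.Agent.Helper10.Dupin

namespace J_fderiv_g


theorem fderiv_g_om (z X Y : V) (t : ℝ) : om (z + t • X) Y = om z Y + t * ip Y (J X) := by
  simp only [om, ip, J, Prod.fst_add, Prod.snd_add, Prod.smul_fst, Prod.smul_snd, Complex.add_re,
    Complex.add_im, Complex.real_smul, Complex.mul_re, Complex.mul_im, Complex.ofReal_re,
    Complex.ofReal_im, Complex.I_re, Complex.I_im]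
  ring

theorem fderiv_g_rho (z X : V) (t : ℝ) :
    rho (z + t • X) = rho z + t * (2 * ip X z) + t ^ 2 * ip X X := by
  simp only [rho, ip, Prod.fst_add, Prod.snd_add, Prod.smul_fst, Prod.smul_snd, Complex.add_re,
    Complex.add_im, Complex.real_smul, Complex.mul_re, Complex.mul_im, Complex.ofReal_re,
    Complex.ofReal_im]
  ring

theorem fderiv_g_calc (K a b c A B C D : ℝ) (hc : c ≠ 0) :
    HasDerivAt (fun t : ℝ => K - (a + t * A) * (b + t * B) / (c + t * C + t ^ 2 * D))
      (-(A * b + a * B) / c + C * (a * b) / c ^ 2) 0 := by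
  have ha : HasDerivAt (fun t : ℝ => a + t * A) A 0 := by
    simpa using ((hasDerivAt_id (0 : ℝ)).mul_const A).const_add a
  have hb : HasDerivAt (fun t : ℝ => b + t * B) B 0 := by
    simpa using ((hasDerivAt_id (0 : ℝ)).mul_const B).const_add b
  have hcc : HasDerivAt (fun t : ℝ => c + t * C + t ^ 2 * D) C 0 := by
    have h1 : HasDerivAt (fun t : ℝ => c + t * C) C 0 := by
      simpa using ((hasDerivAt_id (0 : ℝ)).mul_const C).const_add c
    have h2 : HasDerivAt (fun t : ℝ => t ^ 2 * D) 0 0 := by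
      simpa using (hasDerivAt_pow 2 (0 : ℝ)).mul_const D
    exact (h1.add h2).congr_deriv (add_zero C)
  have h := ((ha.mul hb).div hcc (by simpa using hc)).const_sub K
  refine h.congr_deriv ?_
  simp only [Pi.mul_apply, zero_mul, add_zero, ne_eq, OfNat.ofNat_ne_zero, not_false_eq_true,
    zero_pow]
  field_simp
  ring

-- TARGET: prove this (put auxiliary lemmas between the ASSUMED END line and the theorem)

theorem fderiv_g (z X Y Z : V) : fderiv ℝ (fun w => cheeger.g w Y Z) z X =
    -(ip Y (J X) * om z Z + om z Y * ip Z (J X)) / rho z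
      + 2 * ip X z * (om z Y * om z Z) / rho z ^ 2 := by
  have hd : DifferentiableAt ℝ (fun w => cheeger.g w Y Z) z :=
    (cheeger.smooth Y Z).differentiable (by simp) z
  have h1 : HasDerivAt (fun t : ℝ => z + t • X) X 0 := by
    simpa using ((hasDerivAt_id (0:ℝ)).smul_const X).const_add z
  have h2 := hd.hasFDerivAt.comp_hasDerivAt_of_eq (0 : ℝ) h1 (by simp)
  have h3 := fderiv_g_calc (ip Y Z) (om z Y) (om z Z) (rho z) (ip Y (J X)) (ip Z (J X))
    (2 * ip X z) (ip X X) (rho_pos z).ne'
  have e : ((fun w => cheeger.g w Y Z) ∘ fun t : ℝ => z + t • X)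
      = fun t : ℝ => ip Y Z - (om z Y + t * ip Y (J X)) * (om z Z + t * ip Z (J X)) /
        (rho z + t * (2 * ip X z) + t ^ 2 * ip X X) := by
    ext t
    show ip Y Z - om (z + t • X) Y * om (z + t • X) Z / rho (z + t • X) = _
    rw [fderiv_g_om, fderiv_g_om, fderiv_g_rho]
  rw [e] at h2
  exact h2.unique h3


end J_fderiv_g

alias fderiv_g := J_fderiv_g.fderiv_g

end Pool.Agent.Helper10.Dupin
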