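import Mathlib
import Pool.Agent.Helper10.Dupin.Base
import Pool.Agent.Helper10.Dupin.J_fderiv_g

open MeasureTheory Set Filter Topology
open scoped ENNReal NNReal ContDiff

noncomputable section

namespace Pool.Agent.Helper10.Dupin

namespace J_chr_eq


-- TARGET: prove this (put auxiliary lemmas between the ASSUMED END line and the theorem)

theorem chr_lin (a b c : ℝ) (A B C Z : V) :
    ip (-(a • A) - b • B - c • C) Z = -(a * ip A Z) - b * ip B Z - c * ip C Z := by
  simp only [ip, Prod.fst_sub, Prod.snd_sub, Prod.fst_neg, Prod.snd_neg, Prod.smul_fst,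
    Prod.smul_snd, Complex.sub_re, Complex.sub_im, Complex.neg_re, Complex.neg_im,
    Complex.real_smul, Complex.mul_re,
    Complex.mul_im, Complex.ofReal_re, Complex.ofReal_im, zero_mul, sub_zero, add_zero]
  ring

theorem chr_JJ (A B : V) : ip (J A) (J B) = ip A B := by
  simp only [ip, J, Complex.mul_re, Complex.mul_im, Complex.I_re, Complex.I_im]
  ring

theorem chr_J (A B : V) : ip (J A) B = - ip A (J B) := by
  simp only [ip, J, Complex.mul_re, Complex.mul_im, Complex.I_re, Complex.I_im]
  ring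

theorem chr_self (A : V) : ip A (J A) = 0 := by
  simp only [ip, J, Complex.mul_re, Complex.mul_im, Complex.I_re, Complex.I_im]
  ring

theorem chr_symm (A B : V) : ip A B = ip B A := by
  simp only [ip]
  ring

theorem chr_spec (z X Y Z : V) : cheeger.g z (Gam z X Y) Z = christoffel₁ cheeger z X Y Z := by
  have hr := (rho_pos z).ne'
  unfold christoffel₁
  rw [fderiv_g, fderiv_g, fderiv_g]
  have e1 : cheeger.g z (Gam z X Y) Z =
      ip (Gam z X Y) Z - om z (Gam z X Y) * om z Z / rho z := rfl
  have e2 : ip (Gam z X Y) Z = -(om z Y / rho z * ip (J X) Z) - om z X / rho z * ip (J Y) Z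
      - om z X * om z Y / rho z ^ 2 * ip z Z := chr_lin _ _ _ _ _ _ _
  have e3 : om z (Gam z X Y) = -(om z Y / rho z * ip (J X) (J z)) -
      om z X / rho z * ip (J Y) (J z) - om z X * om z Y / rho z ^ 2 * ip z (J z) :=
    chr_lin _ _ _ _ _ _ _
  rw [e1, e2, e3, chr_JJ, chr_JJ, chr_self]
  have a1 : ip X (J Z) = - ip Z (J X) := by rw [chr_symm X (J Z), chr_J]
  have a2 : ip Y (J Z) = - ip Z (J Y) := by rw [chr_symm Y (J Z), chr_J]
  have a3 : ip X (J Y) = - ip Y (J X) := by rw [chr_symm X (J Y), chr_J]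
  have a4 : ip (J X) Z = ip Z (J X) := chr_symm _ _
  have a5 : ip (J Y) Z = ip Z (J Y) := chr_symm _ _
  have a6 : ip z Z = ip Z z := chr_symm _ _
  rw [a1, a2, a3, a4, a5, a6]
  field_simp
  ring

theorem chr_unique (z W W' : V) (h : ∀ Z, cheeger.g z W Z = cheeger.g z W' Z) : W = W' := by
  by_contra hne
  have h1 := cheeger.pos z (W - W') (sub_ne_zero.2 hne)
  have h2 := cheeger.add_left z (W - W') W' (W - W')
  rw [sub_add_cancel, h] at h2
  linarith

theorem chr_eq (z X Y : V) : christoffel cheeger z X Y = Gam z X Y := by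
  have h1 : ∃ W, ∀ Z, cheeger.g z W Z = christoffel₁ cheeger z X Y Z :=
    ⟨Gam z X Y, chr_spec z X Y⟩
  have h2 := Classical.epsilon_spec h1
  refine chr_unique z _ _ fun Z => ?_
  rw [chr_spec]
  exact h2 Z


end J_chr_eq

alias chr_eq := J_chr_eq.chr_eq

end Pool.Agent.Helper10.Dupin
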