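import Mathlib
import Pool.Agent.Helper10.Dupin.Base

open MeasureTheory Set Filter Topology
open scoped ENNReal NNReal ContDiff

open Pool.Agent.Helper922.HB

noncomputable section

namespace Pool.Agent.Helper10.Dupin

namespace J_contr_high


-- TARGET: prove this (put auxiliary lemmas between the ASSUMED END line and the theorem)

theorem altsum (m : ℕ) : (∑ i : Fin m, (-1 : ℤ) ^ (i : ℕ)) = if Even m then 0 else 1 := by
  rw [Fin.sum_univ_eq_sum_range (fun i => (-1 : ℤ) ^ i) m, neg_one_geom_sum]

theorem bdry_cs {X : Type} [TopologicalSpace X] (x₀ : X) (n : ℕ) (a : ℤ) :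
    bdry X n (Finsupp.single (ContinuousMap.const _ x₀ : Sing X (n + 1)) a) =
      Finsupp.single (ContinuousMap.const _ x₀ : Sing X n)
        ((∑ i : Fin (n + 2), (-1 : ℤ) ^ (i : ℕ)) * a) := by
  have hf : ∀ i : Fin (n + 2), sface n i (ContinuousMap.const _ x₀ : Sing X (n + 1)) =
      (ContinuousMap.const _ x₀ : Sing X n) := by
    intro i
    ext t
    rfl
  simp only [bdry, LinearMap.sum_apply, LinearMap.smul_apply, Finsupp.lmapDomain_apply,
    Finsupp.mapDomain_single, hf, Finsupp.smul_single, smul_eq_mul]
  rw [Finset.sum_mul, Finsupp.single_finsetSum]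

theorem contr_high {X : Type} [TopologicalSpace X] (hX : Contr X) (n : ℕ) :
    Cyc X (n + 1) ≤ Bdy X (n + 1) := by
  intro z hz
  obtain ⟨x₀, H, h0, h1⟩ := hX
  have hH := push_sub_mem_of_homotopy H (ContinuousMap.id X) (ContinuousMap.const X x₀)
    (fun x => by simpa using h0 x) (fun x => by simpa using h1 x) (n + 1) z hz
  rw [push_id] at hH
  have hc : ∀ σ : Sing X (n + 1), (ContinuousMap.const X x₀).comp σ =
      (ContinuousMap.const _ x₀ : Sing X (n + 1)) := by
    intro σ
    ext t
    rfl
  have hp : push (ContinuousMap.const X x₀) (n + 1) z =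
      Finsupp.single (ContinuousMap.const _ x₀ : Sing X (n + 1)) (z.sum fun _ c => c) := by
    simp only [push, Finsupp.lmapDomain_apply, Finsupp.mapDomain, hc]
    rw [Finsupp.sum, Finsupp.sum, Finsupp.single_finsetSum]
  have key : push (ContinuousMap.const X x₀) (n + 1) z ∈ Bdy X (n + 1) := by
    rcases Nat.even_or_odd n with he | ho
    · rw [hp]
      refine ⟨Finsupp.single (ContinuousMap.const _ x₀ : Sing X (n + 2))
        (z.sum fun _ c => c), ?_⟩
      rw [bdry_cs, altsum, if_neg, one_mul]
      rw [Nat.not_even_iff_odd]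
      obtain ⟨k, hk⟩ := he
      exact ⟨k + 1, by omega⟩
    · have hcyc := push_mem_Cyc (ContinuousMap.const X x₀) (n + 1) z hz
      rw [hp] at hcyc ⊢
      have h2 : bdry X n (Finsupp.single (ContinuousMap.const _ x₀ : Sing X (n + 1))
        (z.sum fun _ c => c)) = 0 := hcyc
      rw [bdry_cs, altsum, if_neg, one_mul, Finsupp.single_eq_zero] at h2
      · rw [h2, Finsupp.single_zero]
        exact Submodule.zero_mem _
      · rw [Nat.not_even_iff_odd]
        obtain ⟨k, hk⟩ := ho
        exact ⟨k + 1, by omega⟩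
  have : z = push (ContinuousMap.const X x₀) (n + 1) z -
      (push (ContinuousMap.const X x₀) (n + 1) z - z) := by abel
  rw [this]
  exact Submodule.sub_mem _ key hH


end J_contr_high

alias contr_high := J_contr_high.contr_high

end Pool.Agent.Helper10.Dupin
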