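import Mathlib
import Pool.Agent.Helper10.Dupin.Base
import Pool.Agent.Helper10.Dupin.J_contr_high

open MeasureTheory Set Filter Topology
open scoped ENNReal NNReal ContDiff

open Pool.Agent.Helper922.HB

noncomputable section

namespace Pool.Agent.Helper10.Dupin

namespace J_disj


-- TARGET: prove this (put auxiliary lemmas between the ASSUMED END line and the theorem)

theorem disj {X : Type} [TopologicalSpace X] (U V : Set X) (hU : IsOpen U) (hV : IsOpen V)
    (hUV : ∀ x, x ∈ U ∨ x ∈ V) (hd : U ∩ V = ∅) (cU : Contr U) (cV : Contr V) (n : ℕ) :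
    Cyc X (n + 1) ≤ Bdy X (n + 1) := by
  intro z hz
  obtain ⟨u, v, d, hdc, hs, hbu, hbv⟩ := mv_split U V hU hV hUV n z hz
  haveI hE : IsEmpty (Sing ↥(U ∩ V) n) := by
    refine ⟨fun σ => ?_⟩
    have h1 : Nonempty (stdSimplex ℝ (Fin (n + 1))) := inferInstance
    obtain ⟨p⟩ := h1
    have h2 := (σ p).2
    exact Set.eq_empty_iff_forall_notMem.mp hd _ h2
  have hd0 : d = 0 := Subsingleton.elim _ _
  have hu0 : bdry U n u = 0 := by rw [hbu, hd0, map_zero]
  have hv0 : bdry V n v = 0 := by rw [hbv, hd0, map_zero, neg_zero]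
  have hu1 : u ∈ Bdy U (n + 1) := contr_high cU n (LinearMap.mem_ker.mpr hu0)
  have hv1 : v ∈ Bdy V (n + 1) := contr_high cV n (LinearMap.mem_ker.mpr hv0)
  have h3 := push_mem_Bdy (sub U) (n + 1) u hu1
  have h4 := push_mem_Bdy (sub V) (n + 1) v hv1
  have h5 := (Bdy X (n + 1)).add_mem hs ((Bdy X (n + 1)).add_mem h3 h4)
  simpa using h5


end J_disj

alias disj := J_disj.disj

end Pool.Agent.Helper10.Dupin
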