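import Mathlib
import Pool.Agent.Helper10.Dupin.Base
import Pool.Agent.Helper10.Dupin.J_contr_high

open MeasureTheory Set Filter Topology
open scoped ENNReal NNReal ContDiff

open Pool.Agent.Helper922.HB

noncomputable section

namespace Pool.Agent.Helper10.Dupin

namespace J_gen_high


-- TARGET: prove this (put auxiliary lemmas between the ASSUMED END line and the theorem)

theorem gen_high {X : Type} [TopologicalSpace X] (U V : Set X) (hU : IsOpen U) (hV : IsOpen V)
    (hUV : ∀ x, x ∈ U ∨ x ∈ V) (cU : Contr U) (cV : Contr V) (n : ℕ)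
    (h : Cyc ↥(U ∩ V) (n + 1) ≤ Bdy ↥(U ∩ V) (n + 1)) : Cyc X (n + 2) ≤ Bdy X (n + 2) := by
  intro z hz
  obtain ⟨u, v, d, hd, hsplit, hu, hv⟩ := mv_split U V hU hV hUV (n + 1) z hz
  obtain ⟨e, he⟩ := h hd
  have h1 : u - push (inl U V) (n + 2) e ∈ Bdy U (n + 2) := by
    apply contr_high cU (n + 1)
    show bdry U (n + 1) _ = 0
    rw [map_sub, bdry_push, he, hu, sub_self]
  have h2 : v + push (inr U V) (n + 2) e ∈ Bdy V (n + 2) := by
    apply contr_high cV (n + 1)
    show bdry V (n + 1) _ = 0
    rw [map_add, bdry_push, he, hv, neg_add_cancel]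
  have h3 := push_mem_Bdy (sub U) (n + 2) _ h1
  have h4 := push_mem_Bdy (sub V) (n + 2) _ h2
  have h5 : push (sub U) (n + 2) (push (inl U V) (n + 2) e) =
      push (sub V) (n + 2) (push (inr U V) (n + 2) e) := by
    rw [push_push, push_push]
    rfl
  have h6 : z = (z - (push (sub U) (n + 2) u + push (sub V) (n + 2) v)) +
      (push (sub U) (n + 2) (u - push (inl U V) (n + 2) e) +
        push (sub V) (n + 2) (v + push (inr U V) (n + 2) e)) := by
    rw [map_sub, map_add, h5]
    abel
  rw [h6]
  exact Submodule.add_mem _ hsplit (Submodule.add_mem _ h3 h4)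


end J_gen_high

alias gen_high := J_gen_high.gen_high

end Pool.Agent.Helper10.Dupin
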