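import Mathlib
import Pool.Agent.Helper10.Dupin.Base

open MeasureTheory Set Filter Topology
open scoped ENNReal NNReal ContDiff

open Pool.Agent.Helper922.HB

noncomputable section

namespace Pool.Agent.Helper10.Dupin

namespace J_aug


-- TARGET: prove this (put auxiliary lemmas between the ASSUMED END line and the theorem)

theorem aug_end {X : Type} [TopologicalSpace X] (U : Set X) (hU : IsClopen U) (σ : Sing X 1)
    (p q : stdSimplex ℝ (Fin 2)) : U.indicator (fun _ => (1 : ℤ)) (σ p)
      = U.indicator (fun _ => (1 : ℤ)) (σ q) := by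
  have hpc : PreconnectedSpace (stdSimplex ℝ (Fin 2)) :=
    Subtype.preconnectedSpace (convex_stdSimplex ℝ (Fin 2)).isPreconnected
  have hr : IsPreconnected (Set.range σ) := isPreconnected_range σ.continuous
  by_cases hp : σ p ∈ U
  · have h1 := hr.subset_isClopen hU ⟨σ p, Set.mem_range_self p, hp⟩
    rw [Set.indicator_of_mem hp, Set.indicator_of_mem (h1 (Set.mem_range_self q))]
  · have hq : σ q ∉ U := by
      intro hq
      exact hp (hr.subset_isClopen hU ⟨σ q, Set.mem_range_self q, hq⟩ (Set.mem_range_self p))
    rw [Set.indicator_of_notMem hp, Set.indicator_of_notMem hq]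

theorem aug {X : Type} [TopologicalSpace X] (U : Set X) (hU : IsClopen U) (z : Sing X 0 →₀ ℤ)
    (hz : z ∈ Bdy X 0) :
    (z.sum fun σ a => a * U.indicator (fun _ => (1 : ℤ)) (σ (stdSimplex.vertex 0))) = 0 := by
  obtain ⟨w, rfl⟩ := hz
  set f : Sing X 0 → ℤ := fun σ => U.indicator (fun _ => (1 : ℤ)) (σ (stdSimplex.vertex 0)) with hf
  have e : ∀ z : Sing X 0 →₀ ℤ, (z.sum fun σ a => a * f σ) = Finsupp.linearCombination ℤ f z := by
    intro z
    rw [Finsupp.linearCombination_apply]
    rfl
  show ((bdry X 0 w).sum fun σ a => a * f σ) = 0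
  rw [e]
  induction w using Finsupp.induction_linear with
  | zero => rw [map_zero, map_zero]
  | add x y hx hy => rw [map_add, map_add, hx, hy, add_zero]
  | single σ a =>
    unfold bdry
    rw [LinearMap.sum_apply, map_sum, Fin.sum_univ_two]
    simp only [LinearMap.smul_apply, Finsupp.lmapDomain_apply, Finsupp.mapDomain_single, map_smul,
      Finsupp.linearCombination_single, smul_eq_mul]
    have h : f (sface 0 0 σ) = f (sface 0 1 σ) := aug_end U hU σ _ _
    rw [h]
    simp


end J_aug

alias aug := J_aug.aug

end Pool.Agent.Helper10.Dupin
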