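import Mathlib
import Pool.Agent.Helper10.Dupin.Base
import Pool.Agent.Helper10.Dupin.J_aug

open MeasureTheory Set Filter Topology
open scoped ENNReal NNReal ContDiff

open Pool.Agent.Helper922.HB

noncomputable section

namespace Pool.Agent.Helper10.Dupin

namespace J_pc_zero


-- TARGET: prove this (put auxiliary lemmas between the ASSUMED END line and the theorem)

theorem pcz_sub (s t : stdSimplex ℝ (Fin 1)) : s = t := by
  apply Subtype.ext
  funext i
  have h1 := s.2.2
  have h2 := t.2.2
  rw [Fin.sum_univ_one] at h1 h2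
  rw [Fin.fin_one_eq_zero i, h1, h2]

theorem pcz_const {X : Type} [TopologicalSpace X] (σ : Sing X 0) (s : stdSimplex ℝ (Fin 1)) :
    σ = ContinuousMap.const _ (σ s) := by
  ext t
  rw [ContinuousMap.const_apply, pcz_sub t s]

theorem pcz_path {X : Type} [TopologicalSpace X] {x y : X} (γ : Path x y) :
    Finsupp.single (ContinuousMap.const _ y : Sing X 0) (1:ℤ) -
      Finsupp.single (ContinuousMap.const _ x : Sing X 0) 1 ∈ Bdy X 0 := by
  let co : C(stdSimplex ℝ (Fin 2), unitInterval) :=
    ⟨fun t => ⟨t.1 1, t.2.1 1, by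
      have h1 := t.2.2
      rw [Fin.sum_univ_two] at h1
      have h0 := t.2.1 0
      linarith⟩, by
      apply Continuous.subtype_mk
      exact (continuous_apply 1).comp continuous_subtype_val⟩
  let τ : Sing X 1 := γ.toContinuousMap.comp co
  refine ⟨Finsupp.single τ 1, ?_⟩
  have h0 : sface 0 0 τ = (ContinuousMap.const _ y : Sing X 0) := by
    ext t
    show γ (co (stdSimplex.map (Fin.succAbove 0) t)) = y
    have : co (stdSimplex.map (Fin.succAbove 0) t) = 1 := by
      apply Subtype.ext
      show (stdSimplex.map (Fin.succAbove (0 : Fin 2)) t).1 1 = 1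
      have ht : t = stdSimplex.vertex 0 := pcz_sub _ _
      rw [ht, stdSimplex.map_vertex]
      have : (Fin.succAbove (0 : Fin 2) 0) = 1 := rfl
      rw [this]
      show (stdSimplex.vertex (S := ℝ) (1 : Fin 2)) 1 = 1
      simp
    rw [this, γ.target]
  have h1 : sface 0 1 τ = (ContinuousMap.const _ x : Sing X 0) := by
    ext t
    show γ (co (stdSimplex.map (Fin.succAbove 1) t)) = x
    have : co (stdSimplex.map (Fin.succAbove 1) t) = 0 := by
      apply Subtype.ext
      show (stdSimplex.map (Fin.succAbove (1 : Fin 2)) t).1 1 = 0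
      have ht : t = stdSimplex.vertex 0 := pcz_sub _ _
      rw [ht, stdSimplex.map_vertex]
      have : (Fin.succAbove (1 : Fin 2) 0) = 0 := rfl
      rw [this]
      show (stdSimplex.vertex (S := ℝ) (0 : Fin 2)) 1 = 0
      simp
    rw [this, γ.source]
  have hb : bdry X 0 (Finsupp.single τ 1) = Finsupp.single (sface 0 0 τ) 1 - Finsupp.single (sface 0 1 τ) 1 := by
    unfold bdry
    rw [LinearMap.sum_apply, Fin.sum_univ_two]
    simp only [LinearMap.smul_apply, Finsupp.lmapDomain_apply, Finsupp.mapDomain_single]
    simp [sub_eq_add_neg]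
  rw [hb, h0, h1]

theorem pc_zero {X : Type} [TopologicalSpace X] [PathConnectedSpace X] : OneGen X 0 := by
  let x₀ : X := Classical.arbitrary X
  refine ⟨Finsupp.single (ContinuousMap.const _ x₀) 1, Submodule.mem_top, ?_, ?_⟩
  · intro z _
    induction z using Finsupp.induction_linear with
    | zero => exact ⟨0, by simp⟩
    | add f g hf hg =>
      obtain ⟨k, hk⟩ := hf Submodule.mem_top
      obtain ⟨l, hl⟩ := hg Submodule.mem_top
      refine ⟨k + l, ?_⟩
      have := Submodule.add_mem _ hk hl
      rw [add_smul]
      convert this using 1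
      abel
    | single σ a =>
      refine ⟨a, ?_⟩
      have h := Submodule.smul_mem _ a (pcz_path (PathConnectedSpace.somePath x₀ (σ (stdSimplex.vertex 0))))
      rw [smul_sub, ← pcz_const] at h
      convert h using 2
      simp
  · intro k hk
    have := aug (Set.univ) isClopen_univ _ hk
    rw [Finsupp.smul_single, Finsupp.sum_single_index] at this
    · simpa using this
    · simp


end J_pc_zero

alias pc_zero := J_pc_zero.pc_zero

end Pool.Agent.Helper10.Dupin
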