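import Mathlib
import Pool.Agent.Helper10.Dupin.Base
import Pool.Agent.Helper10.Dupin.J_aug
import Pool.Agent.Helper10.Dupin.J_contr_high
import Pool.Agent.Helper10.Dupin.J_pc_zero

open MeasureTheory Set Filter Topology
open scoped ENNReal NNReal ContDiff

open Pool.Agent.Helper922.HB

noncomputable section

namespace Pool.Agent.Helper10.Dupin

namespace J_gen_one


-- TARGET: prove this (put auxiliary lemmas between the ASSUMED END line and the theorem)

/-- point chain -/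
def g1pt {Y : Type} [TopologicalSpace Y] (y : Y) : Sing Y 0 →₀ ℤ :=
  Finsupp.single (ContinuousMap.const _ y) 1

theorem g1_push_pt {Y Z : Type} [TopologicalSpace Y] [TopologicalSpace Z] (f : C(Y, Z)) (y : Y) :
    push f 0 (g1pt y) = g1pt (f y) := by
  unfold g1pt
  rw [push_single]
  rfl

theorem g1_joined {Y : Type} [TopologicalSpace Y] (γ : C(unitInterval, Y)) :
    g1pt (γ 1) - g1pt (γ 0) ∈ Bdy Y 0 := by
  have h := push_sub_mem_of_homotopy (X := PUnit.{1}) (Y := Y)
    (γ.comp ⟨Prod.snd, continuous_snd⟩) (ContinuousMap.const _ (γ 0))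
    (ContinuousMap.const _ (γ 1)) (fun _ => rfl) (fun _ => rfl) 0 (g1pt PUnit.unit)
    Submodule.mem_top
  rw [g1_push_pt, g1_push_pt] at h
  exact h

theorem g1_decomp {Y : Type} [TopologicalSpace Y] (P Q : Y)
    (hPQ : ∀ w : Y, (∃ γ : C(unitInterval, Y), γ 0 = P ∧ γ 1 = w) ∨
      ∃ γ : C(unitInterval, Y), γ 0 = Q ∧ γ 1 = w) (d : Sing Y 0 →₀ ℤ) :
    ∃ a b : ℤ, d - (a • g1pt P + b • g1pt Q) ∈ Bdy Y 0 := by
  induction d using Finsupp.induction_linear with
  | zero => exact ⟨0, 0, by simp⟩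
  | add f g hf hg =>
    obtain ⟨a, b, h1⟩ := hf
    obtain ⟨a', b', h2⟩ := hg
    refine ⟨a + a', b + b', ?_⟩
    have h3 : f + g - ((a + a') • g1pt P + (b + b') • g1pt Q) =
        (f - (a • g1pt P + b • g1pt Q)) + (g - (a' • g1pt P + b' • g1pt Q)) := by
      rw [add_smul, add_smul]
      abel
    rw [h3]
    exact Submodule.add_mem _ h1 h2
  | single σ n =>
    have hσ : σ = ContinuousMap.const _ (σ (stdSimplex.vertex 0)) := by
      ext t
      rw [Subsingleton.elim t (stdSimplex.vertex 0)]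
      rfl
    have h1 : Finsupp.single σ n = n • g1pt (σ (stdSimplex.vertex 0)) := by
      unfold g1pt
      rw [← hσ, Finsupp.smul_single, smul_eq_mul, mul_one]
    rw [h1]
    rcases hPQ (σ (stdSimplex.vertex 0)) with ⟨γ, hγ0, hγ1⟩ | ⟨γ, hγ0, hγ1⟩
    · refine ⟨n, 0, ?_⟩
      rw [zero_smul, add_zero, ← smul_sub, ← hγ1, ← hγ0]
      exact Submodule.smul_mem _ _ (g1_joined γ)
    · refine ⟨0, n, ?_⟩
      have h2 : n • g1pt (σ (stdSimplex.vertex 0)) - ((0 : ℤ) • g1pt P + n • g1pt Q) =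
          n • (g1pt (γ 1) - g1pt (γ 0)) := by
        rw [hγ0, hγ1, zero_smul, smul_sub]
        abel
      rw [h2]
      exact Submodule.smul_mem _ _ (g1_joined γ)

/-- augmentation on a clopen set -/
def g1aug {Y : Type} [TopologicalSpace Y] (U : Set Y) : (Sing Y 0 →₀ ℤ) →ₗ[ℤ] ℤ :=
  Finsupp.linearCombination ℤ (fun σ : Sing Y 0 =>
    U.indicator (fun _ => (1 : ℤ)) (σ (stdSimplex.vertex 0)))

theorem g1aug_bdy {Y : Type} [TopologicalSpace Y] (U : Set Y) (hU : IsClopen U)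
    {z : Sing Y 0 →₀ ℤ} (hz : z ∈ Bdy Y 0) : g1aug U z = 0 := by
  have h := aug U hU z hz
  unfold g1aug
  rw [Finsupp.linearCombination_apply]
  simpa only [smul_eq_mul] using h

theorem g1aug_pt {Y : Type} [TopologicalSpace Y] (U : Set Y) (y : Y) :
    g1aug U (g1pt y) = U.indicator (fun _ => (1 : ℤ)) y := by
  unfold g1aug g1pt
  rw [Finsupp.linearCombination_single, one_smul]
  rfl

theorem g1_contr {Y : Type} [TopologicalSpace Y] (h : Contr Y) (y y' : Y) :
    g1pt y - g1pt y' ∈ Bdy Y 0 := by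
  obtain ⟨x₀, H, h0, h1⟩ := h
  have key : ∀ y : Y, g1pt x₀ - g1pt y ∈ Bdy Y 0 := by
    intro y
    have h2 := g1_joined (H.comp ⟨fun t => (y, t), by fun_prop⟩)
    change g1pt (H (y, 1)) - g1pt (H (y, 0)) ∈ Bdy Y 0 at h2
    rwa [h0, h1] at h2
  have h3 : g1pt y - g1pt y' = (g1pt x₀ - g1pt y') - (g1pt x₀ - g1pt y) := by abel
  rw [h3]
  exact Submodule.sub_mem _ (key y') (key y)

theorem g1_path {X : Type} [TopologicalSpace X] {A W : Set X} (hAW : A ⊆ W)
    (pA : IsPathConnected A) (P w : W) (hP : (P : X) ∈ A) (hw : (w : X) ∈ A) :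
    ∃ γ : C(unitInterval, W), γ 0 = P ∧ γ 1 = w := by
  have hj := pA.joinedIn _ hP _ hw
  refine ⟨⟨fun t => ⟨hj.somePath t, hAW (hj.somePath_mem t)⟩, by fun_prop⟩, ?_, ?_⟩
  · exact Subtype.ext (by simp)
  · exact Subtype.ext (by simp)

theorem gen_one {X : Type} [TopologicalSpace X] (U V A B : Set X) (hU : IsOpen U) (hV : IsOpen V)
    (hUV : ∀ x, x ∈ U ∨ x ∈ V) (cU : Contr U) (cV : Contr V) (hA : IsOpen A) (hB : IsOpen B)
    (hAB : U ∩ V = A ∪ B) (hd : A ∩ B = ∅) (pA : IsPathConnected A) (pB : IsPathConnected B) :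
    OneGen X 1 := by
  obtain ⟨p, hp⟩ := pA.nonempty
  obtain ⟨q, hq⟩ := pB.nonempty
  have hAW : A ⊆ U ∩ V := by rw [hAB]; exact Set.subset_union_left
  have hBW : B ⊆ U ∩ V := by rw [hAB]; exact Set.subset_union_right
  obtain ⟨P, hP⟩ : ∃ P : ↥(U ∩ V), (P : X) = p := ⟨⟨p, hAW hp⟩, rfl⟩
  obtain ⟨Q, hQ⟩ : ∃ Q : ↥(U ∩ V), (Q : X) = q := ⟨⟨q, hBW hq⟩, rfl⟩
  have hPA : (P : X) ∈ A := by rw [hP]; exact hp
  have hQB : (Q : X) ∈ B := by rw [hQ]; exact hq
  have hdis : ∀ x, x ∈ A → x ∈ B → False := by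
    intro x h1 h2
    have h3 : x ∈ A ∩ B := ⟨h1, h2⟩
    rw [hd] at h3
    exact h3
  have hPQ : ∀ w : ↥(U ∩ V), (∃ γ : C(unitInterval, ↥(U ∩ V)), γ 0 = P ∧ γ 1 = w) ∨
      ∃ γ : C(unitInterval, ↥(U ∩ V)), γ 0 = Q ∧ γ 1 = w := by
    intro w
    have hw : (w : X) ∈ A ∪ B := by rw [← hAB]; exact w.2
    rcases hw with hw | hw
    · exact Or.inl (g1_path hAW pA P w hPA hw)
    · exact Or.inr (g1_path hBW pB Q w hQB hw)
  obtain ⟨d0, hd0⟩ : ∃ d0 : Sing ↥(U ∩ V) 0 →₀ ℤ, d0 = g1pt P - g1pt Q := ⟨_, rfl⟩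
  have hu0' : push (inl U V) 0 d0 ∈ Bdy U 0 := by
    rw [hd0, map_sub, g1_push_pt, g1_push_pt]
    exact g1_contr cU _ _
  have hv0' : - push (inr U V) 0 d0 ∈ Bdy V 0 := by
    rw [hd0, map_sub, g1_push_pt, g1_push_pt]
    exact Submodule.neg_mem _ (g1_contr cV _ _)
  obtain ⟨u0, hu0⟩ := hu0'
  obtain ⟨v0, hv0⟩ := hv0'
  have hcomp : ∀ (n : ℕ) (z : Sing ↥(U ∩ V) n →₀ ℤ),
      push (sub U) n (push (inl U V) n z) = push (sub V) n (push (inr U V) n z) := by
    intro n z
    rw [push_push, push_push]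
    rfl
  refine ⟨push (sub U) 1 u0 + push (sub V) 1 v0, ?_, ?_, ?_⟩
  · change bdry X 0 _ = 0
    rw [map_add, bdry_push, bdry_push, hu0, hv0, map_neg, hcomp, add_neg_cancel]
  · intro z hz
    obtain ⟨u, v, d, -, h1, h2, h3⟩ := mv_split U V hU hV hUV 0 z hz
    obtain ⟨a, b, hab⟩ := g1_decomp P Q hPQ d
    have hb : b = -a := by
      have h4 : push (inl U V) 0 (a • g1pt P + b • g1pt Q) ∈ Bdy U 0 := by
        have h5 := push_mem_Bdy (inl U V) 0 _ hab
        have h6 : push (inl U V) 0 d ∈ Bdy U 0 := ⟨u, h2⟩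
        have h7 : push (inl U V) 0 (a • g1pt P + b • g1pt Q) = push (inl U V) 0 d -
            push (inl U V) 0 (d - (a • g1pt P + b • g1pt Q)) := by
          rw [map_sub, sub_sub_cancel]
        rw [h7]
        exact Submodule.sub_mem _ h6 h5
      have h8 := g1aug_bdy Set.univ isClopen_univ h4
      rw [map_add, map_smul, map_smul, g1_push_pt, g1_push_pt, map_add, map_smul, map_smul,
        g1aug_pt, g1aug_pt, Set.indicator_univ, smul_eq_mul, smul_eq_mul,
        mul_one, mul_one] at h8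
      omega
    rw [hb, neg_smul, ← sub_eq_add_neg, ← smul_sub, ← hd0] at hab
    obtain ⟨e, he⟩ := hab
    refine ⟨a, ?_⟩
    have hu' : u - a • u0 - push (inl U V) 1 e ∈ Bdy U 1 := by
      apply contr_high cU 0
      change bdry U 0 _ = 0
      rw [map_sub, map_sub, map_smul, bdry_push, h2, hu0, he, map_sub, map_smul]
      abel
    have hv' : v - a • v0 + push (inr U V) 1 e ∈ Bdy V 1 := by
      apply contr_high cV 0
      change bdry V 0 _ = 0
      rw [map_add, map_sub, map_smul, bdry_push, h3, hv0, he, map_sub, map_smul, smul_neg]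
      abel
    have k1 := push_mem_Bdy (sub U) 1 _ hu'
    have k2 := push_mem_Bdy (sub V) 1 _ hv'
    have k3 : z - a • (push (sub U) 1 u0 + push (sub V) 1 v0) =
        (z - (push (sub U) 1 u + push (sub V) 1 v)) +
        push (sub U) 1 (u - a • u0 - push (inl U V) 1 e) +
        push (sub V) 1 (v - a • v0 + push (inr U V) 1 e) := by
      rw [map_sub, map_sub, map_add, map_sub, map_smul, map_smul, hcomp, smul_add]
      abel
    rw [k3]
    exact Submodule.add_mem _ (Submodule.add_mem _ h1 k1) k2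
  · intro k hk
    have h1 : bdry U 0 (k • u0) = push (inl U V) 0 (k • d0) := by rw [map_smul, map_smul, hu0]
    have h2 : bdry V 0 (k • v0) = - push (inr U V) 0 (k • d0) := by
      rw [map_smul, map_smul, hv0, smul_neg]
    have h3 := mv_conn U V hU hV hUV 0 (k • u0) (k • v0) (k • d0) h1 h2 (by
      rw [map_smul, map_smul, ← smul_add]
      exact hk)
    have hclop : IsClopen {w : ↥(U ∩ V) | (w : X) ∈ A} := by
      refine ⟨?_, hA.preimage continuous_subtype_val⟩
      rw [← isOpen_compl_iff]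
      have h4 : {w : ↥(U ∩ V) | (w : X) ∈ A}ᶜ = {w : ↥(U ∩ V) | (w : X) ∈ B} := by
        ext w
        have hw : (w : X) ∈ A ∪ B := by rw [← hAB]; exact w.2
        constructor
        · intro h5
          rcases hw with h6 | h6
          · exact absurd h6 h5
          · exact h6
        · intro h5 h6
          exact hdis _ h6 h5
      rw [h4]
      exact hB.preimage continuous_subtype_val
    have h5 := g1aug_bdy _ hclop h3
    rw [hd0, map_smul, map_sub, g1aug_pt, g1aug_pt, Set.indicator_of_mem (by exact hPA),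
      Set.indicator_of_notMem (by intro h6; exact hdis _ h6 hQB)] at h5
    simpa using h5


end J_gen_one

alias gen_one := J_gen_one.gen_one

end Pool.Agent.Helper10.Dupin
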