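import Mathlib
import Pool.Agent.Helper10.Dupin.Base
import Pool.Agent.Helper10.Dupin.J_contr_high
import Pool.Agent.Helper10.Dupin.J_pc_zero
import Pool.Agent.Helper10.Dupin.J_disj
import Pool.Agent.Helper10.Dupin.J_gen_high
import Pool.Agent.Helper10.Dupin.J_gen_one

open MeasureTheory Set Filter Topology
open scoped ENNReal NNReal ContDiff

open Pool.Agent.Helper922.HB

noncomputable section

namespace Pool.Agent.Helper10.Dupin

namespace J_circle_H


theorem contr_of (T : Set S1) (w : S1) (hw : w ∈ T)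
    (hne : ∀ z ∈ T, ∀ t : ℝ, 0 ≤ t → t ≤ 1 → (1 - (t : ℂ)) * z.1 + t * w.1 ≠ 0)
    (hT : ∀ z ∈ T, ∀ t : ℝ, 0 ≤ t → t ≤ 1 → ∀ (y : S1) (r : ℝ), 0 < r →
      (r : ℂ) * y.1 = (1 - (t : ℂ)) * z.1 + t * w.1 → y ∈ T) : Contr T := by
  let F : T × unitInterval → ℂ := fun q => (1 - ((q.2 : ℝ) : ℂ)) * q.1.1.1 + ((q.2 : ℝ) : ℂ) * w.1
  have hF : Continuous F := by
    have h1 : Continuous (fun q : T × unitInterval => ((q.2 : ℝ) : ℂ)) :=
      Complex.continuous_ofReal.comp (continuous_subtype_val.comp continuous_snd)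
    have h2 : Continuous (fun q : T × unitInterval => (q.1.1.1 : ℂ)) :=
      continuous_subtype_val.comp (continuous_subtype_val.comp continuous_fst)
    exact ((continuous_const.sub h1).mul h2).add (h1.mul continuous_const)
  have hF0 : ∀ q, F q ≠ 0 := fun q => hne q.1.1 q.1.2 q.2 q.2.2.1 q.2.2.2
  have hF1 : ∀ q, ‖F q / (‖F q‖ : ℂ)‖ = 1 := by
    intro q
    rw [norm_div, Complex.norm_real, norm_norm, div_self (norm_ne_zero_iff.2 (hF0 q))]
  have hF2 : ∀ q, (⟨F q / (‖F q‖ : ℂ), hF1 q⟩ : S1) ∈ T := by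
    intro q
    refine hT q.1.1 q.1.2 q.2 q.2.2.1 q.2.2.2 _ ‖F q‖ (norm_pos_iff.2 (hF0 q)) ?_
    show (‖F q‖ : ℂ) * (F q / (‖F q‖ : ℂ)) = F q
    have : (‖F q‖ : ℂ) ≠ 0 := by
      exact_mod_cast norm_ne_zero_iff.2 (hF0 q)
    field_simp
  have hc : Continuous (fun q => F q / (‖F q‖ : ℂ)) :=
    hF.div (Complex.continuous_ofReal.comp hF.norm) (fun q => by
      exact_mod_cast norm_ne_zero_iff.2 (hF0 q))
  refine ⟨⟨w, hw⟩, ⟨fun q => ⟨⟨F q / (‖F q‖ : ℂ), hF1 q⟩, hF2 q⟩,
    (hc.subtype_mk _).subtype_mk _⟩, ?_, ?_⟩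
  · intro x
    apply Subtype.ext
    apply Subtype.ext
    show F (x, 0) / (‖F (x, 0)‖ : ℂ) = x.1.1
    have : F (x, 0) = x.1.1 := by
      show (1 - (((0 : unitInterval) : ℝ) : ℂ)) * x.1.1 + (((0 : unitInterval) : ℝ) : ℂ) * w.1 = _
      simp
    rw [this, x.1.2]
    simp
  · intro x
    apply Subtype.ext
    apply Subtype.ext
    show F (x, 1) / (‖F (x, 1)‖ : ℂ) = w.1
    have : F (x, 1) = w.1 := by
      show (1 - (((1 : unitInterval) : ℝ) : ℂ)) * x.1.1 + (((1 : unitInterval) : ℝ) : ℂ) * w.1 = _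
      simp
    rw [this, w.2]
    simp

theorem contr_retract {X Y : Type} [TopologicalSpace X] [TopologicalSpace Y] (hX : Contr X)
    (f : C(X, Y)) (g : C(Y, X)) (hfg : ∀ y, f (g y) = y) : Contr Y := by
  obtain ⟨x₀, H, h0, h1⟩ := hX
  refine ⟨f x₀, f.comp (H.comp ⟨fun q => (g q.1, q.2), by fun_prop⟩), fun y => ?_, fun y => ?_⟩
  · show f (H (g y, 0)) = y
    rw [h0, hfg]
  · show f (H (g y, 1)) = f x₀
    rw [h1]

theorem contr_pc {X : Type} [TopologicalSpace X] (hX : Contr X) : PathConnectedSpace X := by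
  obtain ⟨x₀, H, h0, h1⟩ := hX
  have hj : ∀ x, Joined x x₀ := by
    intro x
    exact ⟨{ toFun := fun t => H (x, t)
             continuous_toFun := H.continuous.comp (Continuous.prodMk_right x)
             source' := h0 x
             target' := h1 x }⟩
  exact ⟨⟨x₀⟩, fun x y => (hj x).trans (hj y).symm⟩

theorem one_norm' (t : ℝ) (h1 : t ≤ 1) (z : S1) : ‖(1 - (t : ℂ)) * z.1‖ = 1 - t := by
  rw [norm_mul, z.2, mul_one, ← Complex.ofReal_one, ← Complex.ofReal_sub, Complex.norm_real,
    Real.norm_of_nonneg (by linarith)]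

/-- point of `S1` -/
def sm1 : S1 := ⟨-1, by simp⟩
/-- point of `S1` -/
def s1 : S1 := ⟨1, by simp⟩
/-- point of `S1` -/
def sI : S1 := ⟨Complex.I, by simp⟩
/-- point of `S1` -/
def smI : S1 := ⟨-Complex.I, by simp⟩

theorem contr_U : Contr ({z : S1 | z.1 ≠ 1} : Set S1) := by
  apply contr_of _ sm1
  · show (-1 : ℂ) ≠ 1
    norm_num
  · intro z hz t h0 h1 h
    have e1 : (1 - (t : ℂ)) * z.1 = ((t : ℝ) : ℂ) := by
      have : (1 - (t : ℂ)) * z.1 + t * (-1) = 0 := h
      linear_combination this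
    have e2 := one_norm' t h1 z
    rw [e1, Complex.norm_real, Real.norm_of_nonneg h0] at e2
    have e3 : t = 1 / 2 := by linarith
    apply hz
    rw [e3] at e1
    push_cast at e1
    linear_combination 2 * e1
  · intro z hz t h0 h1 y r hr h hy
    have hy' : y.1 = 1 := hy
    have h' : (r : ℂ) * y.1 = (1 - (t : ℂ)) * z.1 + t * (-1) := h
    have e1 : (1 - (t : ℂ)) * z.1 = ((r + t : ℝ) : ℂ) := by
      rw [hy'] at h'
      push_cast
      linear_combination -h'
    have e2 := one_norm' t h1 z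
    rw [e1, Complex.norm_real, Real.norm_of_nonneg (by linarith)] at e2
    apply hz
    rw [e2] at e1
    have e3 : (1 - (t : ℂ)) ≠ 0 := by
      have : (1 - t : ℝ) ≠ 0 := by linarith
      exact_mod_cast this
    push_cast at e1
    exact mul_left_cancel₀ e3 (by rw [e1, mul_one])

theorem contr_V : Contr ({z : S1 | z.1 ≠ -1} : Set S1) := by
  apply contr_of _ s1
  · show (1 : ℂ) ≠ -1
    norm_num
  · intro z hz t h0 h1 h
    have e1 : (1 - (t : ℂ)) * z.1 = ((-t : ℝ) : ℂ) := by
      have : (1 - (t : ℂ)) * z.1 + t * 1 = 0 := h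
      push_cast
      linear_combination this
    have e2 := one_norm' t h1 z
    rw [e1, Complex.norm_real, norm_neg, Real.norm_of_nonneg h0] at e2
    have e3 : t = 1 / 2 := by linarith
    apply hz
    rw [e3] at e1
    push_cast at e1
    linear_combination 2 * e1
  · intro z hz t h0 h1 y r hr h hy
    have hy' : y.1 = -1 := hy
    have h' : (r : ℂ) * y.1 = (1 - (t : ℂ)) * z.1 + t * 1 := h
    have e1 : (1 - (t : ℂ)) * z.1 = ((-(r + t) : ℝ) : ℂ) := by
      rw [hy'] at h'
      push_cast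
      linear_combination -h'
    have e2 := one_norm' t h1 z
    rw [e1, Complex.norm_real, norm_neg, Real.norm_of_nonneg (by linarith)] at e2
    apply hz
    rw [e2] at e1
    have e3 : (1 - (t : ℂ)) ≠ 0 := by
      have : (1 - t : ℝ) ≠ 0 := by linarith
      exact_mod_cast this
    push_cast at e1
    exact mul_left_cancel₀ e3 (by rw [e1, mul_neg, mul_one])

theorem im_comb (t : ℝ) (z w : ℂ) : ((1 - (t : ℂ)) * z + t * w).im = (1 - t) * z.im + t * w.im := by
  simp

theorem im_scal (r : ℝ) (y : ℂ) : ((r : ℂ) * y).im = r * y.im := by simp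

theorem contr_A : Contr ({z : S1 | 0 < z.1.im} : Set S1) := by
  have key : ∀ z : S1, 0 < z.1.im → ∀ t : ℝ, 0 ≤ t → t ≤ 1 →
      0 < ((1 - (t : ℂ)) * z.1 + t * Complex.I).im := by
    intro z hz t h0 h1
    rw [im_comb, Complex.I_im, mul_one]
    rcases eq_or_lt_of_le h0 with h | h
    · rw [← h]; simpa using hz
    · have : 0 ≤ (1 - t) * z.1.im := mul_nonneg (by linarith) hz.le
      linarith
  apply contr_of _ sI
  · show 0 < Complex.I.im
    rw [Complex.I_im]; exact one_pos
  · intro z hz t h0 h1 h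
    have h' : (1 - (t : ℂ)) * z.1 + t * Complex.I = 0 := h
    have := key z hz t h0 h1
    rw [h', Complex.zero_im] at this
    exact lt_irrefl _ this
  · intro z hz t h0 h1 y r hr h
    have h' : (r : ℂ) * y.1 = (1 - (t : ℂ)) * z.1 + t * Complex.I := h
    have := key z hz t h0 h1
    rw [← h', im_scal] at this
    exact (pos_iff_pos_of_mul_pos this).1 hr

theorem contr_B : Contr ({z : S1 | z.1.im < 0} : Set S1) := by
  have key : ∀ z : S1, z.1.im < 0 → ∀ t : ℝ, 0 ≤ t → t ≤ 1 →
      ((1 - (t : ℂ)) * z.1 + t * (-Complex.I)).im < 0 := by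
    intro z hz t h0 h1
    rw [im_comb, Complex.neg_im, Complex.I_im]
    rcases eq_or_lt_of_le h0 with h | h
    · rw [← h]; simpa using hz
    · have : 0 ≤ (1 - t) * (-z.1.im) := mul_nonneg (by linarith) (by linarith)
      linarith
  apply contr_of _ smI
  · show (-Complex.I).im < 0
    rw [Complex.neg_im, Complex.I_im]; norm_num
  · intro z hz t h0 h1 h
    have h' : (1 - (t : ℂ)) * z.1 + t * (-Complex.I) = 0 := h
    have := key z hz t h0 h1
    rw [h', Complex.zero_im] at this
    exact lt_irrefl _ this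
  · intro z hz t h0 h1 y r hr h
    have h' : (r : ℂ) * y.1 = (1 - (t : ℂ)) * z.1 + t * (-Complex.I) := h
    have := key z hz t h0 h1
    rw [← h', im_scal] at this
    show y.1.im < 0
    by_contra hcon
    push Not at hcon
    have := mul_nonneg hr.le hcon
    linarith

theorem cap_iff (z : S1) : (z.1 ≠ 1 ∧ z.1 ≠ -1) ↔ (0 < z.1.im ∨ z.1.im < 0) := by
  constructor
  · rintro ⟨h1, h2⟩
    by_contra hcon
    push Not at hcon
    have him : z.1.im = 0 := le_antisymm hcon.1 hcon.2
    have hn : Complex.normSq z.1 = 1 := by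
      rw [Complex.normSq_eq_norm_sq, z.2]; norm_num
    rw [Complex.normSq_apply, him] at hn
    have hr : (z.1.re - 1) * (z.1.re + 1) = 0 := by linarith
    rcases mul_eq_zero.1 hr with h | h
    · apply h1
      apply Complex.ext
      · rw [Complex.one_re]; linarith
      · rw [Complex.one_im]; exact him
    · apply h2
      apply Complex.ext
      · rw [Complex.neg_re, Complex.one_re]; linarith
      · rw [Complex.neg_im, Complex.one_im, neg_zero]; exact him
  · intro h
    constructor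
    · intro h1
      rw [h1, Complex.one_im] at h
      rcases h with h | h <;> exact lt_irrefl _ h
    · intro h1
      rw [h1, Complex.neg_im, Complex.one_im, neg_zero] at h
      rcases h with h | h <;> exact lt_irrefl _ h

theorem pc_S1 : PathConnectedSpace S1 := by
  have hs : Function.Surjective (fun θ : ℝ => (⟨Complex.exp (θ * Complex.I),
      Complex.norm_exp_ofReal_mul_I θ⟩ : S1)) := by
    intro z
    refine ⟨Complex.arg z.1, ?_⟩
    apply Subtype.ext
    show Complex.exp (Complex.arg z.1 * Complex.I) = z.1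
    have := Complex.norm_mul_exp_arg_mul_I z.1
    rwa [z.2, Complex.ofReal_one, one_mul] at this
  refine hs.pathConnectedSpace ?_
  apply Continuous.subtype_mk
  fun_prop

-- TARGET: prove this (put auxiliary lemmas between the ASSUMED END line and the theorem)

theorem circle_H : OneGen S1 0 ∧ OneGen S1 1 ∧ ∀ n : ℕ, Cyc S1 (n + 2) ≤ Bdy S1 (n + 2) := by
  have hval : Continuous (fun z : S1 => z.1) := continuous_subtype_val
  have him : Continuous (fun z : S1 => z.1.im) := Complex.continuous_im.comp hval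
  have oU : IsOpen ({z : S1 | z.1 ≠ 1} : Set S1) := isOpen_ne_fun hval continuous_const
  have oV : IsOpen ({z : S1 | z.1 ≠ -1} : Set S1) := isOpen_ne_fun hval continuous_const
  have oA : IsOpen ({z : S1 | 0 < z.1.im} : Set S1) := isOpen_lt continuous_const him
  have oB : IsOpen ({z : S1 | z.1.im < 0} : Set S1) := isOpen_lt him continuous_const
  have hUV : ∀ x : S1, x ∈ ({z : S1 | z.1 ≠ 1} : Set S1) ∨ x ∈ ({z : S1 | z.1 ≠ -1} : Set S1) := by
    intro x
    by_cases h : x.1 = 1
    · right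
      show x.1 ≠ -1
      rw [h]; norm_num
    · left; exact h
  refine ⟨?_, ?_, ?_⟩
  · haveI := pc_S1
    exact pc_zero
  · refine gen_one _ _ _ _ oU oV hUV contr_U contr_V oA oB ?_ ?_
      (isPathConnected_iff_pathConnectedSpace.2 (contr_pc contr_A))
      (isPathConnected_iff_pathConnectedSpace.2 (contr_pc contr_B))
    · ext z
      exact cap_iff z
    · ext z
      constructor
      · rintro ⟨h1, h2⟩
        have h1' : 0 < z.1.im := h1
        have h2' : z.1.im < 0 := h2
        exact absurd h1' (not_lt.2 h2'.le)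
      · intro h; exact h.elim
  · intro n
    refine gen_high _ _ oU oV hUV contr_U contr_V n ?_
    have him' : Continuous (fun x : ↥(({z : S1 | z.1 ≠ 1} : Set S1) ∩ {z : S1 | z.1 ≠ -1}) =>
        x.1.1.im) := him.comp continuous_subtype_val
    have o1 : IsOpen ({x | 0 < x.1.1.im} :
        Set ↥(({z : S1 | z.1 ≠ 1} : Set S1) ∩ {z : S1 | z.1 ≠ -1})) :=
      isOpen_lt continuous_const him'
    have o2 : IsOpen ({x | x.1.1.im < 0} :
        Set ↥(({z : S1 | z.1 ≠ 1} : Set S1) ∩ {z : S1 | z.1 ≠ -1})) :=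
      isOpen_lt him' continuous_const
    refine disj _ _ o1 o2 ?_ ?_ ?_ ?_ n
    · intro x
      exact (cap_iff x.1).1 x.2
    · ext z
      constructor
      · rintro ⟨h1, h2⟩
        have h1' : 0 < z.1.1.im := h1
        have h2' : z.1.1.im < 0 := h2
        exact absurd h1' (not_lt.2 h2'.le)
      · intro h; exact h.elim
    · refine contr_retract contr_A
        ⟨fun a => ⟨⟨a.1, (cap_iff a.1).2 (Or.inl a.2)⟩, a.2⟩,
          (continuous_subtype_val.subtype_mk _).subtype_mk _⟩
        ⟨fun x => ⟨x.1.1, x.2⟩,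
          (continuous_subtype_val.comp continuous_subtype_val).subtype_mk _⟩ (fun y => rfl)
    · refine contr_retract contr_B
        ⟨fun a => ⟨⟨a.1, (cap_iff a.1).2 (Or.inr a.2)⟩, a.2⟩,
          (continuous_subtype_val.subtype_mk _).subtype_mk _⟩
        ⟨fun x => ⟨x.1.1, x.2⟩,
          (continuous_subtype_val.comp continuous_subtype_val).subtype_mk _⟩ (fun y => rfl)


end J_circle_H

alias circle_H := J_circle_H.circle_H

end Pool.Agent.Helper10.Dupin
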