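import Mathlib
import Pool.Agent.Helper10.Dupin.Base

open MeasureTheory Set Filter Topology
open scoped ENNReal NNReal ContDiff

noncomputable section

namespace Pool.Agent.Helper10.Dupin

namespace J_circle_sub


-- TARGET: prove this (put auxiliary lemmas between the ASSUMED END line and the theorem)

/-- the defining function -/
def cf (z : V) : EuclideanSpace ℝ (Fin 3) := !₂[Complex.normSq z.1 - 1, z.2.re, z.2.im]

theorem cf_0 (z : V) : cf z 0 = Complex.normSq z.1 - 1 := rfl
theorem cf_1 (z : V) : cf z 1 = z.2.re := rfl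
theorem cf_2 (z : V) : cf z 2 = z.2.im := rfl

theorem cf_contDiff : ContDiff ℝ ∞ cf := by
  rw [contDiff_euclidean]
  intro i
  fin_cases i
  · show ContDiff ℝ ∞ (fun z : V => Complex.normSq z.1 - 1)
    have e : (fun z : V => Complex.normSq z.1 - 1) =
        (fun z : V => Complex.reCLM z.1 * Complex.reCLM z.1 +
          Complex.imCLM z.1 * Complex.imCLM z.1 - 1) := by
      funext z
      rw [Complex.normSq_apply]
      rfl
    rw [e]
    fun_prop
  · show ContDiff ℝ ∞ (fun z : V => Complex.reCLM z.2)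
    fun_prop
  · show ContDiff ℝ ∞ (fun z : V => Complex.imCLM z.2)
    fun_prop

theorem cf_deriv (y v : V) (i : Fin 3) (d : ℝ)
    (h : HasDerivAt (fun t : ℝ => cf (y + t • v) i) d 0) : (fderiv ℝ cf y v) i = d := by
  have h1 : HasFDerivAt cf (fderiv ℝ cf y) (y + (0:ℝ) • v) := by
    rw [zero_smul, add_zero]
    exact (cf_contDiff.differentiable (by simp)).differentiableAt.hasFDerivAt
  have h2 : HasDerivAt (fun t : ℝ => y + t • v) v 0 := by
    have := ((hasDerivAt_id (0:ℝ)).smul_const v).const_add y
    rw [one_smul] at this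
    exact this
  have h3 : HasDerivAt (cf ∘ (fun t : ℝ => y + t • v)) (fderiv ℝ cf y v) 0 :=
    h1.comp_hasDerivAt (0:ℝ) h2
  have h4 : HasDerivAt (fun t : ℝ => cf (y + t • v) i) ((fderiv ℝ cf y v) i) 0 :=
    (EuclideanSpace.proj i : EuclideanSpace ℝ (Fin 3) →L[ℝ] ℝ).hasFDerivAt.comp_hasDerivAt
      (0:ℝ) h3
  exact h4.unique h

theorem cf_surj (y : V) (hy : y.1 ≠ 0) : Function.Surjective (fderiv ℝ cf y) := by
  intro w
  have hn : 0 < Complex.normSq y.1 := Complex.normSq_pos.mpr hy
  obtain ⟨a, ha⟩ : ∃ a : ℝ, a = w 0 / (2 * Complex.normSq y.1) := ⟨_, rfl⟩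
  refine ⟨(a • y.1, ⟨w 1, w 2⟩), ?_⟩
  have h0 : (fderiv ℝ cf y (a • y.1, ⟨w 1, w 2⟩)) 0 = w 0 := by
    apply cf_deriv
    have e : (fun t : ℝ => cf (y + t • ((a • y.1, ⟨w 1, w 2⟩) : V)) 0) =
        (fun t : ℝ => (1 + t * a) ^ 2 * Complex.normSq y.1 - 1) := by
      funext t
      rw [cf_0]
      show Complex.normSq (y.1 + t • (a • y.1)) - 1 = _
      rw [Complex.normSq_apply, Complex.normSq_apply]
      simp only [Complex.add_re, Complex.add_im, Complex.real_smul, Complex.mul_re, Complex.mul_im,
        Complex.ofReal_re, Complex.ofReal_im]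
      ring
    rw [e]
    have h1 : HasDerivAt (fun t : ℝ => (1 + t * a)) a 0 := by
      have := ((hasDerivAt_id (0:ℝ)).mul_const a).const_add 1
      rw [one_mul] at this
      exact this
    have h2 := ((h1.pow 2).mul_const (Complex.normSq y.1)).sub_const 1
    refine h2.congr_deriv ?_
    have hn' : Complex.normSq y.1 ≠ 0 := hn.ne'
    have e2 : a * Complex.normSq y.1 = w 0 / 2 := by
      rw [ha]
      field_simp
    push_cast
    linear_combination 2 * e2
  have h1 : (fderiv ℝ cf y (a • y.1, ⟨w 1, w 2⟩)) 1 = w 1 := by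
    apply cf_deriv
    have e : (fun t : ℝ => cf (y + t • ((a • y.1, ⟨w 1, w 2⟩) : V)) 1) =
        (fun t : ℝ => y.2.re + t * w 1) := by
      funext t
      rw [cf_1]
      show (y.2 + t • (⟨w 1, w 2⟩ : ℂ)).re = _
      simp
    rw [e]
    have := ((hasDerivAt_id (0:ℝ)).mul_const (w 1)).const_add y.2.re
    rw [one_mul] at this
    exact this
  have h2 : (fderiv ℝ cf y (a • y.1, ⟨w 1, w 2⟩)) 2 = w 2 := by
    apply cf_deriv
    have e : (fun t : ℝ => cf (y + t • ((a • y.1, ⟨w 1, w 2⟩) : V)) 2) =
        (fun t : ℝ => y.2.im + t * w 2) := by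
      funext t
      rw [cf_2]
      show (y.2 + t • (⟨w 1, w 2⟩ : ℂ)).im = _
      simp
    rw [e]
    have := ((hasDerivAt_id (0:ℝ)).mul_const (w 2)).const_add y.2.im
    rw [one_mul] at this
    exact this
  ext i
  fin_cases i
  · exact h0
  · exact h1
  · exact h2

theorem circle_sub : IsClosed circle ∧ IsSubmanifold circle 1 := by
  constructor
  · exact (isClosed_eq continuous_fst.norm continuous_const).inter
      (isClosed_eq continuous_snd continuous_const)
  · intro x hx
    refine ⟨3, {z | z.1 ≠ 0}, cf, ?_, ?_, ?_, ?_, ?_, ?_⟩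
    · rw [Module.finrank_prod, Complex.finrank_real_complex]
    · exact isOpen_ne_fun continuous_fst continuous_const
    · show x.1 ≠ 0
      intro h
      have h1 : ‖x.1‖ = 1 := hx.1
      rw [h, norm_zero] at h1
      exact zero_ne_one h1
    · exact cf_contDiff.contDiffOn
    · intro y _
      constructor
      · intro hy
        have h1 : ‖y.1‖ = 1 := hy.1
        have h2 : y.2 = 0 := hy.2
        ext i
        fin_cases i
        · show Complex.normSq y.1 - 1 = 0
          rw [Complex.normSq_eq_norm_sq, h1]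
          norm_num
        · show y.2.re = 0
          rw [h2]; rfl
        · show y.2.im = 0
          rw [h2]; rfl
      · intro hy
        have h0 : Complex.normSq y.1 - 1 = 0 := by
          rw [← cf_0, hy]; rfl
        have h1 : y.2.re = 0 := by
          rw [← cf_1, hy]; rfl
        have h2 : y.2.im = 0 := by
          rw [← cf_2, hy]; rfl
        refine ⟨?_, Complex.ext h1 h2⟩
        rw [Complex.normSq_eq_norm_sq] at h0
        have h3 : ‖y.1‖ ^ 2 = 1 := by linarith
        exact (pow_eq_one_iff_of_nonneg (norm_nonneg _) two_ne_zero).mp h3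
    · intro y hy
      exact cf_surj y hy


end J_circle_sub

alias circle_sub := J_circle_sub.circle_sub

end Pool.Agent.Helper10.Dupin
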