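import Mathlib
import Pool.Agent.Helper10.Dupin.Base
import Pool.Agent.Helper10.Dupin.J_chr_eq

open MeasureTheory Set Filter Topology
open scoped ENNReal NNReal ContDiff

noncomputable section

namespace Pool.Agent.Helper10.Dupin

namespace J_geo_spec


-- TARGET: prove this (put auxiliary lemmas between the ASSUMED END line and the theorem)

theorem geo_contDiff_aux (μ : ℝ) (x ζ : V) :
    ContDiff ℝ ∞ (fun t : ℝ => Complex.exp (t * μ * Complex.I) • (x + (t : ℂ) • ζ)) := by
  have h1 : ContDiff ℝ ∞ (fun t : ℝ => (t : ℂ)) := Complex.ofRealCLM.contDiff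
  have h2 : ContDiff ℝ ∞ (fun t : ℝ => Complex.exp (t * μ * Complex.I)) :=
    Complex.contDiff_exp.comp ((h1.mul contDiff_const).mul contDiff_const)
  exact h2.smul (contDiff_const.add (h1.smul contDiff_const))

theorem geo_exp_aux (μ t : ℝ) : HasDerivAt (fun t : ℝ => Complex.exp (t * μ * Complex.I))
    (Complex.exp (t * μ * Complex.I) * (μ * Complex.I)) t := by
  have h1 : HasDerivAt (fun t : ℝ => (t : ℂ)) 1 t := Complex.ofRealCLM.hasDerivAt
  have h2 : HasDerivAt (fun t : ℝ => (t : ℂ) * μ * Complex.I) (μ * Complex.I) t := by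
    simpa using (h1.mul_const (μ : ℂ)).mul_const Complex.I
  exact h2.cexp

theorem geo_deriv_aux (μ t : ℝ) (x ζ : V) :
    HasDerivAt (fun t : ℝ => Complex.exp (t * μ * Complex.I) • (x + (t : ℂ) • ζ))
      ((μ * Complex.I) • (Complex.exp (t * μ * Complex.I) • (x + (t : ℂ) • ζ)) +
        Complex.exp (t * μ * Complex.I) • ζ) t := by
  have h1 : HasDerivAt (fun t : ℝ => (t : ℂ)) 1 t := Complex.ofRealCLM.hasDerivAt
  have h2 : HasDerivAt (fun t : ℝ => x + (t : ℂ) • ζ) ζ t := by
    simpa using (h1.smul_const ζ).const_add x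
  refine ((geo_exp_aux μ t).fun_smul h2).congr_deriv ?_
  rw [add_comm, smul_smul, mul_comm]

theorem geo_deriv2_aux (μ t : ℝ) (x ζ : V) :
    HasDerivAt (fun t : ℝ => (μ * Complex.I) • (Complex.exp (t * μ * Complex.I) • (x + (t : ℂ) • ζ)) +
        Complex.exp (t * μ * Complex.I) • ζ)
      ((μ * Complex.I) • ((μ * Complex.I) • (Complex.exp (t * μ * Complex.I) • (x + (t : ℂ) • ζ)) +
        Complex.exp (t * μ * Complex.I) • ζ) +
        (Complex.exp (t * μ * Complex.I) * (μ * Complex.I)) • ζ) t := by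
  exact ((geo_deriv_aux μ t x ζ).const_smul (μ * Complex.I : ℂ)).add
    ((geo_exp_aux μ t).smul_const ζ)

theorem geo_om_aux (E : ℂ) (hE : E.re * E.re + E.im * E.im = 1) (x ζ : V) (μ t : ℝ)
    (hζ : ip ζ (J x) = μ) :
    om (E • (x + (t : ℂ) • ζ)) ((μ * Complex.I) • (E • (x + (t : ℂ) • ζ)) + E • ζ) =
      μ * rho (E • (x + (t : ℂ) • ζ)) := by
  have hip : ∀ a b : V, ip (E • a) (E • b) = ip a b := by
    intro a b
    have : ip (E • a) (E • b) = (E.re * E.re + E.im * E.im) * ip a b := by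
      simp only [ip, Prod.smul_fst, Prod.smul_snd, smul_eq_mul, Complex.mul_re, Complex.mul_im]
      ring
    rw [this, hE, one_mul]
  have hJ : ∀ a : V, J (E • a) = E • J a := by
    intro a
    unfold J
    ext1 <;> simp <;> ring
  have hI : ∀ a : V, (μ * Complex.I : ℂ) • (E • a) = E • ((μ * Complex.I : ℂ) • a) := by
    intro a
    rw [smul_smul, smul_smul, mul_comm]
  rw [om, hI, ← smul_add, hJ, hip, rho, hip]
  have h1 : ip ((μ * Complex.I : ℂ) • (x + (t : ℂ) • ζ) + ζ) (J (x + (t : ℂ) • ζ)) =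
      μ * ip (x + (t : ℂ) • ζ) (x + (t : ℂ) • ζ) + ip ζ (J x) := by
    simp only [ip, J, Prod.smul_fst, Prod.smul_snd, Prod.fst_add, Prod.snd_add, smul_eq_mul,
      Complex.mul_re, Complex.mul_im, Complex.add_re, Complex.add_im, Complex.I_re, Complex.I_im,
      Complex.ofReal_re, Complex.ofReal_im]
    ring
  rw [h1, hζ]
  ring

theorem geo_J_aux (a : V) : J a = Complex.I • a := rfl

theorem geo_spec (x v : V) : IsGeodesic cheeger (geo x v) ∧ geo x v 0 = x ∧ deriv (geo x v) 0 = v := by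
  set μ : ℝ := om x v / rho x with hμ
  set ζ : V := v - (μ : ℂ) • J x with hζdef
  have hgeo : geo x v = fun t : ℝ => Complex.exp (t * μ * Complex.I) • (x + (t : ℂ) • ζ) := rfl
  have hρ := rho_pos x
  have hζ : ip ζ (J x) = μ := by
    have h1 : ip ζ (J x) = om x v - μ * ip x x := by
      rw [hζdef]
      simp only [om, ip, J, Prod.smul_fst, Prod.smul_snd, Prod.fst_sub, Prod.snd_sub, smul_eq_mul,
        Complex.mul_re, Complex.mul_im, Complex.sub_re, Complex.sub_im, Complex.I_re, Complex.I_im,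
        Complex.ofReal_re, Complex.ofReal_im]
      ring
    have h2 : om x v = μ * rho x := by
      rw [hμ, div_mul_cancel₀ _ hρ.ne']
    rw [h1, h2, rho]
    ring
  have hd : deriv (geo x v) = fun t : ℝ =>
      (μ * Complex.I) • (Complex.exp (t * μ * Complex.I) • (x + (t : ℂ) • ζ)) +
        Complex.exp (t * μ * Complex.I) • ζ := by
    funext t
    rw [hgeo]
    exact (geo_deriv_aux μ t x ζ).deriv
  refine ⟨⟨?_, ?_⟩, ?_, ?_⟩
  · rw [hgeo]
    exact geo_contDiff_aux μ x ζ
  · intro t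
    rw [covDeriv, chr_eq, hd, (geo_deriv2_aux μ t x ζ).deriv, hgeo]
    beta_reduce
    have hE : (Complex.exp (t * μ * Complex.I)).re * (Complex.exp (t * μ * Complex.I)).re +
        (Complex.exp (t * μ * Complex.I)).im * (Complex.exp (t * μ * Complex.I)).im = 1 := by
      have h1 : ‖Complex.exp (t * μ * Complex.I)‖ = 1 := by
        have := Complex.norm_exp_ofReal_mul_I (t * μ)
        push_cast at this
        exact this
      have h2 := Complex.normSq_eq_norm_sq (Complex.exp (t * μ * Complex.I))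
      rw [h1, Complex.normSq_apply] at h2
      rw [h2]
      norm_num
    generalize Complex.exp (t * μ * Complex.I) = E at *
    have hom := geo_om_aux E hE x ζ μ t hζ
    have hr := rho_pos (E • (x + (t : ℂ) • ζ))
    have hq : om (E • (x + (t : ℂ) • ζ)) ((μ * Complex.I) • (E • (x + (t : ℂ) • ζ)) + E • ζ) /
        rho (E • (x + (t : ℂ) • ζ)) = μ := by
      rw [hom, mul_div_assoc, div_self hr.ne', mul_one]
    have hq2 : om (E • (x + (t : ℂ) • ζ)) ((μ * Complex.I) • (E • (x + (t : ℂ) • ζ)) + E • ζ) *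
        om (E • (x + (t : ℂ) • ζ)) ((μ * Complex.I) • (E • (x + (t : ℂ) • ζ)) + E • ζ) /
        rho (E • (x + (t : ℂ) • ζ)) ^ 2 = μ * μ := by
      rw [pow_two, mul_div_mul_comm, hq]
    rw [Gam, hq, hq2, geo_J_aux]
    generalize E • (x + (t : ℂ) • ζ) = w
    apply Prod.ext
    · simp only [Prod.smul_fst, Prod.fst_add, Prod.fst_sub, Prod.fst_neg, smul_eq_mul,
        Complex.real_smul, Prod.fst_zero]
      push_cast
      linear_combination (-(μ : ℂ) ^ 2 * w.1) * Complex.I_mul_I
    · simp only [Prod.smul_snd, Prod.snd_add, Prod.snd_sub, Prod.snd_neg, smul_eq_mul,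
        Complex.real_smul, Prod.snd_zero]
      push_cast
      linear_combination (-(μ : ℂ) ^ 2 * w.2) * Complex.I_mul_I
  · rw [hgeo]
    simp
  · rw [hd]
    beta_reduce
    rw [hζdef, geo_J_aux]
    simp [smul_smul]


end J_geo_spec

alias geo_spec := J_geo_spec.geo_spec

end Pool.Agent.Helper10.Dupin
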