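import Mathlib
import Pool.Agent.Helper10.Dupin.Base
import Pool.Agent.Helper10.Dupin.J_chr_eq

open MeasureTheory Set Filter Topology
open scoped ENNReal NNReal ContDiff

noncomputable section

namespace Pool.Agent.Helper10.Dupin

namespace J_geo_unique


-- TARGET: prove this (put auxiliary lemmas between the ASSUMED END line and the theorem)

theorem gu_const {f : ℝ → ℂ} (h : ∀ t, HasDerivAt f 0 t) (t : ℝ) : f t = f 0 :=
  is_const_of_deriv_eq_zero (fun t => (h t).differentiableAt) (fun t => (h t).deriv) t 0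

theorem gu_const' {f : ℝ → ℝ} (h : ∀ t, HasDerivAt f 0 t) (t : ℝ) : f t = f 0 :=
  is_const_of_deriv_eq_zero (fun t => (h t).differentiableAt) (fun t => (h t).deriv) t 0

/-- the linear equation `a'' = 2 i μ a' + μ² a` -/
theorem gu_ode (μ : ℝ) (a a' : ℝ → ℂ) (h1 : ∀ t, HasDerivAt a (a' t) t)
    (h2 : ∀ t, HasDerivAt a' (2 * μ * (Complex.I * a' t) + μ ^ 2 * a t) t) (t : ℝ) :
    a t = Complex.exp (t * μ * Complex.I) * (a 0 + t * (a' 0 - μ * (Complex.I * a 0))) := by
  have hlin : ∀ t : ℝ, HasDerivAt (fun t : ℝ => -((t : ℂ) * μ * Complex.I)) (-(μ * Complex.I)) t := by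
    intro t
    have h := (((Complex.ofRealCLM.hasDerivAt (x := t)).mul_const (μ : ℂ)).mul_const Complex.I).fun_neg
    simpa using h
  have hexp : ∀ t : ℝ, HasDerivAt (fun t : ℝ => Complex.exp (-((t : ℂ) * μ * Complex.I)))
      (Complex.exp (-((t : ℂ) * μ * Complex.I)) * (-(μ * Complex.I))) t := fun t => (hlin t).cexp
  -- first integral
  have hg : ∀ t : ℝ, HasDerivAt (fun t : ℝ => Complex.exp (-((t : ℂ) * μ * Complex.I)) *
      (a' t - μ * (Complex.I * a t))) 0 t := by
    intro t
    have h := (hexp t).fun_mul ((h2 t).fun_sub (((h1 t).const_mul Complex.I).const_mul (μ : ℂ)))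
    refine h.congr_deriv ?_
    linear_combination (-(Complex.exp (-((t : ℂ) * μ * Complex.I)) * μ ^ 2 * a t)) * (-Complex.I_sq)
  have hg0 : ∀ t : ℝ, Complex.exp (-((t : ℂ) * μ * Complex.I)) * (a' t - μ * (Complex.I * a t)) =
      a' 0 - μ * (Complex.I * a 0) := by
    intro t
    have := gu_const hg t
    simpa using this
  have hk : ∀ t : ℝ, HasDerivAt (fun t : ℝ => Complex.exp (-((t : ℂ) * μ * Complex.I)) * a t -
      (t : ℂ) * (a' 0 - μ * (Complex.I * a 0))) 0 t := by
    intro t
    have h := ((hexp t).fun_mul (h1 t)).fun_sub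
      ((Complex.ofRealCLM.hasDerivAt (x := t)).mul_const (a' 0 - μ * (Complex.I * a 0)))
    refine h.congr_deriv ?_
    rw [← hg0 t]
    simp only [Complex.ofRealCLM_apply, Complex.ofReal_one]
    ring
  have hk0 := gu_const hk t
  simp only [Complex.ofReal_zero, zero_mul, neg_zero, Complex.exp_zero, one_mul, sub_zero] at hk0
  have h3 : Complex.exp (-((t : ℂ) * μ * Complex.I)) * a t =
      a 0 + t * (a' 0 - μ * (Complex.I * a 0)) := by
    linear_combination hk0
  rw [← h3, ← mul_assoc, ← Complex.exp_add, add_neg_cancel, Complex.exp_zero, one_mul]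

theorem geo_unique {c : ℝ → V} (hc : IsGeodesic cheeger c) (t : ℝ) : c t = geo (c 0) (deriv c 0) t := by
  obtain ⟨hs, hg⟩ := hc
  have hd1 : ∀ t, HasDerivAt c (deriv c t) t := fun t =>
    (hs.differentiable (by simp)).differentiableAt.hasDerivAt
  have hs2 : ContDiff ℝ ∞ (deriv c) := by
    have := (contDiff_infty_iff_deriv.1 hs).2
    exact this
  have hd2 : ∀ t, HasDerivAt (deriv c) (deriv (deriv c) t) t := fun t =>
    (hs2.differentiable (by simp)).differentiableAt.hasDerivAt
  set m : ℝ → ℝ := fun t => om (c t) (deriv c t) / rho (c t) with hm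
  have hdd : ∀ t, deriv (deriv c) t = (2 * m t) • J (deriv c t) + (m t) ^ 2 • c t := by
    intro t
    have h1 := hg t
    unfold covDeriv at h1
    rw [chr_eq] at h1
    have h2 : deriv (deriv c) t = - Gam (c t) (deriv c t) (deriv c t) := eq_neg_of_add_eq_zero_left h1
    rw [h2]
    unfold Gam
    have h3 : om (c t) (deriv c t) * om (c t) (deriv c t) / rho (c t) ^ 2 = (m t) ^ 2 := by
      simp only [hm]
      ring
    have h4 : om (c t) (deriv c t) / rho (c t) = m t := rfl
    rw [h3, h4]
    module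
  -- components
  have f1 : ∀ t, HasDerivAt (fun t => (c t).1) (deriv c t).1 t := fun t =>
    (ContinuousLinearMap.fst ℝ ℂ ℂ).hasFDerivAt.comp_hasDerivAt t (hd1 t)
  have f2 : ∀ t, HasDerivAt (fun t => (c t).2) (deriv c t).2 t := fun t =>
    (ContinuousLinearMap.snd ℝ ℂ ℂ).hasFDerivAt.comp_hasDerivAt t (hd1 t)
  have g1 : ∀ t, HasDerivAt (fun t => (deriv c t).1)
      (2 * (m t : ℂ) * (Complex.I * (deriv c t).1) + (m t : ℂ) ^ 2 * (c t).1) t := fun t => by
    have h : HasDerivAt (fun t => (deriv c t).1) (deriv (deriv c) t).1 t :=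
      (ContinuousLinearMap.fst ℝ ℂ ℂ).hasFDerivAt.comp_hasDerivAt t (hd2 t)
    refine h.congr_deriv ?_
    rw [hdd]
    simp only [J, Prod.fst_add, Prod.smul_fst, Complex.real_smul]
    push_cast
    ring
  have g2 : ∀ t, HasDerivAt (fun t => (deriv c t).2)
      (2 * (m t : ℂ) * (Complex.I * (deriv c t).2) + (m t : ℂ) ^ 2 * (c t).2) t := fun t => by
    have h : HasDerivAt (fun t => (deriv c t).2) (deriv (deriv c) t).2 t :=
      (ContinuousLinearMap.snd ℝ ℂ ℂ).hasFDerivAt.comp_hasDerivAt t (hd2 t)
    refine h.congr_deriv ?_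
    rw [hdd]
    simp only [J, Prod.snd_add, Prod.smul_snd, Complex.real_smul]
    push_cast
    ring
  have re : ∀ {f : ℝ → ℂ} {f' : ℂ} {t : ℝ}, HasDerivAt f f' t → HasDerivAt (fun t => (f t).re) f'.re t :=
    fun h => Complex.reCLM.hasFDerivAt.comp_hasDerivAt _ h
  have im : ∀ {f : ℝ → ℂ} {f' : ℂ} {t : ℝ}, HasDerivAt f f' t → HasDerivAt (fun t => (f t).im) f'.im t :=
    fun h => Complex.imCLM.hasFDerivAt.comp_hasDerivAt _ h
  -- `m` is constant
  have hmd : ∀ t, HasDerivAt m 0 t := by
    intro t
    have hr0 := rho_pos (c t)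
    have ho : HasDerivAt (fun t => om (c t) (deriv c t))
        (2 * m t * ip (c t) (deriv c t)) t := by
      have e : (fun t => om (c t) (deriv c t)) = fun t =>
          (-((deriv c t).1.re * (c t).1.im) + (deriv c t).1.im * (c t).1.re) +
          (-((deriv c t).2.re * (c t).2.im) + (deriv c t).2.im * (c t).2.re) := by
        funext t
        simp only [om, ip, J, Complex.mul_re, Complex.mul_im, Complex.I_re, Complex.I_im]
        ring
      rw [e]
      have h := ((((re (g1 t)).mul (im (f1 t))).neg).add ((im (g1 t)).mul (re (f1 t)))).add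
        ((((re (g2 t)).mul (im (f2 t))).neg).add ((im (g2 t)).mul (re (f2 t))))
      refine h.congr_deriv ?_
      simp only [ip, Complex.add_re, Complex.add_im, Complex.mul_re, Complex.mul_im, Complex.I_re,
        Complex.I_im, Complex.ofReal_re, Complex.ofReal_im, Complex.re_ofNat, Complex.im_ofNat,
        pow_two]
      ring
    have hr : HasDerivAt (fun t => rho (c t)) (2 * ip (c t) (deriv c t)) t := by
      have e : (fun t => rho (c t)) = fun t =>
          1 + (((c t).1.re * (c t).1.re + (c t).1.im * (c t).1.im) +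
          ((c t).2.re * (c t).2.re + (c t).2.im * (c t).2.im)) := by
        funext t
        simp only [rho, ip]
      rw [e]
      have h := ((((re (f1 t)).mul (re (f1 t))).add ((im (f1 t)).mul (im (f1 t)))).add
        (((re (f2 t)).mul (re (f2 t))).add ((im (f2 t)).mul (im (f2 t))))).const_add 1
      refine h.congr_deriv ?_
      simp only [ip]
      ring
    have h := ho.div hr hr0.ne'
    refine h.congr_deriv ?_
    have h5 : om (c t) (deriv c t) = m t * rho (c t) := by
      simp only [hm]
      field_simp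
    rw [h5]
    field_simp
    ring
  have hmc : ∀ t, m t = m 0 := gu_const' hmd
  have k1 := gu_ode (m 0) (fun t => (c t).1) (fun t => (deriv c t).1) f1
    (fun t => by have := g1 t; rw [hmc t] at this; exact this) t
  have k2 := gu_ode (m 0) (fun t => (c t).2) (fun t => (deriv c t).2) f2
    (fun t => by have := g2 t; rw [hmc t] at this; exact this) t
  refine Prod.ext ?_ ?_
  · rw [k1]
    simp only [geo, J, Prod.smul_fst, Prod.fst_add, Prod.fst_sub, smul_eq_mul]
    rfl
  · rw [k2]
    simp only [geo, J, Prod.smul_snd, Prod.snd_add, Prod.snd_sub, smul_eq_mul]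
    rfl


end J_geo_unique

alias geo_unique := J_geo_unique.geo_unique

end Pool.Agent.Helper10.Dupin
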