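import Mathlib
import Pool.Agent.Helper10.Dupin.Base
import Pool.Agent.Helper10.Dupin.J_geo_spec
import Pool.Agent.Helper10.Dupin.J_geo_unique

open MeasureTheory Set Filter Topology
open scoped ENNReal NNReal ContDiff

noncomputable section

namespace Pool.Agent.Helper10.Dupin

namespace J_expo_eq


-- TARGET: prove this (put auxiliary lemmas between the ASSUMED END line and the theorem)

theorem expo_eq (z : V × V) : expo cheeger z = geo z.1 z.2 1 := by
  have h : ∃ p, ∃ c, IsGeodesic cheeger c ∧ c 0 = z.1 ∧ deriv c 0 = z.2 ∧ c 1 = p :=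
    ⟨geo z.1 z.2 1, geo z.1 z.2, (geo_spec z.1 z.2).1, (geo_spec z.1 z.2).2.1,
      (geo_spec z.1 z.2).2.2, rfl⟩
  obtain ⟨c, hc, h0, h1, h2⟩ := Classical.epsilon_spec h
  have h3 := geo_unique hc 1
  rw [h0, h1] at h3
  rw [← h3]
  exact h2.symm


end J_expo_eq

alias expo_eq := J_expo_eq.expo_eq

end Pool.Agent.Helper10.Dupin
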