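import Mathlib
import Pool.Agent.Helper10.Dupin.Base

open MeasureTheory Set Filter Topology
open scoped ENNReal NNReal ContDiff

noncomputable section

namespace Pool.Agent.Helper10.Dupin

namespace J_tangent_circle


-- TARGET: prove this (put auxiliary lemmas between the ASSUMED END line and the theorem)

theorem tangent_circle {x : V} (hx : x ∈ circle) : tangent circle x = {u | ∃ a : ℝ, u = a • J x} := by
  obtain ⟨hx1, hx2⟩ := hx
  have hn : x.1.re * x.1.re + x.1.im * x.1.im = 1 := by
    rw [← Complex.normSq_apply, Complex.normSq_eq_norm_sq, hx1]; norm_num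
  ext u
  constructor
  · rintro ⟨c, hc, hc0, hd⟩
    have hd1 : HasDerivAt (fun s => (c s).1) u.1 0 := hd.fst
    have hd2 : HasDerivAt (fun s => (c s).2) u.2 0 := hd.snd
    have hu2 : u.2 = 0 := by
      have : (fun s => (c s).2) = fun _ => 0 := by funext s; exact (hc s).2
      rw [this] at hd2
      exact hd2.unique (hasDerivAt_const _ _)
    have hre : HasDerivAt (fun s => (c s).1.re) u.1.re 0 :=
      Complex.reCLM.hasFDerivAt.comp_hasDerivAt (0:ℝ) hd1
    have him : HasDerivAt (fun s => (c s).1.im) u.1.im 0 :=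
      Complex.imCLM.hasFDerivAt.comp_hasDerivAt (0:ℝ) hd1
    have hq := (hre.mul hre).add (him.mul him)
    have hconst : ((fun s => (c s).1.re) * (fun s => (c s).1.re) +
        (fun s => (c s).1.im) * (fun s => (c s).1.im)) = fun _ => (1:ℝ) := by
      funext s
      have := (hc s).1
      simp only [Pi.add_apply, Pi.mul_apply]
      rw [← Complex.normSq_apply, Complex.normSq_eq_norm_sq, this]; norm_num
    rw [hconst] at hq
    have h0 := hq.unique (hasDerivAt_const _ _)
    rw [hc0] at h0
    refine ⟨x.1.re * u.1.im - x.1.im * u.1.re, ?_⟩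
    apply Prod.ext
    · apply Complex.ext
      · simp [J]
        linear_combination (-u.1.re) * hn + (x.1.re / 2) * h0
      · simp [J]
        linear_combination (-u.1.im) * hn + (x.1.im / 2) * h0
    · simp [J, hx2, hu2]
  · rintro ⟨a, rfl⟩
    refine ⟨fun s => (Complex.exp (((a * s : ℝ) : ℂ) * Complex.I) * x.1, 0), ?_, ?_, ?_⟩
    · intro s
      refine ⟨?_, rfl⟩
      change ‖Complex.exp (((a * s : ℝ) : ℂ) * Complex.I) * x.1‖ = 1
      rw [norm_mul, Complex.norm_exp_ofReal_mul_I, hx1, mul_one]
    · apply Prod.ext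
      · simp
      · simp [hx2]
    · have h1 : HasDerivAt (fun s : ℝ => ((a * s : ℝ) : ℂ) * Complex.I) ((a : ℂ) * Complex.I) 0 := by
        have := ((hasDerivAt_id (0:ℝ)).const_mul a).ofReal_comp.mul_const Complex.I
        simpa using this
      have h3 := h1.cexp.mul_const x.1
      have h4 : HasDerivAt (fun _ : ℝ => (0:ℂ)) 0 0 := hasDerivAt_const _ _
      have h5 := h3.prodMk h4
      have h6 : a • J x = (Complex.exp (((a * 0 : ℝ) : ℂ) * Complex.I) * ((a : ℂ) * Complex.I) * x.1, 0) := by
        apply Prod.ext
        · simp [J]; ring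
        · simp [J, hx2]
      rw [h6]
      exact h5


end J_tangent_circle

alias tangent_circle := J_tangent_circle.tangent_circle

end Pool.Agent.Helper10.Dupin
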