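import Mathlib
import Pool.Agent.Helper10.Dupin.Base
import Pool.Agent.Helper10.Dupin.J_tangent_circle

open MeasureTheory Set Filter Topology
open scoped ENNReal NNReal ContDiff

noncomputable section

namespace Pool.Agent.Helper10.Dupin

namespace J_mem_nb


-- TARGET: prove this (put auxiliary lemmas between the ASSUMED END line and the theorem)

theorem mem_nb_aux {x v : V} (hx : x ∈ circle) (a : ℝ) :
    cheeger.g x v (a • J x) = a * om x v / 2 := by
  obtain ⟨h1, h2⟩ := hx
  have h3 : x.1.re * x.1.re + x.1.im * x.1.im = 1 := by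
    have := Complex.normSq_eq_norm_sq x.1
    rw [h1, Complex.normSq_apply] at this
    rw [this]; norm_num
  have hrho : rho x = 2 := by
    unfold rho ip
    rw [h2]
    simp only [Complex.zero_re, Complex.zero_im, mul_zero, add_zero]
    linarith
  have hJ : om x (a • J x) = a := by
    simp only [om, ip, J, h2, Prod.smul_fst, Prod.smul_snd, Complex.real_smul, Complex.mul_re,
      Complex.mul_im, Complex.ofReal_re, Complex.ofReal_im, Complex.I_re, Complex.I_im,
      Complex.zero_re, Complex.zero_im, zero_mul, mul_zero, sub_zero, add_zero, zero_sub, zero_add,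
      one_mul]
    linear_combination a * h3
  have hv : ip v (a • J x) = a * om x v := by
    simp only [om, ip, J, Prod.smul_fst, Prod.smul_snd, Complex.real_smul, Complex.mul_re,
      Complex.mul_im, Complex.ofReal_re, Complex.ofReal_im, zero_mul, sub_zero, add_zero]
    ring
  show ip v (a • J x) - om x v * om x (a • J x) / rho x = _
  rw [hrho, hJ, hv]
  ring

theorem mem_nb {z : V × V} : z ∈ normalBundle cheeger circle ↔ z.1 ∈ circle ∧ om z.1 z.2 = 0 := by
  constructor
  · rintro ⟨h1, h2⟩
    refine ⟨h1, ?_⟩
    have h3 := h2 ((1 : ℝ) • J z.1) (by rw [tangent_circle h1]; exact ⟨1, rfl⟩)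
    rw [mem_nb_aux h1] at h3
    linarith
  · rintro ⟨h1, h2⟩
    refine ⟨h1, ?_⟩
    intro u hu
    rw [tangent_circle h1] at hu
    obtain ⟨a, rfl⟩ := hu
    rw [mem_nb_aux h1, h2]
    simp


end J_mem_nb

alias mem_nb := J_mem_nb.mem_nb

end Pool.Agent.Helper10.Dupin
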