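import Mathlib
import Pool.Agent.Helper10.Dupin.Base
import Pool.Agent.Helper10.Dupin.J_expo_eq
import Pool.Agent.Helper10.Dupin.J_mem_nb

open MeasureTheory Set Filter Topology
open scoped ENNReal NNReal ContDiff

noncomputable section

namespace Pool.Agent.Helper10.Dupin

namespace J_expo_nb


-- TARGET: prove this (put auxiliary lemmas between the ASSUMED END line and the theorem)

theorem expo_nb {z : V × V} (hz : z ∈ normalBundle cheeger circle) : expo cheeger z = z.1 + z.2 := by
  have h := (mem_nb.1 hz).2
  rw [expo_eq]
  unfold geo
  rw [h]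
  simp


end J_expo_nb

alias expo_nb := J_expo_nb.expo_nb

end Pool.Agent.Helper10.Dupin
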