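import Mathlib
import Pool.Agent.Helper10.Dupin.Base
import Pool.Agent.Helper10.Dupin.J_mem_nb

open MeasureTheory Set Filter Topology
open scoped ENNReal NNReal ContDiff

noncomputable section

namespace Pool.Agent.Helper10.Dupin

namespace J_nb_decomp


-- TARGET: prove this (put auxiliary lemmas between the ASSUMED END line and the theorem)

theorem nb_decomp {z : V × V} (hz : z ∈ normalBundle cheeger circle) :
    z.1.2 = 0 ∧ ‖z.1.1‖ = 1 ∧ z.2.1 = ((ip z.2 z.1 : ℝ) : ℂ) * z.1.1 := by
  obtain ⟨⟨h1, h2⟩, hom⟩ := mem_nb.1 hz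
  refine ⟨h2, h1, ?_⟩
  have hn : z.1.1.re * z.1.1.re + z.1.1.im * z.1.1.im = 1 := by
    have h3 := Complex.normSq_eq_norm_sq z.1.1
    rw [h1, Complex.normSq_apply] at h3
    linarith
  have ho : z.2.1.im * z.1.1.re = z.2.1.re * z.1.1.im := by
    simp only [om, ip, J, h2, Complex.mul_re, Complex.mul_im, Complex.I_re, Complex.I_im,
      Complex.zero_re, Complex.zero_im, mul_zero] at hom
    linarith
  have hip : ip z.2 z.1 = z.2.1.re * z.1.1.re + z.2.1.im * z.1.1.im := by
    simp only [ip, h2, Complex.zero_re, Complex.zero_im, mul_zero, add_zero]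
  rw [hip]
  apply Complex.ext
  · rw [Complex.mul_re, Complex.ofReal_re, Complex.ofReal_im]
    linear_combination (-z.2.1.re) * hn + (-z.1.1.im) * ho
  · rw [Complex.mul_im, Complex.ofReal_re, Complex.ofReal_im]
    linear_combination (-z.2.1.im) * hn + (z.1.1.re) * ho


end J_nb_decomp

alias nb_decomp := J_nb_decomp.nb_decomp

end Pool.Agent.Helper10.Dupin
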