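import Mathlib
import Pool.Agent.Helper10.Dupin.Base
import Pool.Agent.Helper10.Dupin.J_mem_nb

open MeasureTheory Set Filter Topology
open scoped ENNReal NNReal ContDiff

noncomputable section

namespace Pool.Agent.Helper10.Dupin

namespace J_nb_mk


-- TARGET: prove this (put auxiliary lemmas between the ASSUMED END line and the theorem)

theorem nb_mk (e : ℂ) (he : ‖e‖ = 1) (s : ℝ) (w : ℂ) :
    (((e, 0), ((s : ℂ) * e, w)) : V × V) ∈ normalBundle cheeger circle ∧
      ip (((s : ℂ) * e, w) : V) ((e, 0) : V) = s := by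
  have h1 : e.re * e.re + e.im * e.im = 1 := by
    have h2 : ‖e‖ ^ 2 = 1 := by rw [he]; norm_num
    rw [Complex.sq_norm, Complex.normSq_apply] at h2
    exact h2
  refine ⟨mem_nb.2 ⟨⟨he, rfl⟩, ?_⟩, ?_⟩
  · simp only [om, ip, J, Complex.mul_re, Complex.mul_im, Complex.I_re, Complex.I_im,
      Complex.ofReal_re, Complex.ofReal_im, Complex.zero_re, Complex.zero_im]
    ring
  · simp only [ip, Complex.mul_re, Complex.mul_im,
      Complex.ofReal_re, Complex.ofReal_im, Complex.zero_re, Complex.zero_im]
    linear_combination s * h1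


end J_nb_mk

alias nb_mk := J_nb_mk.nb_mk

end Pool.Agent.Helper10.Dupin
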