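import Mathlib
import Pool.Agent.Helper10.Dupin.Base
import Pool.Agent.Helper10.Dupin.J_mem_nb
import Pool.Agent.Helper10.Dupin.J_expo_nb
import Pool.Agent.Helper10.Dupin.J_nb_decomp
import Pool.Agent.Helper10.Dupin.J_nb_mk

open MeasureTheory Set Filter Topology
open scoped ENNReal NNReal ContDiff

noncomputable section

namespace Pool.Agent.Helper10.Dupin

namespace J_kernel_eq


-- TARGET: prove this (put auxiliary lemmas between the ASSUMED END line and the theorem)

theorem kernel_eq_sup {z : V × V} (hz : z ∈ normalBundle cheeger circle) (h : ip z.2 z.1 = -1) (a : ℝ) :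
    (a • (J z.1, -J z.1) : V × V) ∈ focalKernel cheeger circle z := by
  obtain ⟨h1, h2, h3⟩ := nb_decomp hz
  rw [h] at h3
  set e : ℝ → ℂ := fun s => Complex.exp ((s : ℂ) * (a * Complex.I)) * z.1.1 with he
  set c : ℝ → V × V := fun s => ((e s, 0), (((-1 : ℝ) : ℂ) * e s, z.2.2)) with hc
  have hnorm : ∀ s, ‖e s‖ = 1 := by
    intro s
    simp only [he]
    rw [norm_mul, h2, mul_one, show (s : ℂ) * (a * Complex.I) = ((s * a : ℝ) : ℂ) * Complex.I by push_cast; ring,
      Complex.norm_exp_ofReal_mul_I]
  have hnb : ∀ s, c s ∈ normalBundle cheeger circle := fun s => (nb_mk (e s) (hnorm s) (-1) z.2.2).1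
  have he0 : e 0 = z.1.1 := by simp [he]
  have hde : HasDerivAt e (a * Complex.I * z.1.1) 0 := by
    have h4 : HasDerivAt (fun s : ℝ => (s : ℂ) * (a * Complex.I)) (1 * (a * Complex.I)) 0 :=
      (Complex.ofRealCLM.hasDerivAt (x := (0:ℝ))).mul_const _
    have h5 := (h4.cexp).mul_const z.1.1
    simpa [he] using h5
  refine ⟨c, hnb, ?_, ?_, ?_⟩
  · simp only [hc, he0]
    ext <;> simp [h1, h3]
  · have h6 : HasDerivAt c ((a * Complex.I * z.1.1, 0), (((-1 : ℝ) : ℂ) * (a * Complex.I * z.1.1), 0)) 0 :=
      (hde.prodMk (hasDerivAt_const _ _)).prodMk ((hde.const_mul _).prodMk (hasDerivAt_const _ _))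
    have h7 : (a • (J z.1, -J z.1) : V × V) =
        ((a * Complex.I * z.1.1, 0), (((-1 : ℝ) : ℂ) * (a * Complex.I * z.1.1), 0)) := by
      unfold J
      rw [h1]
      ext <;> simp [mul_assoc]
    rw [h7]
    exact h6
  · have h8 : (fun s => expo cheeger (c s)) = fun _ => ((0, z.2.2) : V) := by
      funext s
      rw [expo_nb (hnb s)]
      simp [hc]
    rw [h8]
    exact hasDerivAt_const _ _

theorem kernel_eq {z : V × V} (hz : z ∈ normalBundle cheeger circle) (h : ip z.2 z.1 = -1) :
    focalKernel cheeger circle z = {w | ∃ a : ℝ, w = a • (J z.1, -J z.1)} := by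
  
  obtain ⟨h1, h2, h3⟩ := nb_decomp hz
  rw [h] at h3
  apply Set.Subset.antisymm
  · rintro w ⟨c, hc, hc0, hcw, hexp⟩
    have d1 : HasDerivAt (fun s => (c s).1) w.1 0 := by
      have := (ContinuousLinearMap.fst ℝ V V).hasFDerivAt.comp_hasDerivAt (0:ℝ) hcw
      exact this
    have d2 : HasDerivAt (fun s => (c s).2) w.2 0 := by
      have := (ContinuousLinearMap.snd ℝ V V).hasFDerivAt.comp_hasDerivAt (0:ℝ) hcw
      exact this
    have d11 : HasDerivAt (fun s => (c s).1.1) w.1.1 0 := by
      have := (ContinuousLinearMap.fst ℝ ℂ ℂ).hasFDerivAt.comp_hasDerivAt (0:ℝ) d1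
      exact this
    have d12 : HasDerivAt (fun s => (c s).1.2) w.1.2 0 := by
      have := (ContinuousLinearMap.snd ℝ ℂ ℂ).hasFDerivAt.comp_hasDerivAt (0:ℝ) d1
      exact this
    have hsum : w.1 + w.2 = 0 := by
      have e1 : (fun s => expo cheeger (c s)) = fun s => (c s).1 + (c s).2 := by
        funext s; exact expo_nb (hc s)
      rw [e1] at hexp
      exact (d1.add d2).unique hexp
    have hw12 : w.1.2 = 0 := by
      have e2 : (fun s => (c s).1.2) = fun _ => (0:ℂ) := by
        funext s; exact (nb_decomp (hc s)).1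
      rw [e2] at d12
      exact d12.unique (hasDerivAt_const _ _)
    have dre : HasDerivAt (fun s => ((c s).1.1).re) w.1.1.re 0 := by
      have := Complex.reCLM.hasFDerivAt.comp_hasDerivAt (0:ℝ) d11
      exact this
    have dim : HasDerivAt (fun s => ((c s).1.1).im) w.1.1.im 0 := by
      have := Complex.imCLM.hasFDerivAt.comp_hasDerivAt (0:ℝ) d11
      exact this
    have dsq := (dre.mul dre).add (dim.mul dim)
    have e3 : ((fun s => ((c s).1.1).re) * (fun s => ((c s).1.1).re) +
        (fun s => ((c s).1.1).im) * (fun s => ((c s).1.1).im)) = fun _ => (1:ℝ) := by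
      funext s
      have h5 := (nb_decomp (hc s)).2.1
      have h6 : Complex.normSq ((c s).1.1) = 1 := by
        rw [Complex.normSq_eq_norm_sq, h5]; norm_num
      rw [Complex.normSq_apply] at h6
      exact h6
    rw [e3] at dsq
    have hort := dsq.unique (hasDerivAt_const _ _)
    beta_reduce at hort
    rw [hc0] at hort
    have hx : z.1.1.re * z.1.1.re + z.1.1.im * z.1.1.im = 1 := by
      have h6 : Complex.normSq (z.1.1) = 1 := by
        rw [Complex.normSq_eq_norm_sq, h2]; norm_num
      rwa [Complex.normSq_apply] at h6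
    refine ⟨z.1.1.re * w.1.1.im - z.1.1.im * w.1.1.re, ?_⟩
    have hw2 : w.2 = -w.1 := by
      rw [add_comm] at hsum
      exact eq_neg_of_add_eq_zero_left hsum
    have hw1 : w.1 = (z.1.1.re * w.1.1.im - z.1.1.im * w.1.1.re) • J z.1 := by
      unfold J
      rw [h1]
      apply Prod.ext
      · apply Complex.ext
        · simp
          linear_combination (-w.1.1.re) * hx + (z.1.1.re / 2) * hort
        · simp
          linear_combination (-w.1.1.im) * hx + (z.1.1.im / 2) * hort
      · simp [hw12]
    apply Prod.ext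
    · exact hw1
    · rw [hw2]
      conv_lhs => rw [hw1]
      simp
  · rintro w ⟨a, rfl⟩
    exact kernel_eq_sup hz h a



end J_kernel_eq

alias kernel_eq := J_kernel_eq.kernel_eq

end Pool.Agent.Helper10.Dupin
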