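import Mathlib
import Pool.Agent.Helper10.Dupin.Base
import Pool.Agent.Helper10.Dupin.J_mem_nb
import Pool.Agent.Helper10.Dupin.J_expo_nb
import Pool.Agent.Helper10.Dupin.J_nb_decomp

open MeasureTheory Set Filter Topology
open scoped ENNReal NNReal ContDiff

noncomputable section

namespace Pool.Agent.Helper10.Dupin

namespace J_kernel_ne


-- TARGET: prove this (put auxiliary lemmas between the ASSUMED END line and the theorem)

theorem kernel_ne {z : V × V} (hz : z ∈ normalBundle cheeger circle) (h : ip z.2 z.1 ≠ -1) :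
    focalKernel cheeger circle z ⊆ {0} := by
  rintro w ⟨c, hc, hc0, hcw, hexp⟩
  -- derivative of linear images
  have hL : ∀ {G : Type} [NormedAddCommGroup G] [NormedSpace ℝ G] (L : (V × V) →L[ℝ] G),
      HasDerivAt (fun s => L (c s)) (L w) 0 := by
    intro G _ _ L
    exact L.hasFDerivAt.comp_hasDerivAt 0 hcw
  -- `w.1 + w.2 = 0`
  have hsum : w.1 + w.2 = 0 := by
    have h1 := hL (ContinuousLinearMap.fst ℝ V V + ContinuousLinearMap.snd ℝ V V)
    have h2 : (fun s => (ContinuousLinearMap.fst ℝ V V + ContinuousLinearMap.snd ℝ V V) (c s)) =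
        fun s => expo cheeger (c s) := by
      funext s
      rw [expo_nb (hc s)]
      rfl
    rw [h2] at h1
    exact h1.unique hexp
  have h12 : w.1.2 = 0 := by
    have h1 := hL ((ContinuousLinearMap.snd ℝ ℂ ℂ).comp (ContinuousLinearMap.fst ℝ V V))
    have h2 : (fun s => ((ContinuousLinearMap.snd ℝ ℂ ℂ).comp (ContinuousLinearMap.fst ℝ V V)) (c s)) =
        fun _ => (0 : ℂ) := by
      funext s
      exact (nb_decomp (hc s)).1
    rw [h2] at h1
    exact h1.unique (hasDerivAt_const 0 (0 : ℂ))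
  have hre1 : HasDerivAt (fun s => (c s).1.1.re) w.1.1.re 0 :=
    hL (Complex.reCLM.comp ((ContinuousLinearMap.fst ℝ ℂ ℂ).comp (ContinuousLinearMap.fst ℝ V V)))
  have him1 : HasDerivAt (fun s => (c s).1.1.im) w.1.1.im 0 :=
    hL (Complex.imCLM.comp ((ContinuousLinearMap.fst ℝ ℂ ℂ).comp (ContinuousLinearMap.fst ℝ V V)))
  have hre2 : HasDerivAt (fun s => (c s).2.1.re) w.2.1.re 0 :=
    hL (Complex.reCLM.comp ((ContinuousLinearMap.fst ℝ ℂ ℂ).comp (ContinuousLinearMap.snd ℝ V V)))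
  have him2 : HasDerivAt (fun s => (c s).2.1.im) w.2.1.im 0 :=
    hL (Complex.imCLM.comp ((ContinuousLinearMap.fst ℝ ℂ ℂ).comp (ContinuousLinearMap.snd ℝ V V)))
  have hnorm : ∀ s, (c s).1.1.re * (c s).1.1.re + (c s).1.1.im * (c s).1.1.im = 1 := by
    intro s
    have h1 := (nb_decomp (hc s)).2.1
    rw [← Complex.normSq_apply, Complex.normSq_eq_norm_sq, h1, one_pow]
  have hpar : ∀ s, (c s).2.1.im * (c s).1.1.re - (c s).2.1.re * (c s).1.1.im = 0 := by
    intro s
    have h1 := (nb_decomp (hc s)).2.2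
    rw [h1, Complex.mul_re, Complex.mul_im, Complex.ofReal_re, Complex.ofReal_im]
    ring
  have d1 : HasDerivAt (fun s => (c s).1.1.re * (c s).1.1.re + (c s).1.1.im * (c s).1.1.im)
      (w.1.1.re * (c 0).1.1.re + (c 0).1.1.re * w.1.1.re +
        (w.1.1.im * (c 0).1.1.im + (c 0).1.1.im * w.1.1.im)) 0 :=
    (hre1.mul hre1).add (him1.mul him1)
  have d2 : HasDerivAt (fun s => (c s).2.1.im * (c s).1.1.re - (c s).2.1.re * (c s).1.1.im)
      (w.2.1.im * (c 0).1.1.re + (c 0).2.1.im * w.1.1.re -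
        (w.2.1.re * (c 0).1.1.im + (c 0).2.1.re * w.1.1.im)) 0 :=
    (him2.mul hre1).sub (hre2.mul him1)
  have e1 := d1
  rw [show (fun s => (c s).1.1.re * (c s).1.1.re + (c s).1.1.im * (c s).1.1.im) =
    fun _ => (1 : ℝ) from funext hnorm] at e1
  have f1 := e1.unique (hasDerivAt_const 0 (1 : ℝ))
  have e2 := d2
  rw [show (fun s => (c s).2.1.im * (c s).1.1.re - (c s).2.1.re * (c s).1.1.im) =
    fun _ => (0 : ℝ) from funext hpar] at e2
  have f2 := e2.unique (hasDerivAt_const 0 (0 : ℝ))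
  have hn0 := hnorm 0
  have hv := (nb_decomp hz).2.2
  rw [hc0] at f1 f2 hn0
  set r := ip z.2 z.1 with hr
  have hvre : z.2.1.re = r * z.1.1.re := by
    rw [hv, Complex.mul_re, Complex.ofReal_re, Complex.ofReal_im]; ring
  have hvim : z.2.1.im = r * z.1.1.im := by
    rw [hv, Complex.mul_im, Complex.ofReal_re, Complex.ofReal_im]; ring
  have hs1 : w.1.1 + w.2.1 = 0 := congrArg Prod.fst hsum
  have hs2 : w.1.2 + w.2.2 = 0 := congrArg Prod.snd hsum
  have hsre : w.1.1.re + w.2.1.re = 0 := by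
    have := congrArg Complex.re hs1
    simpa using this
  have hsim : w.1.1.im + w.2.1.im = 0 := by
    have := congrArg Complex.im hs1
    simpa using this
  have hb1 : w.2.1.re = -w.1.1.re := by linarith
  have hb2 : w.2.1.im = -w.1.1.im := by linarith
  rw [hvre, hvim, hb1, hb2] at f2
  have hr1 : 1 + r ≠ 0 := fun h0 => h (by linarith)
  have g2 : (1 + r) * (w.1.1.re * z.1.1.im - w.1.1.im * z.1.1.re) = 0 := by linarith
  have g3 : w.1.1.re * z.1.1.im - w.1.1.im * z.1.1.re = 0 := by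
    rcases mul_eq_zero.1 g2 with h0 | h0
    · exact absurd h0 hr1
    · exact h0
  have g1 : w.1.1.re * z.1.1.re + w.1.1.im * z.1.1.im = 0 := by linarith
  have g4 : w.1.1.re ^ 2 + w.1.1.im ^ 2 = 0 := by
    have : w.1.1.re ^ 2 + w.1.1.im ^ 2 =
        (w.1.1.re ^ 2 + w.1.1.im ^ 2) * (z.1.1.re * z.1.1.re + z.1.1.im * z.1.1.im) := by
      rw [hn0, mul_one]
    rw [this]
    have e : (w.1.1.re ^ 2 + w.1.1.im ^ 2) * (z.1.1.re * z.1.1.re + z.1.1.im * z.1.1.im) =
        (w.1.1.re * z.1.1.im - w.1.1.im * z.1.1.re) ^ 2 +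
        (w.1.1.re * z.1.1.re + w.1.1.im * z.1.1.im) ^ 2 := by ring
    rw [e, g3, g1]; ring
  have g5 : w.1.1.re = 0 := by nlinarith [sq_nonneg w.1.1.re, sq_nonneg w.1.1.im]
  have g6 : w.1.1.im = 0 := by nlinarith [sq_nonneg w.1.1.re, sq_nonneg w.1.1.im]
  have hw11 : w.1.1 = 0 := Complex.ext g5 g6
  have hw21 : w.2.1 = 0 := by rw [hw11, zero_add] at hs1; exact hs1
  have hw22 : w.2.2 = 0 := by rw [h12, zero_add] at hs2; exact hs2
  rw [Set.mem_singleton_iff]
  exact Prod.ext (Prod.ext hw11 h12) (Prod.ext hw21 hw22)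


end J_kernel_ne

alias kernel_ne := J_kernel_ne.kernel_ne

end Pool.Agent.Helper10.Dupin
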