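import Mathlib
import Pool.Agent.Helper10.Dupin.Base
import Pool.Agent.Helper10.Dupin.J_kernel_ne
import Pool.Agent.Helper10.Dupin.J_kernel_eq
import Pool.Agent.Helper10.Dupin.J_nb_decomp

open MeasureTheory Set Filter Topology
open scoped ENNReal NNReal ContDiff

noncomputable section

namespace Pool.Agent.Helper10.Dupin

namespace J_mult_eq


-- TARGET: prove this (put auxiliary lemmas between the ASSUMED END line and the theorem)

theorem mult_eq_J_ne {z : V} (h : ‖z.1‖ = 1) : (J z, -J z) ≠ (0 : V × V) := by
  intro h0
  have h1 : J z = 0 := congrArg Prod.fst h0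
  have h2 : Complex.I * z.1 = 0 := congrArg Prod.fst h1
  rcases mul_eq_zero.1 h2 with h3 | h3
  · exact Complex.I_ne_zero h3
  · rw [h3, norm_zero] at h
    exact zero_ne_one h

theorem mult_eq {z : V × V} (hz : z ∈ normalBundle cheeger circle) :
    multiplicity cheeger circle z = if ip z.2 z.1 = -1 then 1 else 0 := by
  unfold multiplicity
  split_ifs with h
  · obtain ⟨-, h2, -⟩ := nb_decomp hz
    have e : Submodule.span ℝ (focalKernel cheeger circle z) =
        Submodule.span ℝ {((J z.1, -J z.1) : V × V)} := by
      rw [kernel_eq hz h]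
      apply le_antisymm
      · rw [Submodule.span_le]
        rintro w ⟨a, rfl⟩
        exact Submodule.smul_mem _ a (Submodule.mem_span_singleton_self _)
      · rw [Submodule.span_le, Set.singleton_subset_iff]
        exact Submodule.subset_span ⟨1, (one_smul ℝ _).symm⟩
    rw [e]
    exact finrank_span_singleton (mult_eq_J_ne h2)
  · have e : Submodule.span ℝ (focalKernel cheeger circle z) = ⊥ := by
      rw [Submodule.span_eq_bot]
      intro w hw
      exact kernel_ne hz h hw
    rw [e]
    exact finrank_bot ℝ (V × V)


end J_mult_eq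

alias mult_eq := J_mult_eq.mult_eq

end Pool.Agent.Helper10.Dupin
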