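import Mathlib
import Pool.Agent.Helper10.Dupin.Base
import Pool.Agent.Helper10.Dupin.J_mem_nb
import Pool.Agent.Helper10.Dupin.J_mult_eq

open MeasureTheory Set Filter Topology
open scoped ENNReal NNReal ContDiff

noncomputable section

namespace Pool.Agent.Helper10.Dupin

namespace J_index_eq


-- TARGET: prove this (put auxiliary lemmas between the ASSUMED END line and the theorem)

theorem index_eq {z : V × V} (hz : z ∈ normalBundle cheeger circle) :
    index cheeger circle z = if ip z.2 z.1 < -1 then 1 else 0 := by
  classical
  obtain ⟨hc, ho⟩ := mem_nb.1 hz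
  have hmem : ∀ t : ℝ, ((z.1, t • z.2) : V × V) ∈ normalBundle cheeger circle := by
    intro t
    rw [mem_nb]
    refine ⟨hc, ?_⟩
    have : om z.1 (t • z.2) = t * om z.1 z.2 := by
      simp only [om, ip, J, Prod.smul_fst, Prod.smul_snd, Complex.smul_re, Complex.smul_im,
        smul_eq_mul]
      ring
    simp only
    rw [this, ho, mul_zero]
  have hip : ∀ t : ℝ, ip (t • z.2) z.1 = t * ip z.2 z.1 := by
    intro t
    simp only [ip, Prod.smul_fst, Prod.smul_snd, Complex.smul_re, Complex.smul_im, smul_eq_mul]
    ring
  have hm : ∀ t : ℝ, multiplicity cheeger circle (z.1, t • z.2)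
      = if t * ip z.2 z.1 = -1 then 1 else 0 := by
    intro t
    have h := mult_eq (hmem t)
    simp only [hip] at h
    exact h
  unfold index
  simp only [hm]
  set r := ip z.2 z.1 with hr
  by_cases h : r < -1
  · rw [if_pos h]
    have hr0 : r ≠ 0 := by intro h0; rw [h0] at h; linarith
    rw [finsum_mem_inter_support_eq (t := {-1 / r})]
    · rw [finsum_mem_singleton, if_pos (by field_simp)]
    · ext t
      simp only [mem_inter_iff, mem_Ioo, Function.mem_support, ne_eq, ite_eq_right_iff,
        one_ne_zero, imp_false, not_not, mem_singleton_iff]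
      constructor
      · rintro ⟨_, h1⟩
        refine ⟨?_, h1⟩
        rw [eq_div_iff hr0]; exact h1
      · rintro ⟨h1, h2⟩
        refine ⟨?_, h2⟩
        rw [h1]
        constructor
        · apply div_pos_of_neg_of_neg <;> linarith
        · rw [div_lt_one_of_neg (by linarith)]
          exact h
  · rw [if_neg h]
    apply finsum_mem_eq_zero_of_forall_eq_zero
    intro t ht
    rw [if_neg]
    intro h1
    apply h
    obtain ⟨h2, h3⟩ := ht
    nlinarith


end J_index_eq

alias index_eq := J_index_eq.index_eq

end Pool.Agent.Helper10.Dupin
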