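import Mathlib
import Pool.Agent.Helper10.Dupin.Base
import Pool.Agent.Helper10.Dupin.J_mem_nb
import Pool.Agent.Helper10.Dupin.J_expo_nb
import Pool.Agent.Helper10.Dupin.J_nb_decomp
import Pool.Agent.Helper10.Dupin.J_nb_mk
import Pool.Agent.Helper10.Dupin.J_index_eq

open MeasureTheory Set Filter Topology
open scoped ENNReal NNReal ContDiff

noncomputable section

namespace Pool.Agent.Helper10.Dupin

namespace J_count


-- TARGET: prove this (put auxiliary lemmas between the ASSUMED END line and the theorem)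

theorem count_aux {p : V} (hp : p.1 ≠ 0) (z : V × V) (hz : z ∈ normalBundle cheeger circle)
    (he : expo cheeger z = p) :
    (z = (((p.1 / (‖p.1‖ : ℂ), 0) : V), ((((‖p.1‖ - 1 : ℝ) : ℂ) * (p.1 / (‖p.1‖ : ℂ)), p.2) : V)) ∧
        index cheeger circle z = 0) ∨
    (z = (((-(p.1 / (‖p.1‖ : ℂ)), 0) : V), ((((-‖p.1‖ - 1 : ℝ) : ℂ) * (-(p.1 / (‖p.1‖ : ℂ))), p.2) : V)) ∧
        index cheeger circle z = 1) := by
  have hr : 0 < ‖p.1‖ := norm_pos_iff.mpr hp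
  have hrc : ((‖p.1‖ : ℝ) : ℂ) ≠ 0 := by exact_mod_cast hr.ne'
  obtain ⟨h12, h11, h21⟩ := nb_decomp hz
  have hi := index_eq hz
  rw [expo_nb hz] at he
  set s : ℝ := ip z.2 z.1 with hs
  have e1 : z.1.1 + z.2.1 = p.1 := by rw [← he]; rfl
  have e2 : z.2.2 = p.2 := by
    rw [← he]
    show z.2.2 = z.1.2 + z.2.2
    rw [h12, zero_add]
  have e3 : ((1 + s : ℝ) : ℂ) * z.1.1 = p.1 := by
    rw [← e1, h21]; push_cast; ring
  have e4 : |1 + s| = ‖p.1‖ := by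
    rw [← e3, norm_mul, h11, mul_one, Complex.norm_real, Real.norm_eq_abs]
  rcases abs_choice (1 + s) with h | h
  · left
    rw [h] at e4
    have hz11 : z.1.1 = p.1 / (‖p.1‖ : ℂ) := by
      rw [← e4] at hrc ⊢
      rw [eq_div_iff hrc, mul_comm]; exact e3
    have hsr : s = ‖p.1‖ - 1 := by linarith
    refine ⟨?_, ?_⟩
    · have hz1 : z.1 = (p.1 / (‖p.1‖ : ℂ), 0) := Prod.ext hz11 h12
      have hz2 : z.2 = (((‖p.1‖ - 1 : ℝ) : ℂ) * (p.1 / (‖p.1‖ : ℂ)), p.2) := by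
        refine Prod.ext ?_ e2
        show z.2.1 = _
        rw [h21, hz11, hsr]
      exact Prod.ext hz1 hz2
    · rw [hi, if_neg]; linarith
  · right
    rw [h] at e4
    have hz11 : z.1.1 = -(p.1 / (‖p.1‖ : ℂ)) := by
      rw [← e4] at hrc ⊢
      rw [← neg_div, eq_div_iff hrc, ← e3]; push_cast; ring
    have hsr : s = -‖p.1‖ - 1 := by linarith
    refine ⟨?_, ?_⟩
    · have hz1 : z.1 = (-(p.1 / (‖p.1‖ : ℂ)), 0) := Prod.ext hz11 h12
      have hz2 : z.2 = (((-‖p.1‖ - 1 : ℝ) : ℂ) * (-(p.1 / (‖p.1‖ : ℂ))), p.2) := by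
        refine Prod.ext ?_ e2
        show z.2.1 = _
        rw [h21, hz11, hsr]
      exact Prod.ext hz1 hz2
    · rw [hi, if_pos]; linarith

theorem count {p : V} (hp : p.1 ≠ 0) (k : ℕ) :
    {z ∈ normalBundle cheeger circle | expo cheeger z = p ∧ index cheeger circle z = k}.encard =
      if k ≤ 1 then 1 else 0 := by
  have hr : 0 < ‖p.1‖ := norm_pos_iff.mpr hp
  have hrc : ((‖p.1‖ : ℝ) : ℂ) ≠ 0 := by exact_mod_cast hr.ne'
  have hne : ‖p.1 / (‖p.1‖ : ℂ)‖ = 1 := by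
    rw [norm_div, Complex.norm_real, norm_norm, div_self hr.ne']
  have hne' : ‖-(p.1 / (‖p.1‖ : ℂ))‖ = 1 := by rw [norm_neg, hne]
  obtain ⟨hm0, hi0⟩ := nb_mk _ hne (‖p.1‖ - 1) p.2
  obtain ⟨hm1, hi1⟩ := nb_mk _ hne' (-‖p.1‖ - 1) p.2
  have hx0 : expo cheeger (((p.1 / (‖p.1‖ : ℂ), 0) : V), ((((‖p.1‖ - 1 : ℝ) : ℂ) * (p.1 / (‖p.1‖ : ℂ)), p.2) : V)) = p := by
    rw [expo_nb hm0]
    refine Prod.ext ?_ ?_
    · show p.1 / (‖p.1‖ : ℂ) + ((‖p.1‖ - 1 : ℝ) : ℂ) * (p.1 / (‖p.1‖ : ℂ)) = p.1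
      push_cast; field_simp; ring
    · show (0 : ℂ) + p.2 = p.2
      rw [zero_add]
  have hx1 : expo cheeger (((-(p.1 / (‖p.1‖ : ℂ)), 0) : V), ((((-‖p.1‖ - 1 : ℝ) : ℂ) * (-(p.1 / (‖p.1‖ : ℂ))), p.2) : V)) = p := by
    rw [expo_nb hm1]
    refine Prod.ext ?_ ?_
    · show -(p.1 / (‖p.1‖ : ℂ)) + ((-‖p.1‖ - 1 : ℝ) : ℂ) * (-(p.1 / (‖p.1‖ : ℂ))) = p.1
      push_cast; field_simp; ring
    · show (0 : ℂ) + p.2 = p.2
      rw [zero_add]
  have hj0 : index cheeger circle (((p.1 / (‖p.1‖ : ℂ), 0) : V), ((((‖p.1‖ - 1 : ℝ) : ℂ) * (p.1 / (‖p.1‖ : ℂ)), p.2) : V)) = 0 := by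
    rw [index_eq hm0, if_neg]
    rw [hi0]; linarith
  have hj1 : index cheeger circle (((-(p.1 / (‖p.1‖ : ℂ)), 0) : V), ((((-‖p.1‖ - 1 : ℝ) : ℂ) * (-(p.1 / (‖p.1‖ : ℂ))), p.2) : V)) = 1 := by
    rw [index_eq hm1, if_pos]
    rw [hi1]; linarith
  rcases k with _ | _ | k
  · rw [if_pos (by norm_num)]
    rw [Set.encard_eq_one]
    refine ⟨_, Set.eq_singleton_iff_unique_mem.mpr ⟨⟨hm0, hx0, hj0⟩, ?_⟩⟩
    rintro z ⟨h1, h2, h3⟩
    rcases count_aux hp z h1 h2 with h | h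
    · exact h.1
    · rw [h.2] at h3; exact absurd h3 (by norm_num)
  · rw [if_pos (by norm_num)]
    rw [Set.encard_eq_one]
    refine ⟨_, Set.eq_singleton_iff_unique_mem.mpr ⟨⟨hm1, hx1, hj1⟩, ?_⟩⟩
    rintro z ⟨h1, h2, h3⟩
    rcases count_aux hp z h1 h2 with h | h
    · rw [h.2] at h3; exact absurd h3 (by norm_num)
    · exact h.1
  · rw [if_neg (by omega), Set.encard_eq_zero, Set.eq_empty_iff_forall_notMem]
    rintro z ⟨h1, h2, h3⟩
    rcases count_aux hp z h1 h2 with h | h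
    · rw [h.2] at h3; omega
    · rw [h.2] at h3; omega


end J_count

alias count := J_count.count

end Pool.Agent.Helper10.Dupin
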