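import Mathlib
import Pool.Agent.Helper10.Dupin.Base

open MeasureTheory Set Filter Topology
open scoped ENNReal NNReal ContDiff

noncomputable section

namespace Pool.Agent.Helper10.Dupin

namespace J_curv_id


-- TARGET: prove this (put auxiliary lemmas between the ASSUMED END line and the theorem)

theorem ip_comm' (A B : V) : ip A B = ip B A := by unfold ip; ring

theorem ip_add_l (A B C : V) : ip (A + B) C = ip A C + ip B C := by
  simp only [ip, Prod.fst_add, Prod.snd_add, Complex.add_re, Complex.add_im]; ring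

theorem ip_sub_l (A B C : V) : ip (A - B) C = ip A C - ip B C := by
  simp only [ip, Prod.fst_sub, Prod.snd_sub, Complex.sub_re, Complex.sub_im]; ring

theorem ip_neg_l (A C : V) : ip (-A) C = -ip A C := by
  simp only [ip, Prod.fst_neg, Prod.snd_neg, Complex.neg_re, Complex.neg_im]; ring

theorem ip_smul_l (a : ℝ) (A C : V) : ip (a • A) C = a * ip A C := by
  simp only [ip, Prod.smul_fst, Prod.smul_snd, Complex.real_smul, Complex.mul_re,
    Complex.mul_im, Complex.ofReal_re, Complex.ofReal_im, zero_mul, sub_zero, add_zero]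
  ring

theorem ip_add_r (A B C : V) : ip C (A + B) = ip C A + ip C B := by
  rw [ip_comm', ip_add_l, ip_comm' A, ip_comm' B]

theorem ip_sub_r (A B C : V) : ip C (A - B) = ip C A - ip C B := by
  rw [ip_comm', ip_sub_l, ip_comm' A, ip_comm' B]

theorem ip_neg_r (A C : V) : ip C (-A) = -ip C A := by
  rw [ip_comm', ip_neg_l, ip_comm' A]

theorem ip_smul_r (a : ℝ) (A C : V) : ip C (a • A) = a * ip C A := by
  rw [ip_comm', ip_smul_l, ip_comm' A]

theorem J_add' (A B : V) : J (A + B) = J A + J B := by
  simp only [J, Prod.fst_add, Prod.snd_add, mul_add, Prod.mk_add_mk]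

theorem J_sub' (A B : V) : J (A - B) = J A - J B := by
  simp only [J, Prod.fst_sub, Prod.snd_sub, mul_sub, Prod.mk_sub_mk]

theorem J_neg' (A : V) : J (-A) = - J A := by
  simp only [J, Prod.fst_neg, Prod.snd_neg, mul_neg, Prod.neg_mk]

theorem J_smul' (a : ℝ) (A : V) : J (a • A) = a • J A := by
  simp only [J, Prod.smul_fst, Prod.smul_snd, Prod.smul_mk, Complex.real_smul]
  ext <;> simp <;> ring

theorem J_J' (A : V) : J (J A) = -A := by
  have h : ∀ w : ℂ, Complex.I * (Complex.I * w) = -w := fun w => by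
    rw [← mul_assoc, Complex.I_mul_I, neg_one_mul]
  exact Prod.ext (h A.1) (h A.2)

theorem ip_J_l (A B : V) : ip (J A) B = - ip A (J B) := by
  simp only [ip, J, Complex.mul_re, Complex.mul_im, Complex.I_re, Complex.I_im]; ring

theorem ip_J_self (A : V) : ip A (J A) = 0 := by
  simp only [ip, J, Complex.mul_re, Complex.mul_im, Complex.I_re, Complex.I_im]; ring

theorem ip_J_swap (A B : V) : ip A (J B) = - ip B (J A) := by
  simp only [ip, J, Complex.mul_re, Complex.mul_im, Complex.I_re, Complex.I_im]; ring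

theorem curv_id (z X Y : V) :
    cheeger.g z
      ((-((ip Y (J X) / rho z - 2 * ip X z * om z Y / rho z ^ 2) • J Y)
        - (ip Y (J X) / rho z - 2 * ip X z * om z Y / rho z ^ 2) • J Y
        - ((ip Y (J X) * om z Y + om z Y * ip Y (J X)) / rho z ^ 2
            - 4 * ip X z * (om z Y * om z Y) / rho z ^ 3) • z
        - (om z Y * om z Y / rho z ^ 2) • X)
      - (-((ip Y (J Y) / rho z - 2 * ip Y z * om z Y / rho z ^ 2) • J X)
        - (ip X (J Y) / rho z - 2 * ip Y z * om z X / rho z ^ 2) • J Y
        - ((ip X (J Y) * om z Y + om z X * ip Y (J Y)) / rho z ^ 2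
            - 4 * ip Y z * (om z X * om z Y) / rho z ^ 3) • z
        - (om z X * om z Y / rho z ^ 2) • Y)
      + Gam z X (Gam z Y Y) - Gam z Y (Gam z X Y)) X =
    3 * (ip (J (X - (om z X / rho z) • J z)) (Y - (om z Y / rho z) • J z)) ^ 2 / rho z := by
  have hr : rho z ≠ 0 := (rho_pos z).ne'
  have hzz : ip z z = rho z - 1 := by unfold rho; ring
  have hg : ∀ A B : V, cheeger.g z A B = ip A B - om z A * om z B / rho z := fun _ _ => rfl
  rw [hg]
  unfold Gam
  have e1 : ip X (J Y) = - ip Y (J X) := ip_J_swap X Y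
  have e2 : ip z (J X) = - ip X (J z) := ip_J_swap z X
  have e3 : ip z (J Y) = - ip Y (J z) := ip_J_swap z Y
  have e4 : ip z (J z) = 0 := ip_J_self z
  have e5 : ip X (J X) = 0 := ip_J_self X
  have e6 : ip Y (J Y) = 0 := ip_J_self Y
  have e7 : ip z X = ip X z := ip_comm' _ _
  have e8 : ip z Y = ip Y z := ip_comm' _ _
  have e9 : ip X Y = ip Y X := ip_comm' _ _
  simp only [om, ip_add_l, ip_sub_l, ip_neg_l, ip_smul_l, ip_add_r, ip_sub_r, ip_neg_r, ip_smul_r,
    J_add', J_sub', J_neg', J_smul', J_J', ip_J_l, e1, e2, e3, e4, e5, e6, e7, e8, e9, hzz]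
  generalize rho z = r at hr
  generalize ip X z = a
  generalize ip Y z = b
  generalize ip X (J z) = p
  generalize ip Y (J z) = q
  generalize ip Y (J X) = j
  generalize ip X X = xx
  generalize ip Y Y = yy
  generalize ip Y X = yx
  field_simp
  ring


end J_curv_id

alias curv_id := J_curv_id.curv_id

end Pool.Agent.Helper10.Dupin
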