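import Mathlib
import Pool.Agent.Helper10.Dupin.Base

open MeasureTheory Set Filter Topology
open scoped ENNReal NNReal ContDiff

noncomputable section

namespace Pool.Agent.Helper10.Dupin

namespace J_fderiv_Gam


theorem s_contDiff (Y Z : V) : ContDiff ℝ ∞ (fun w => Gam w Y Z) := by
  have h1 : ∀ X : V, ContDiff ℝ ∞ fun z => om z X := fun X => contDiff_ip contDiff_const contDiff_J
  have h2 : ContDiff ℝ ∞ rho := contDiff_const.add (contDiff_ip contDiff_id contDiff_id)
  have hr : ∀ z, rho z ≠ 0 := fun z => (rho_pos z).ne'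
  unfold Gam
  exact (((((h1 Z).div h2 hr).smul contDiff_const).neg).sub
    (((h1 Y).div h2 hr).smul contDiff_const)).sub
    ((((h1 Y).mul (h1 Z)).div (h2.pow 2) (fun z => pow_ne_zero 2 (hr z))).smul contDiff_id)

theorem s_om (z X Y : V) (t : ℝ) : om (z + t • X) Y = om z Y + t * ip Y (J X) := by
  simp only [om, ip, J, Prod.fst_add, Prod.snd_add, Complex.add_re, Complex.add_im, Prod.smul_fst,
    Prod.smul_snd, Complex.real_smul, Complex.mul_re, Complex.mul_im, Complex.ofReal_re,
    Complex.ofReal_im, Complex.I_re, Complex.I_im]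
  ring

theorem s_rho (z X : V) (t : ℝ) :
    rho (z + t • X) = rho z + 2 * t * ip X z + t ^ 2 * ip X X := by
  simp only [rho, ip, Prod.fst_add, Prod.snd_add, Complex.add_re, Complex.add_im, Prod.smul_fst,
    Prod.smul_snd, Complex.real_smul, Complex.mul_re, Complex.mul_im, Complex.ofReal_re,
    Complex.ofReal_im]
  ring

theorem s_line (z X Y Z : V) : HasDerivAt (fun t : ℝ => Gam (z + t • X) Y Z)
    (-((ip Z (J X) / rho z - 2 * ip X z * om z Z / rho z ^ 2) • J Y)
      - (ip Y (J X) / rho z - 2 * ip X z * om z Y / rho z ^ 2) • J Z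
      - ((ip Y (J X) * om z Z + om z Y * ip Z (J X)) / rho z ^ 2
          - 4 * ip X z * (om z Y * om z Z) / rho z ^ 3) • z
      - (om z Y * om z Z / rho z ^ 2) • X) 0 := by
  have hr : rho z ≠ 0 := (rho_pos z).ne'
  have e : (fun t : ℝ => Gam (z + t • X) Y Z) = fun t : ℝ =>
      -(((om z Z + t * ip Z (J X)) / (rho z + 2 * t * ip X z + t ^ 2 * ip X X)) • J Y)
      - ((om z Y + t * ip Y (J X)) / (rho z + 2 * t * ip X z + t ^ 2 * ip X X)) • J Z
      - ((om z Y + t * ip Y (J X)) * (om z Z + t * ip Z (J X)) /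
        (rho z + 2 * t * ip X z + t ^ 2 * ip X X) ^ 2) • (z + t • X) := by
    funext t
    unfold Gam
    rw [s_om, s_om, s_rho]
  rw [e]
  have hp : ∀ W : V, HasDerivAt (fun t : ℝ => om z W + t * ip W (J X)) (ip W (J X)) 0 := by
    intro W
    have := ((hasDerivAt_id (0 : ℝ)).mul_const (ip W (J X))).const_add (om z W)
    exact this.congr_deriv (by simp)
  have hq : HasDerivAt (fun t : ℝ => rho z + 2 * t * ip X z + t ^ 2 * ip X X) (2 * ip X z) 0 := by
    have := ((((hasDerivAt_id (0 : ℝ)).const_mul 2).mul_const (ip X z)).const_add (rho z)).add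
      (((hasDerivAt_id (0 : ℝ)).pow 2).mul_const (ip X X))
    exact this.congr_deriv (by simp)
  have hq0 : rho z + 2 * (0 : ℝ) * ip X z + (0 : ℝ) ^ 2 * ip X X = rho z := by ring
  have hl : HasDerivAt (fun t : ℝ => z + t • X) X 0 := by
    have := ((hasDerivAt_id (0 : ℝ)).smul_const X).const_add z
    exact this.congr_deriv (by simp)
  have h1 : ∀ W : V, HasDerivAt (fun t : ℝ => (om z W + t * ip W (J X)) /
      (rho z + 2 * t * ip X z + t ^ 2 * ip X X))
      (ip W (J X) / rho z - 2 * ip X z * om z W / rho z ^ 2) 0 := by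
    intro W
    have := (hp W).div hq (by rw [hq0]; exact hr)
    refine this.congr_deriv ?_
    simp only [hq0, zero_mul, add_zero]
    field_simp
  have h2 : HasDerivAt (fun t : ℝ => (om z Y + t * ip Y (J X)) * (om z Z + t * ip Z (J X)) /
        (rho z + 2 * t * ip X z + t ^ 2 * ip X X) ^ 2)
      ((ip Y (J X) * om z Z + om z Y * ip Z (J X)) / rho z ^ 2
          - 4 * ip X z * (om z Y * om z Z) / rho z ^ 3) 0 := by
    have := ((hp Y).mul (hp Z)).div (hq.pow 2) (by
      simp only [Pi.pow_apply]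
      rw [hq0]; exact pow_ne_zero 2 hr)
    refine this.congr_deriv ?_
    simp only [Pi.pow_apply, Pi.mul_apply, hq0, zero_mul, add_zero]
    field_simp
    ring
  have := ((((h1 Z).smul_const (J Y)).neg).sub ((h1 Y).smul_const (J Z))).sub (h2.smul hl)
  refine this.congr_deriv ?_
  simp only [hq0, zero_mul, add_zero, zero_smul]
  abel

-- TARGET: prove this (put auxiliary lemmas between the ASSUMED END line and the theorem)

theorem fderiv_Gam (z X Y Z : V) : fderiv ℝ (fun w => Gam w Y Z) z X =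
    -((ip Z (J X) / rho z - 2 * ip X z * om z Z / rho z ^ 2) • J Y)
      - (ip Y (J X) / rho z - 2 * ip X z * om z Y / rho z ^ 2) • J Z
      - ((ip Y (J X) * om z Z + om z Y * ip Z (J X)) / rho z ^ 2
          - 4 * ip X z * (om z Y * om z Z) / rho z ^ 3) • z
      - (om z Y * om z Z / rho z ^ 2) • X := by
  have hd : DifferentiableAt ℝ (fun w => Gam w Y Z) z :=
    (s_contDiff Y Z).differentiable (by simp) z
  have h1 : HasDerivAt (fun t : ℝ => Gam (z + t • X) Y Z) (fderiv ℝ (fun w => Gam w Y Z) z X) 0 :=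
    hd.hasFDerivAt.hasLineDerivAt X
  exact h1.unique (s_line z X Y Z)


end J_fderiv_Gam

alias fderiv_Gam := J_fderiv_Gam.fderiv_Gam

end Pool.Agent.Helper10.Dupin
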