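import Mathlib
import Pool.Agent.Helper10.Dupin.Base
import Pool.Agent.Helper10.Dupin.J_mem_nb
import Pool.Agent.Helper10.Dupin.J_nb_mk
import Pool.Agent.Helper10.Dupin.J_expo_nb
import Pool.Agent.Helper10.Dupin.J_mult_eq

open MeasureTheory Set Filter Topology
open scoped ENNReal NNReal ContDiff

noncomputable section

namespace Pool.Agent.Helper10.Dupin

namespace J_focal_pt


-- TARGET: prove this (put auxiliary lemmas between the ASSUMED END line and the theorem)

theorem focal_pt {p : V} (hp : p.1 = 0) : IsFocalPoint cheeger circle p := by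
  obtain ⟨h1, h2⟩ := nb_mk 1 (by simp) (-1) p.2
  refine ⟨_, ⟨h1, ?_⟩, ?_⟩
  · rw [mult_eq h1]
    rw [if_pos h2]
    exact one_pos
  · rw [expo_nb h1]
    apply Prod.ext
    · rw [hp]
      simp
    · simp


end J_focal_pt

alias focal_pt := J_focal_pt.focal_pt

end Pool.Agent.Helper10.Dupin
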