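import Mathlib
import Pool.Agent.Helper10.Dupin.Base

open MeasureTheory Set Filter Topology
open scoped ENNReal NNReal ContDiff

noncomputable section

namespace Pool.Agent.Helper10.Dupin

namespace J_leaf_curve


-- TARGET: prove this (put auxiliary lemmas between the ASSUMED END line and the theorem)

theorem leaf_curve {E : Type} [NormedAddCommGroup E] [NormedSpace ℝ E] [FiniteDimensional ℝ E]
    {S : Set E} (hS : IsSubmanifold S 1) {x : E} (hx : x ∈ S) :
    ∃ c : ℝ → E, ContDiff ℝ ∞ c ∧ (∀ t, c t ∈ S) ∧ c 0 = x ∧ deriv c 0 ≠ 0 := by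
  classical
  have : CompleteSpace E := FiniteDimensional.complete ℝ E
  obtain ⟨m, U, f, hdim, hU, hxU, hf, hM, hsurj⟩ := hS x hx
  set A : E →L[ℝ] EuclideanSpace ℝ (Fin m) := fderiv ℝ f x with hA
  have hAs : Function.Surjective A := hsurj x hxU
  have hrank : Module.finrank ℝ (LinearMap.ker (A : E →ₗ[ℝ] EuclideanSpace ℝ (Fin m))) = 1 := by
    have h1 := LinearMap.finrank_range_add_finrank_ker (A : E →ₗ[ℝ] EuclideanSpace ℝ (Fin m))
    have h2 : LinearMap.range (A : E →ₗ[ℝ] EuclideanSpace ℝ (Fin m)) = ⊤ :=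
      LinearMap.range_eq_top.mpr hAs
    rw [h2, finrank_top, finrank_euclideanSpace_fin] at h1
    omega
  obtain ⟨⟨v, hvker⟩, hv0, hvspan⟩ := finrank_eq_one_iff'.mp hrank
  have hv0' : v ≠ 0 := fun h => hv0 (Subtype.ext h)
  obtain ⟨L, hL⟩ := SeparatingDual.exists_eq_one (R := ℝ) hv0'
  have hinj : Function.Injective (A.prod L) := by
    rw [injective_iff_map_eq_zero]
    intro w hw
    have hw1 : A w = 0 := congrArg Prod.fst hw
    have hw2 : L w = 0 := congrArg Prod.snd hw
    obtain ⟨a, ha⟩ := hvspan ⟨w, hw1⟩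
    have ha' : a • v = w := congrArg Subtype.val ha
    rw [← ha', map_smul, hL, smul_eq_mul, mul_one] at hw2
    rw [← ha', hw2, zero_smul]
  have hfr : Module.finrank ℝ E = Module.finrank ℝ (EuclideanSpace ℝ (Fin m) × ℝ) := by
    rw [Module.finrank_prod, finrank_euclideanSpace_fin, Module.finrank_self]
    omega
  let F' : E ≃L[ℝ] (EuclideanSpace ℝ (Fin m) × ℝ) :=
    (LinearEquiv.ofInjectiveOfFinrankEq
      ((A.prod L : E →L[ℝ] _) : E →ₗ[ℝ] EuclideanSpace ℝ (Fin m) × ℝ) hinj hfr).toContinuousLinearEquiv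
  have hF' : (F' : E →L[ℝ] EuclideanSpace ℝ (Fin m) × ℝ) = A.prod L := by
    ext w <;> rfl
  let F : E → EuclideanSpace ℝ (Fin m) × ℝ := fun y => (f y, L y)
  have hFc : ∀ y ∈ U, ContDiffAt ℝ ∞ F y := fun y hy =>
    (hf.contDiffAt (hU.mem_nhds hy)).prodMk L.contDiff.contDiffAt
  have hFd : ∀ y ∈ U, HasFDerivAt F ((fderiv ℝ f y).prod L) y := fun y hy =>
    ((hf.contDiffAt (hU.mem_nhds hy)).differentiableAt (by simp)).hasFDerivAt.prodMk
      L.hasFDerivAt
  have hFdx : HasFDerivAt F (F' : E →L[ℝ] EuclideanSpace ℝ (Fin m) × ℝ) x := by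
    rw [hF']; exact hFd x hxU
  let e := (hFc x hxU).toOpenPartialHomeomorph F hFdx (by simp)
  have he : ∀ y, e y = F y := fun y => rfl
  have hxs : x ∈ e.source := ContDiffAt.mem_toOpenPartialHomeomorph_source _ _ _
  have hev : ∀ᶠ y in 𝓝 x, y ∈ U ∧ ∃ g : E ≃L[ℝ] (EuclideanSpace ℝ (Fin m) × ℝ),
      (g : E →L[ℝ] EuclideanSpace ℝ (Fin m) × ℝ) = (fderiv ℝ f y).prod L := by
    refine Filter.Eventually.and (hU.mem_nhds hxU) ?_
    have hc : ContinuousAt (fun y => (fderiv ℝ f y).prod L) x := by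
      have h1 : ContinuousAt (fderiv ℝ f) x :=
        (hf.continuousOn_fderiv_of_isOpen hU (by simp)).continuousAt (hU.mem_nhds hxU)
      have h2 : Continuous fun p : (E →L[ℝ] EuclideanSpace ℝ (Fin m)) => p.prod L := by
        have h3 : ∀ p : (E →L[ℝ] EuclideanSpace ℝ (Fin m)), p.prod L =
            (ContinuousLinearMap.inl ℝ (EuclideanSpace ℝ (Fin m)) ℝ).comp p +
            (ContinuousLinearMap.inr ℝ (EuclideanSpace ℝ (Fin m)) ℝ).comp L := by
          intro p
          ext w <;> simp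
        simp only [h3]
        exact (continuous_const.clm_comp continuous_id).add continuous_const
      exact h2.continuousAt.comp h1
    have h2 := F'.nhds
    rw [hF'] at h2
    filter_upwards [hc h2] with y hy
    obtain ⟨g, hg⟩ := hy
    exact ⟨g, hg⟩
  obtain ⟨W, hWs, hWo, hxW⟩ := eventually_nhds_iff.mp hev
  have hPo : IsOpen (e.target ∩ e.symm ⁻¹' W) := e.isOpen_inter_preimage_symm hWo
  have hfx : f x = 0 := (hM x hxU).mp hx
  have hsx : e.symm (0, L x) = x := by
    have : e x = (0, L x) := by rw [he]; simp only [F, hfx]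
    rw [← this]; exact e.left_inv hxs
  have hxP : ((0 : EuclideanSpace ℝ (Fin m)), L x) ∈ e.target ∩ e.symm ⁻¹' W := by
    constructor
    · have : e x = (0, L x) := by rw [he]; simp only [F, hfx]
      rw [← this]; exact e.map_source hxs
    · show e.symm _ ∈ W
      rw [hsx]; exact hxW
  have hQo : IsOpen {t : ℝ | ((0 : EuclideanSpace ℝ (Fin m)), L x + t) ∈ e.target ∩ e.symm ⁻¹' W} :=
    hPo.preimage (by fun_prop)
  obtain ⟨δ, hδ, hball⟩ := Metric.isOpen_iff.mp hQo 0 (by simpa using hxP)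
  have hin : ∀ t : ℝ, ((0 : EuclideanSpace ℝ (Fin m)), L x + δ / 2 * Real.sin t) ∈
      e.target ∩ e.symm ⁻¹' W := by
    intro t
    apply hball
    rw [Metric.mem_ball, dist_zero_right, Real.norm_eq_abs, abs_mul, abs_of_pos (half_pos hδ)]
    have := Real.abs_sin_le_one t
    nlinarith
  refine ⟨fun t => e.symm (0, L x + δ / 2 * Real.sin t), ?_, ?_, ?_, ?_⟩
  · rw [contDiff_iff_contDiffAt]
    intro t
    obtain ⟨ht1, ht2⟩ := hin t
    obtain ⟨hyU, g, hg⟩ := hWs _ ht2
    have h1 : ContDiffAt ℝ ∞ e.symm (0, L x + δ / 2 * Real.sin t) := by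
      apply e.contDiffAt_symm (f₀' := g) ht1
      · rw [hg]; exact hFd _ hyU
      · exact hFc _ hyU
    have h2 : ContDiff ℝ ∞ fun t : ℝ => ((0 : EuclideanSpace ℝ (Fin m)),
        L x + δ / 2 * Real.sin t) :=
      contDiff_const.prodMk (contDiff_const.add (contDiff_const.mul Real.contDiff_sin))
    exact h1.comp t h2.contDiffAt
  · intro t
    obtain ⟨ht1, ht2⟩ := hin t
    obtain ⟨hyU, g, hg⟩ := hWs _ ht2
    rw [hM _ hyU]
    have := e.right_inv ht1
    rw [he] at this
    exact congrArg Prod.fst this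
  · simp only [Real.sin_zero, mul_zero, add_zero]
    exact hsx
  · intro h0
    have hd : DifferentiableAt ℝ (fun t : ℝ => e.symm ((0 : EuclideanSpace ℝ (Fin m)),
        L x + δ / 2 * Real.sin t)) 0 := by
      obtain ⟨ht1, ht2⟩ := hin 0
      obtain ⟨hyU, g, hg⟩ := hWs _ ht2
      have h1 : ContDiffAt ℝ ∞ e.symm (0, L x + δ / 2 * Real.sin 0) := by
        apply e.contDiffAt_symm (f₀' := g) ht1
        · rw [hg]; exact hFd _ hyU
        · exact hFc _ hyU
      have h2 : ContDiff ℝ ∞ fun t : ℝ => ((0 : EuclideanSpace ℝ (Fin m)),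
          L x + δ / 2 * Real.sin t) :=
        contDiff_const.prodMk (contDiff_const.add (contDiff_const.mul Real.contDiff_sin))
      exact (h1.comp (0 : ℝ) h2.contDiffAt).differentiableAt (by simp)
    have h1 : HasDerivAt (fun t : ℝ => L (e.symm ((0 : EuclideanSpace ℝ (Fin m)),
        L x + δ / 2 * Real.sin t))) (L 0) 0 := by
      have := L.hasFDerivAt.comp_hasDerivAt (0 : ℝ) hd.hasDerivAt
      rw [h0] at this
      exact this
    have h2 : (fun t : ℝ => L (e.symm ((0 : EuclideanSpace ℝ (Fin m)),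
        L x + δ / 2 * Real.sin t))) = fun t => L x + δ / 2 * Real.sin t := by
      funext t
      have := e.right_inv (hin t).1
      rw [he] at this
      exact congrArg Prod.snd this
    rw [h2, map_zero] at h1
    have h3 : HasDerivAt (fun t : ℝ => L x + δ / 2 * Real.sin t) (δ / 2 * Real.cos 0) 0 :=
      ((Real.hasDerivAt_sin 0).const_mul (δ / 2)).const_add (L x)
    have := h1.unique h3
    rw [Real.cos_zero] at this
    linarith


end J_leaf_curve

alias leaf_curve := J_leaf_curve.leaf_curve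

end Pool.Agent.Helper10.Dupin
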