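import Mathlib
import Pool.Agent.Helper10.Dupin.Base
import Pool.Agent.Helper10.Dupin.J_chr_eq
import Pool.Agent.Helper10.Dupin.J_mem_nb
import Pool.Agent.Helper10.Dupin.J_expo_nb
import Pool.Agent.Helper10.Dupin.J_nb_decomp
import Pool.Agent.Helper10.Dupin.J_mult_eq
import Pool.Agent.Helper10.Dupin.J_leaf_curve

open MeasureTheory Set Filter Topology
open scoped ENNReal NNReal ContDiff

noncomputable section

namespace Pool.Agent.Helper10.Dupin

namespace J_no_leaf


-- TARGET: prove this (put auxiliary lemmas between the ASSUMED END line and the theorem)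

theorem no_leaf {z₀ : V × V} (hz : z₀ ∈ focalNormals cheeger circle) (hw : z₀.2.2 ≠ 0) (S : Set V) :
    ¬ IsFocalLeaf cheeger circle S z₀ := by
  rintro ⟨hSM, hx0, hsub, v, hvnb, hpar, hv0, hall⟩
  have hnb : z₀ ∈ normalBundle cheeger circle := hz.1
  have hm := hz.2
  have hmul := mult_eq hnb
  have hip : ip z₀.2 z₀.1 = -1 := by
    by_contra h
    rw [if_neg h] at hmul
    omega
  rw [if_pos hip] at hmul
  rw [hmul] at hsub
  obtain ⟨c, hc, hcS, hc0, hc'⟩ := leaf_curve hsub hx0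
  have hV : ∀ t, v (c t) = (z₀.1 + z₀.2) - c t := by
    intro t
    have h1 := (hall (c t) (hcS t)).1
    rw [expo_nb (hvnb _ (hcS t)), expo_nb hnb] at h1
    rw [← h1]
    simp
  have hcd : HasDerivAt c (deriv c 0) 0 :=
    ((hc.differentiable (by simp)) 0).hasDerivAt
  set u : V := deriv c 0 with hu
  -- tangency
  have h2 : ∀ t, (c t).2 = 0 := fun t => (hSM (hcS t)).2
  have h1 : ∀ t, (c t).1.re * (c t).1.re + (c t).1.im * (c t).1.im = 1 := by
    intro t
    have h := (hSM (hcS t)).1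
    have h' := Complex.normSq_eq_norm_sq (c t).1
    rw [h, Complex.normSq_apply] at h'
    simpa using h'
  have hd1 : HasDerivAt (fun t => (c t).1) u.1 0 := by
    exact (hasFDerivAt_fst (𝕜 := ℝ) (p := c 0)).comp_hasDerivAt (0 : ℝ) hcd
  have hd2 : HasDerivAt (fun t => (c t).2) u.2 0 := by
    exact (hasFDerivAt_snd (𝕜 := ℝ) (p := c 0)).comp_hasDerivAt (0 : ℝ) hcd
  have hu2 : u.2 = 0 := by
    have : (fun t => (c t).2) = fun _ => (0 : ℂ) := funext h2
    rw [this] at hd2
    exact hd2.unique (hasDerivAt_const (0 : ℝ) (0 : ℂ))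
  have hdre : HasDerivAt (fun t => (c t).1.re) u.1.re 0 := by
    exact (Complex.reCLM.hasFDerivAt (x := (c 0).1)).comp_hasDerivAt (0 : ℝ) hd1
  have hdim : HasDerivAt (fun t => (c t).1.im) u.1.im 0 := by
    exact (Complex.imCLM.hasFDerivAt (x := (c 0).1)).comp_hasDerivAt (0 : ℝ) hd1
  have hort : (c 0).1.re * u.1.re + (c 0).1.im * u.1.im = 0 := by
    have h3 := (hdre.mul hdre).add (hdim.mul hdim)
    have h4 : (fun t => (c t).1.re * (c t).1.re + (c t).1.im * (c t).1.im) = fun _ => (1 : ℝ) :=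
      funext h1
    have h5 : HasDerivAt (fun t => (c t).1.re * (c t).1.re + (c t).1.im * (c t).1.im)
      (u.1.re * (c 0).1.re + (c 0).1.re * u.1.re + (u.1.im * (c 0).1.im + (c 0).1.im * u.1.im)) 0 :=
      h3
    rw [h4] at h5
    have h6 := h5.unique (hasDerivAt_const (0 : ℝ) (1 : ℝ))
    linarith
  -- the covariant derivative
  have hdV : deriv (fun s => v (c s)) 0 = - u := by
    have : (fun s => v (c s)) = fun s => (z₀.1 + z₀.2) - c s := funext hV
    rw [this]
    simpa using (hcd.const_sub (z₀.1 + z₀.2)).deriv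
  have hom0 : om z₀.1 z₀.2 = 0 := (mem_nb.1 hnb).2
  have hx12 : z₀.1.2 = 0 := (nb_decomp hnb).1
  set n : V := (0, Complex.I * z₀.2.2) with hn
  have homn : om z₀.1 n = 0 := by
    simp [om, ip, J, hn, hx12]
  have hnn : (c 0, n) ∈ normalBundle cheeger circle := by
    rw [mem_nb, hc0]
    exact ⟨(mem_nb.1 hnb).1, homn⟩
  have hfin := (hpar c hc hcS).2 0 n hnn
  have hv00 : v (c 0) = z₀.2 := by rw [hc0]; exact hv0
  unfold covDeriv at hfin
  rw [hdV, chr_eq, ← hu] at hfin
  simp only [hv00] at hfin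
  rw [hc0] at hfin hort
  change ip _ n - om z₀.1 _ * om z₀.1 n / rho z₀.1 = 0 at hfin
  rw [homn] at hfin
  have h11 := h1 0
  rw [hc0] at h11
  unfold Gam at hfin
  rw [hom0] at hfin
  have hnorm : z₀.2.2.re * z₀.2.2.re + z₀.2.2.im * z₀.2.2.im ≠ 0 := by
    have := Complex.normSq_pos.mpr hw
    rw [Complex.normSq_apply] at this
    exact this.ne'
  have homu : om z₀.1 u ≠ 0 := by
    intro h
    apply hc'
    have e1 : om z₀.1 u = - u.1.re * z₀.1.1.im + u.1.im * z₀.1.1.re := by
      simp [om, ip, J, hu2]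
    rw [e1] at h
    have hre : u.1.re = 0 := by
      have : u.1.re * (z₀.1.1.re * z₀.1.1.re + z₀.1.1.im * z₀.1.1.im) =
        z₀.1.1.re * (z₀.1.1.re * u.1.re + z₀.1.1.im * u.1.im) - z₀.1.1.im *
        (- u.1.re * z₀.1.1.im + u.1.im * z₀.1.1.re) := by ring
      rw [h11, hort, h] at this
      simpa using this
    have him : u.1.im = 0 := by
      have : u.1.im * (z₀.1.1.re * z₀.1.1.re + z₀.1.1.im * z₀.1.1.im) =
        z₀.1.1.im * (z₀.1.1.re * u.1.re + z₀.1.1.im * u.1.im) + z₀.1.1.re *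
        (- u.1.re * z₀.1.1.im + u.1.im * z₀.1.1.re) := by ring
      rw [h11, hort, h] at this
      simpa using this
    exact Prod.ext (Complex.ext hre him) hu2
  have hrho := (rho_pos z₀.1).ne'
  have e2 : ip (-u + (-((0 / rho z₀.1) • J u) - (om z₀.1 u / rho z₀.1) • J z₀.2 -
      (om z₀.1 u * 0 / rho z₀.1 ^ 2) • z₀.1)) n =
      - (om z₀.1 u / rho z₀.1) * (z₀.2.2.re * z₀.2.2.re + z₀.2.2.im * z₀.2.2.im) := by
    have hu2r : u.2.re = 0 := by rw [hu2]; rfl
    have hu2i : u.2.im = 0 := by rw [hu2]; rfl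
    simp only [ip, hn, J, Prod.fst_add, Prod.snd_add, Prod.fst_sub, Prod.snd_sub, Prod.fst_neg,
      Prod.snd_neg, Prod.smul_fst, Prod.smul_snd, Complex.add_re, Complex.add_im, Complex.sub_re,
      Complex.sub_im, Complex.neg_re, Complex.neg_im, Complex.real_smul, Complex.mul_re,
      Complex.mul_im, Complex.ofReal_re, Complex.ofReal_im, Complex.I_re, Complex.I_im,
      Complex.zero_re, Complex.zero_im, hu2r, hu2i]
    ring
  rw [e2] at hfin
  simp only [mul_zero, zero_div, sub_zero] at hfin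
  have h7 : om z₀.1 u / rho z₀.1 = 0 := by
    rcases mul_eq_zero.1 hfin with h | h
    · exact neg_eq_zero.1 h
    · exact absurd h hnorm
  rcases div_eq_zero_iff.1 h7 with h | h
  · exact homu h
  · exact hrho h


end J_no_leaf

alias no_leaf := J_no_leaf.no_leaf

end Pool.Agent.Helper10.Dupin
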