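import Mathlib
import Pool.Agent.Helper10.Dupin.Base

open MeasureTheory Set Filter Topology
open scoped ENNReal NNReal ContDiff

open Pool.Agent.Helper922.HB

noncomputable section

namespace Pool.Agent.Helper10.Dupin

namespace J_path_homotopy


-- TARGET: prove this (put auxiliary lemmas between the ASSUMED END line and the theorem)

/-- the constant functions -/
def phC : V →L[ℝ] L2 V := Lp.constL 2 (volume : Measure unitInterval) ℝ

theorem ph_int (f : L2 V) : Integrable (f : unitInterval → V) volume :=
  (Lp.memLp f).integrable (by norm_num)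

theorem ph_bound (f : L2 V) : ‖∫ τ, f τ‖ ≤ 1 * ‖f‖ := by
  rw [one_mul]
  have h1 : ‖∫ τ, f τ‖ₑ ≤ eLpNorm f 2 (volume : Measure unitInterval) := by
    refine (enorm_integral_le_lintegral_enorm _).trans ?_
    rw [← eLpNorm_one_eq_lintegral_enorm]
    exact eLpNorm_le_eLpNorm_of_exponent_le (by norm_num) (Lp.aestronglyMeasurable f)
  rw [Lp.norm_def]
  have h2 := ENNReal.toReal_mono (Lp.eLpNorm_ne_top f) h1
  rwa [toReal_enorm] at h2

/-- the integral -/
def phI : L2 V →L[ℝ] V :=
  LinearMap.mkContinuous
    { toFun := fun f => ∫ τ, f τ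
      map_add' := by
        intro f g
        rw [← integral_add (ph_int f) (ph_int g)]
        exact integral_congr_ae (Lp.coeFn_add f g)
      map_smul' := by
        intro c f
        rw [RingHom.id_apply, ← integral_smul]
        exact integral_congr_ae (Lp.coeFn_smul c f) } 1 ph_bound

theorem phI_apply (f : L2 V) : phI f = ∫ τ, f τ := rfl

theorem ph_path (p : V) (f : L2 V) : path p f 0 = p - phI f := by
  unfold path
  rw [phI_apply]
  congr 1
  have h : (Ioc (0 : unitInterval) 1) =ᵐ[volume] (univ : Set unitInterval) := by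
    rw [ae_eq_univ]
    have : (Ioc (0 : unitInterval) 1)ᶜ ⊆ {0} := by
      intro x hx
      rw [mem_compl_iff, mem_Ioc, not_and_or] at hx
      rcases hx with hx | hx
      · rw [mem_singleton_iff]
        exact le_antisymm (not_lt.1 hx) x.2.1
      · exact absurd x.2.2 hx
    exact measure_mono_null this (by simp [unitInterval.volume_apply])
  rw [setIntegral_congr_set h, setIntegral_univ]

theorem phI_const (a : V) : phI (phC a) = a := by
  rw [phI_apply]
  have h : (fun τ => (phC a : unitInterval → V) τ) =ᵐ[volume] fun _ => a :=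
    Lp.coeFn_const 2 (volume : Measure unitInterval) a
  rw [integral_congr_ae h, integral_const]
  simp

theorem ph_mem {p : V} {f : L2 V} : f ∈ pathSpace circle p ↔ p - phI f ∈ circle := by
  unfold pathSpace
  rw [← ph_path]
  rfl

theorem path_homotopy (p : V) : ∃ (f : C(pathSpace circle p, S1)) (g : C(S1, pathSpace circle p))
    (H : C(pathSpace circle p × unitInterval, pathSpace circle p)),
    (∀ y, f (g y) = y) ∧ (∀ x, H (x, 0) = x) ∧ ∀ x, H (x, 1) = g (f x) := by
  let F : pathSpace circle p → S1 := fun x => ⟨(p - phI x.1).1, (ph_mem.1 x.2).1⟩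
  have hF : Continuous F := by
    refine Continuous.subtype_mk ?_ _
    exact continuous_fst.comp (continuous_const.sub (phI.continuous.comp continuous_subtype_val))
  let Gm : S1 → pathSpace circle p := fun e => ⟨phC (p - (e.1, 0)), by
    rw [ph_mem, phI_const, sub_sub_cancel]
    exact ⟨e.2, rfl⟩⟩
  have hG : Continuous Gm := by
    refine Continuous.subtype_mk ?_ _
    exact phC.continuous.comp (continuous_const.sub
      (Continuous.prodMk continuous_subtype_val continuous_const))
  let Hm : pathSpace circle p × unitInterval → pathSpace circle p := fun q =>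
    ⟨(1 - (q.2 : ℝ)) • q.1.1 + (q.2 : ℝ) • phC (phI q.1.1), by
      rw [ph_mem, map_add, map_smul, map_smul, phI_const, ← add_smul, sub_add_cancel, one_smul]
      exact ph_mem.1 q.1.2⟩
  have hH : Continuous Hm := by
    refine Continuous.subtype_mk ?_ _
    have h1 : Continuous fun q : pathSpace circle p × unitInterval => (q.1.1 : L2 V) :=
      continuous_subtype_val.comp continuous_fst
    have h2 : Continuous fun q : pathSpace circle p × unitInterval => (q.2 : ℝ) :=
      continuous_subtype_val.comp continuous_snd
    exact ((continuous_const.sub h2).smul h1).add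
      (h2.smul (phC.continuous.comp (phI.continuous.comp h1)))
  refine ⟨⟨F, hF⟩, ⟨Gm, hG⟩, ⟨Hm, hH⟩, ?_, ?_, ?_⟩
  · intro y
    apply Subtype.ext
    show (p - phI (phC (p - (y.1, 0)))).1 = y.1
    rw [phI_const, sub_sub_cancel]
  · intro x
    apply Subtype.ext
    show (1 - ((0 : unitInterval) : ℝ)) • x.1 + ((0 : unitInterval) : ℝ) • phC (phI x.1) = x.1
    simp
  · intro x
    apply Subtype.ext
    show (1 - ((1 : unitInterval) : ℝ)) • x.1 + ((1 : unitInterval) : ℝ) • phC (phI x.1) =
      phC (p - ((p - phI x.1).1, 0))
    have h1 := (ph_mem.1 x.2).2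
    have h2 : ((p - phI x.1).1, (0 : ℂ)) = p - phI x.1 := Prod.ext rfl h1.symm
    rw [h2, sub_sub_cancel]
    simp


end J_path_homotopy

alias path_homotopy := J_path_homotopy.path_homotopy

end Pool.Agent.Helper10.Dupin
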