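import Mathlib
import Pool.Agent.Helper10.Dupin.Base
import Pool.Agent.Helper10.Dupin.J_fderiv_g
import Pool.Agent.Helper10.Dupin.J_chr_eq
import Pool.Agent.Helper10.Dupin.J_fderiv_Gam
import Pool.Agent.Helper10.Dupin.J_curv_id
import Pool.Agent.Helper10.Dupin.J_geo_spec
import Pool.Agent.Helper10.Dupin.J_geo_unique
import Pool.Agent.Helper10.Dupin.J_expo_eq
import Pool.Agent.Helper10.Dupin.J_tangent_circle
import Pool.Agent.Helper10.Dupin.J_mem_nb
import Pool.Agent.Helper10.Dupin.J_expo_nb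
import Pool.Agent.Helper10.Dupin.J_nb_decomp
import Pool.Agent.Helper10.Dupin.J_nb_mk
import Pool.Agent.Helper10.Dupin.J_kernel_ne
import Pool.Agent.Helper10.Dupin.J_kernel_eq
import Pool.Agent.Helper10.Dupin.J_mult_eq
import Pool.Agent.Helper10.Dupin.J_index_eq
import Pool.Agent.Helper10.Dupin.J_focal_pt
import Pool.Agent.Helper10.Dupin.J_count
import Pool.Agent.Helper10.Dupin.J_leaf_curve
import Pool.Agent.Helper10.Dupin.J_no_leaf
import Pool.Agent.Helper10.Dupin.J_circle_sub
import Pool.Agent.Helper10.Dupin.J_aug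
import Pool.Agent.Helper10.Dupin.J_contr_high
import Pool.Agent.Helper10.Dupin.J_pc_zero
import Pool.Agent.Helper10.Dupin.J_disj
import Pool.Agent.Helper10.Dupin.J_gen_high
import Pool.Agent.Helper10.Dupin.J_gen_one
import Pool.Agent.Helper10.Dupin.J_circle_H
import Pool.Agent.Helper10.Dupin.J_HE_one
import Pool.Agent.Helper10.Dupin.J_path_homotopy
import Pool.Agent.Helper10.Dupin.J_betti_of_int

open MeasureTheory Set Filter Topology
open scoped ENNReal NNReal ContDiff

open Pool.Agent.Helper922.HB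

noncomputable section

namespace Pool.Agent.Helper10.Dupin

theorem complete_cheeger : IsCompleteMetric cheeger := fun x v =>
  ⟨geo x v, geo_spec x v⟩

theorem nonneg_cheeger : NonnegCurved cheeger := by
  intro z X Y
  have h : ∀ Y Z : V, (fun w => christoffel cheeger w Y Z) = fun w => Gam w Y Z := fun Y Z =>
    funext fun w => chr_eq w Y Z
  unfold curvature
  rw [h, h, fderiv_Gam, fderiv_Gam, chr_eq, chr_eq, chr_eq, chr_eq, curv_id]
  have := rho_pos z
  positivity

theorem betti_path (p : V) (k : ℕ) :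
    betti ℚ (pathSpace circle p) k = if k ≤ 1 then 1 else 0 := by
  obtain ⟨f, g, H, hfg, hH0, hH1⟩ := path_homotopy p
  have hHE : HE f := HE_of_homotopyEquiv f g H ⟨Prod.fst, continuous_fst⟩ hH0 hH1 (fun _ => rfl)
    (fun y => (hfg y).symm)
  obtain ⟨h0, h1, h2⟩ := circle_H
  rcases k with _ | _ | k
  · exact (betti_of_int 0).2 ((HE_one hHE 0).1 h0)
  · exact (betti_of_int 1).2 ((HE_one hHE 1).1 h1)
  · rw [if_neg (by omega)]
    exact (betti_of_int (k + 2)).1 ((HE_one hHE (k + 2)).2 (h2 k))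

theorem taut_circle : IsTaut cheeger circle := by
  refine ⟨ℚ, inferInstance, fun p hp k => ?_⟩
  have h1 : p.1 ≠ 0 := fun h => hp (focal_pt h)
  rw [betti_path]
  exact count h1 k

theorem not_dupin : ¬ IsDupin cheeger circle := by
  rintro ⟨V₀, hV, ⟨U, hU, hVU⟩, hd, hl⟩
  have h1 := nb_mk 1 (by simp) (-1) 1
  set z : V × V := (((1 : ℂ), 0), (((-1 : ℝ) : ℂ) * 1, 1)) with hz
  have h2 : z ∈ focalNormals cheeger circle := by
    refine ⟨h1.1, ?_⟩
    rw [mult_eq h1.1, if_pos h1.2]
    exact one_pos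
  have h3 := hd h2
  have h4 : IsOpen {w : V × V | w.2.2 ≠ 0} :=
    isOpen_ne_fun (continuous_snd.comp continuous_snd) continuous_const
  obtain ⟨w, hw1, hw2⟩ := mem_closure_iff.1 h3 _ h4 (by simp [hz])
  obtain ⟨S, hS, -⟩ := hl w hw2
  exact no_leaf (hV hw2) hw1 S hS

end Pool.Agent.Helper10.Dupin
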